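import Pool.Agent.N666.TM.Thin

/-!
Polynomial growth (helper495).
-/

set_option autoImplicit false
set_option linter.unusedSectionVars false

namespace Pool.Agent.N495.TS

open Finset Filter MvPolynomial Pool.Agent.N666.TM

section
variable {ι : Type} [Fintype ι] [DecidableEq ι]

theorem poly_bound (U : MvPolynomial ι ℤ) : ∃ (C : ℝ) (K : ℕ), 1 ≤ C ∧ 1 ≤ K ∧
    ∀ (v : ι → ℤ) (M : ℝ), 1 ≤ M → (∀ i, |(v i : ℝ)| ≤ M) → |((eval v U : ℤ) : ℝ)| ≤ C * M ^ K := by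
  induction U using MvPolynomial.induction_on with
  | C a =>
    refine ⟨|(a : ℝ)| + 1, 1, by linarith [abs_nonneg (a : ℝ)], le_rfl, fun v M hM _ => ?_⟩
    rw [eval_C, pow_one]
    nlinarith [abs_nonneg (a : ℝ)]
  | add p q hp hq =>
    obtain ⟨C₁, K₁, h1, h2, h3⟩ := hp
    obtain ⟨C₂, K₂, h4, h5, h6⟩ := hq
    refine ⟨C₁ + C₂, max K₁ K₂, by linarith, le_max_of_le_left h2, fun v M hM hv => ?_⟩
    rw [map_add, Int.cast_add]
    refine (abs_add_le _ _).trans ?_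
    have e1 := h3 v M hM hv
    have e2 := h6 v M hM hv
    have e3 : M ^ K₁ ≤ M ^ (max K₁ K₂) := pow_le_pow_right₀ hM (le_max_left _ _)
    have e4 : M ^ K₂ ≤ M ^ (max K₁ K₂) := pow_le_pow_right₀ hM (le_max_right _ _)
    nlinarith
  | mul_X p i hp =>
    obtain ⟨C₁, K₁, h1, h2, h3⟩ := hp
    refine ⟨C₁, K₁ + 1, h1, by omega, fun v M hM hv => ?_⟩
    rw [map_mul, eval_X, Int.cast_mul, abs_mul, pow_succ, ← mul_assoc]
    have e1 := h3 v M hM hv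
    have e2 := hv i
    have e3 : 0 ≤ C₁ * M ^ K₁ := by positivity
    exact mul_le_mul e1 e2 (abs_nonneg _) e3

theorem fl_bound [Nonempty ι] (F : ι → Finset ℝ) (a : ι → ℝ → ℝ) : ∃ (C : ℝ) (K : ℕ), 1 ≤ C ∧ 1 ≤ K ∧
    ∀ n : ℕ, 1 ≤ n → ∀ i, |(fl F a n i : ℝ)| ≤ C * (n : ℝ) ^ K := by
  set T : ℝ := ∑ i, ∑ t ∈ F i, |t| with hT
  set A : ℝ := ∑ i, ∑ t ∈ F i, |a i t| with hA
  have hA0 : 0 ≤ A := Finset.sum_nonneg fun i _ => Finset.sum_nonneg fun t _ => abs_nonneg _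
  refine ⟨A + 2, ⌈T⌉₊ + 1, by linarith, by omega, fun n hn i => ?_⟩
  have hn1 : (1 : ℝ) ≤ n := by exact_mod_cast hn
  have hTt : ∀ t ∈ F i, t ≤ ((⌈T⌉₊ + 1 : ℕ) : ℝ) := by
    intro t ht
    have h1 : |t| ≤ ∑ t ∈ F i, |t| := Finset.single_le_sum (f := fun t => |t|) (fun t _ => abs_nonneg t) ht
    have h2 : ∑ t ∈ F i, |t| ≤ T :=
      Finset.single_le_sum (f := fun i => ∑ t ∈ F i, |t|) (fun i _ => Finset.sum_nonneg fun t _ => abs_nonneg t)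
        (Finset.mem_univ i)
    have h3 := Nat.le_ceil T
    push_cast
    linarith [le_abs_self t]
  have h1 : |∑ t ∈ F i, a i t * (n : ℝ) ^ t| ≤ A * (n : ℝ) ^ (⌈T⌉₊ + 1) := by
    calc |∑ t ∈ F i, a i t * (n : ℝ) ^ t| ≤ ∑ t ∈ F i, |a i t * (n : ℝ) ^ t| :=
          Finset.abs_sum_le_sum_abs _ _
      _ ≤ ∑ t ∈ F i, |a i t| * (n : ℝ) ^ (⌈T⌉₊ + 1) := by
          refine Finset.sum_le_sum fun t ht => ?_
          rw [abs_mul, abs_of_pos (Real.rpow_pos_of_pos (by linarith) t)]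
          refine mul_le_mul_of_nonneg_left ?_ (abs_nonneg _)
          rw [← Real.rpow_natCast]
          exact Real.rpow_le_rpow_of_exponent_le hn1 (hTt t ht)
      _ = (∑ t ∈ F i, |a i t|) * (n : ℝ) ^ (⌈T⌉₊ + 1) := by rw [Finset.sum_mul]
      _ ≤ A * (n : ℝ) ^ (⌈T⌉₊ + 1) := by
          refine mul_le_mul_of_nonneg_right ?_ (by positivity)
          exact Finset.single_le_sum (f := fun i => ∑ t ∈ F i, |a i t|)
            (fun i _ => Finset.sum_nonneg fun t _ => abs_nonneg _) (Finset.mem_univ i)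
  have h2 : |(fl F a n i : ℝ)| ≤ |∑ t ∈ F i, a i t * (n : ℝ) ^ t| + 1 := by
    unfold fl
    have e1 := Int.floor_le (∑ t ∈ F i, a i t * (n : ℝ) ^ t)
    have e2 := Int.lt_floor_add_one (∑ t ∈ F i, a i t * (n : ℝ) ^ t)
    rw [abs_le]
    constructor
    · linarith [neg_abs_le (∑ t ∈ F i, a i t * (n : ℝ) ^ t)]
    · linarith [le_abs_self (∑ t ∈ F i, a i t * (n : ℝ) ^ t)]
  have h3 : (1 : ℝ) ≤ (n : ℝ) ^ (⌈T⌉₊ + 1) := one_le_pow₀ hn1
  nlinarith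

/-- values of polynomials at integer parts of generalised polynomials -/
theorem val_bound [Nonempty ι] (F : ι → Finset ℝ) (a : ι → ℝ → ℝ) (U : MvPolynomial ι ℤ) :
    ∃ (C : ℝ) (K : ℕ), 1 ≤ C ∧ 1 ≤ K ∧
      ∀ n : ℕ, 1 ≤ n → |((eval (fl F a n) U : ℤ) : ℝ)| ≤ C * (n : ℝ) ^ K := by
  obtain ⟨C₁, K₁, h1, h2, h3⟩ := fl_bound F a
  obtain ⟨C₂, K₂, h4, h5, h6⟩ := poly_bound U
  refine ⟨C₂ * C₁ ^ K₂, K₁ * K₂, ?_, ?_, fun n hn => ?_⟩
  · have := one_le_pow₀ (n := K₂) h1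
    nlinarith
  · exact Nat.one_le_iff_ne_zero.2 (Nat.mul_ne_zero (by omega) (by omega))
  · have hn1 : (1 : ℝ) ≤ n := by exact_mod_cast hn
    have e1 : 1 ≤ C₁ * (n : ℝ) ^ K₁ := by
      have := one_le_pow₀ (n := K₁) hn1
      nlinarith
    refine (h6 _ _ e1 (h3 n hn)).trans (le_of_eq ?_)
    rw [mul_pow, ← pow_mul]
    ring

end

end Pool.Agent.N495.TS
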