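import Pool.Agent.N495.TS.Mul
import Pool.Agent.Y673.SY.Bx

/-!
Few members of a thin family of elliptic curves with an exceptional prime in a long range above a
constant (helper495).
-/

set_option autoImplicit false
set_option linter.unusedSectionVars false

namespace Pool.Agent.N495.TS

open Finset Filter MvPolynomial Pool.Agent.N666.TM Pool.Agent.Y722.HS
open Pool.Agent.Y673.Loc (jv)
open Pool.Agent.Y673.SL (HasSL)
open Pool.Agent.Y673.SX (ExQ)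

/-- for some curve with invariant `j` and some prime between `L` and `exp (c √(log n))` the image does
not contain all automorphisms of determinant one -/
def BadL (L : ℕ) (c : ℝ) (j : ℚ) (n : ℕ) : Prop :=
  ∃ A B : ℚ, 4 * A ^ 3 + 27 * B ^ 2 ≠ 0 ∧ jv A B = j ∧
    ∃ l : ℕ, l.Prime ∧ L ≤ l ∧ (l : ℝ) ≤ Real.exp (c * Real.sqrt (Real.log n)) ∧ ¬ HasSL A B l

theorem height_le {u v : ℤ} (hv : v ≠ 0) {X : ℝ} (hu : |(u : ℝ)| ≤ X) (hv' : |(v : ℝ)| ≤ X) :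
    |((((u : ℚ) / (v : ℚ)).num : ℤ) : ℝ)| ≤ X ∧ ((((u : ℚ) / (v : ℚ)).den : ℕ) : ℝ) ≤ X := by
  have hj : (u : ℚ) / (v : ℚ) = Rat.divInt u v := by rw [Rat.divInt_eq_div]
  rw [hj]
  constructor
  · by_cases hu0 : u = 0
    · rw [hu0, Rat.zero_divInt]
      simp only [Rat.num_zero, Int.cast_zero, abs_zero]
      exact le_trans (abs_nonneg _) hv'
    · have h1 := Rat.num_dvd u hv
      have h2 : |(Rat.divInt u v).num| ≤ |u| := by
        apply Int.le_of_dvd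
        · positivity
        · rw [abs_dvd_abs]; exact h1
      have h3 : |((Rat.divInt u v).num : ℝ)| ≤ |(u : ℝ)| := by exact_mod_cast h2
      exact h3.trans hu
  · have h1 := Rat.den_dvd u v
    have h2 : ((Rat.divInt u v).den : ℤ) ≤ |v| := by
      apply Int.le_of_dvd
      · positivity
      · rw [dvd_abs]; exact h1
    have h3 : ((Rat.divInt u v).den : ℝ) ≤ |(v : ℝ)| := by exact_mod_cast h2
    exact h3.trans hv'

section
variable {ι : Type} [Fintype ι] [DecidableEq ι]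

theorem null_large {U V : MvPolynomial ι ℤ} (h : Nonprop U V) {κ : ℝ} (hκ : 0 < κ) {C₀ : ℝ} {K : ℕ}
    (hC₀ : 1 ≤ C₀) (hK : 1 ≤ K) :
    ∃ L : ℕ, 5 ≤ L ∧ ∃ c : ℝ, 0 < c ∧ ∀ (S : ℕ → Finset ℕ) (x : ℕ → ι → ℤ),
      (∀ N, S N ⊆ Ioc N (2 * N)) →
      (∃ N₀ : ℕ, ∀ N : ℕ, N₀ ≤ N → ∀ H : ℕ, (H : ℝ) ≤ (N : ℝ) ^ κ → Well (S N) x H) →
      (∀ n : ℕ, 1 ≤ n → |((eval (x n) U : ℤ) : ℝ)| ≤ C₀ * (n : ℝ) ^ K ∧
        |((eval (x n) V : ℤ) : ℝ)| ≤ C₀ * (n : ℝ) ^ K) →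
      NullIn S {n | eval (x n) V ≠ 0 ∧
        BadL L c (((eval (x n) U : ℤ) : ℚ) / ((eval (x n) V : ℤ) : ℚ)) n} := by
  classical
  have hKR : (1 : ℝ) ≤ K := by exact_mod_cast hK
  have hK0 : (0 : ℝ) < K := by linarith
  have hε₀ : 0 < κ / (4 * K) := by positivity
  obtain ⟨C₁, c, hc, h₁⟩ := Pool.Agent.Y673.SY.few_Q2 hε₀
  set L : ℕ := max 5 ⌈20 * K / κ⌉₊ with hL
  have hL5 : 5 ≤ L := le_max_left _ _
  have hLR : 20 * K / κ ≤ (L : ℝ) :=
    (Nat.le_ceil _).trans (Nat.cast_le.2 (le_max_right 5 ⌈20 * (K : ℝ) / κ⌉₊))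
  have hexp : 5 / (L : ℝ) + κ / (4 * K) ≤ κ / (2 * K) := by
    have hL0 : (0 : ℝ) < L := by
      have : (5 : ℝ) ≤ L := by exact_mod_cast hL5
      linarith
    have h5 : 5 / (L : ℝ) ≤ κ / (4 * K) := by
      rw [div_le_div_iff₀ hL0 (by positivity)]
      rw [div_le_iff₀ hκ] at hLR
      linarith
    have e : κ / (4 * K) + κ / (4 * K) = κ / (2 * K) := by
      field_simp
      norm_num
    linarith
  obtain ⟨C₂, hC₂, h₂⟩ := mult h hκ
  refine ⟨L, hL5, c, hc, fun S x hS hw hgr ε hε => ?_⟩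
  obtain ⟨N₂, h₂⟩ := h₂ S x hw
  set M : ℝ := |C₁| * (C₀ ^ (κ / (2 * K)) * 2 ^ (κ / 2)) * C₂ with hM
  have hev : ∀ᶠ N : ℕ in atTop, M * (N : ℝ) ^ (-(κ / 2)) ≤ ε := by
    have h3 : Tendsto (fun N : ℕ => (N : ℝ) ^ (-(κ / 2))) atTop (nhds 0) :=
      (tendsto_rpow_neg_atTop (by positivity)).comp tendsto_natCast_atTop_atTop
    have h4 : Tendsto (fun N : ℕ => M * (N : ℝ) ^ (-(κ / 2))) atTop (nhds (M * 0)) :=
      h3.const_mul M
    rw [mul_zero] at h4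
    exact h4.eventually (ge_mem_nhds hε)
  obtain ⟨N₃, hN₃⟩ := eventually_atTop.mp hev
  refine ⟨max (max N₂ N₃) 1, fun N hN => ?_⟩
  have hN2 : N₂ ≤ N := by omega
  have hN3 : N₃ ≤ N := by omega
  have hN1 : 1 ≤ N := by omega
  have hNR : (1 : ℝ) ≤ N := by exact_mod_cast hN1
  have hN0 : (0 : ℝ) < N := by linarith
  set X : ℝ := C₀ * (2 * (N : ℝ)) ^ K with hX
  have h2N : (1 : ℝ) ≤ 2 * N := by linarith
  have h2NX : 2 * (N : ℝ) ≤ X := by
    have e1 : 2 * (N : ℝ) ≤ (2 * (N : ℝ)) ^ K := le_self_pow₀ h2N (by omega)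
    have e2 : 0 ≤ (2 * (N : ℝ)) ^ K := by positivity
    rw [hX]
    nlinarith
  have hX1 : 1 ≤ X := h2N.trans h2NX
  obtain ⟨hfin, hcard⟩ := h₁ L hL5 X hX1
  set f : ℕ → ℚ := fun n => ((eval (x n) U : ℤ) : ℚ) / ((eval (x n) V : ℤ) : ℚ) with hf
  set B : Finset ℕ := (S N).filter fun n => eval (x n) V ≠ 0 ∧ BadL L c (f n) n with hB
  have hset : {t : ℕ | t ∈ S N ∧ t ∈ {n | eval (x n) V ≠ 0 ∧ BadL L c (f n) n}} = (B : Set ℕ) := by
    ext t
    simp [hB]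
  rw [hset, Set.ncard_coe_finset]
  have hmaps : ∀ n ∈ B, f n ∈ hfin.toFinset := by
    intro n hn
    rw [hB, Finset.mem_filter] at hn
    obtain ⟨hnS, hV, A, B', hD, hj, l, hl, hLl, hlx, hno⟩ := hn
    rw [Set.Finite.mem_toFinset]
    have hn2 := Finset.mem_Ioc.1 (hS N hnS)
    have hn1 : 1 ≤ n := by omega
    have hnR : (n : ℝ) ≤ 2 * N := by exact_mod_cast hn2.2
    have hn1R : (1 : ℝ) ≤ n := by exact_mod_cast hn1
    obtain ⟨g1, g2⟩ := hgr n hn1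
    have g3 : C₀ * (n : ℝ) ^ K ≤ X := by
      rw [hX]
      gcongr
    obtain ⟨e1, e2⟩ := height_le hV (g1.trans g3) (g2.trans g3)
    refine ⟨e1, e2, A, B', hD, hj, l, hl, hLl, hlx.trans ?_, hno⟩
    apply Real.exp_le_exp.2
    apply mul_le_mul_of_nonneg_left _ hc.le
    apply Real.sqrt_le_sqrt
    exact Real.log_le_log (by linarith) (hnR.trans h2NX)
  have hfib := Finset.card_eq_sum_card_fiberwise hmaps
  have hbd : ∀ j ∈ hfin.toFinset, (((B.filter fun n => f n = j).card : ℕ) : ℝ) ≤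
      C₂ * (N : ℝ) ^ (-κ) * (S N).card := by
    intro j _
    refine le_trans ?_ (h₂ N hN2 j)
    refine Nat.cast_le.2 (Finset.card_le_card fun n hn => ?_)
    rw [Finset.mem_filter, hB, Finset.mem_filter] at hn
    rw [Finset.mem_filter]
    exact ⟨hn.1.1, hn.1.2.1, hn.2⟩
  have h3 : (B.card : ℝ) ≤ (ExQ L c X).ncard * (C₂ * (N : ℝ) ^ (-κ) * (S N).card) := by
    rw [hfib]
    push_cast
    refine (Finset.sum_le_sum hbd).trans (le_of_eq ?_)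
    rw [Finset.sum_const, nsmul_eq_mul]
    congr 2
    rw [Set.ncard_eq_toFinset_card _ hfin]
  have hXκ : X ^ (5 / (L : ℝ) + κ / (4 * K)) ≤ (C₀ ^ (κ / (2 * K)) * 2 ^ (κ / 2)) * (N : ℝ) ^ (κ / 2) := by
    calc X ^ (5 / (L : ℝ) + κ / (4 * K)) ≤ X ^ (κ / (2 * K)) :=
          Real.rpow_le_rpow_of_exponent_le hX1 hexp
      _ = C₀ ^ (κ / (2 * K)) * ((2 * (N : ℝ)) ^ K) ^ (κ / (2 * K)) := by
          rw [hX, Real.mul_rpow (by linarith) (by positivity)]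
      _ = C₀ ^ (κ / (2 * K)) * (2 * (N : ℝ)) ^ (κ / 2) := by
          congr 1
          rw [← Real.rpow_natCast, ← Real.rpow_mul (by linarith)]
          congr 1
          field_simp
      _ = _ := by rw [Real.mul_rpow (by norm_num) hN0.le, mul_assoc]
  have hS0 : (0 : ℝ) ≤ (S N).card := Nat.cast_nonneg _
  have hNκ : 0 < (N : ℝ) ^ (-κ) := Real.rpow_pos_of_pos hN0 _
  have h4 : ((ExQ L c X).ncard : ℝ) ≤ |C₁| * ((C₀ ^ (κ / (2 * K)) * 2 ^ (κ / 2)) * (N : ℝ) ^ (κ / 2)) := by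
    refine hcard.trans ?_
    have e1 : 0 ≤ X ^ (5 / (L : ℝ) + κ / (4 * K)) := Real.rpow_nonneg (by linarith) _
    calc C₁ * X ^ (5 / (L : ℝ) + κ / (4 * K)) ≤ |C₁| * X ^ (5 / (L : ℝ) + κ / (4 * K)) :=
          mul_le_mul_of_nonneg_right (le_abs_self _) e1
      _ ≤ _ := mul_le_mul_of_nonneg_left hXκ (abs_nonneg _)
  calc (B.card : ℝ) ≤ (ExQ L c X).ncard * (C₂ * (N : ℝ) ^ (-κ) * (S N).card) := h3
    _ ≤ (|C₁| * ((C₀ ^ (κ / (2 * K)) * 2 ^ (κ / 2)) * (N : ℝ) ^ (κ / 2))) *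
        (C₂ * (N : ℝ) ^ (-κ) * (S N).card) := mul_le_mul_of_nonneg_right h4 (by positivity)
    _ = (M * ((N : ℝ) ^ (κ / 2) * (N : ℝ) ^ (-κ))) * (S N).card := by
        rw [hM]
        ring
    _ = (M * (N : ℝ) ^ (-(κ / 2))) * (S N).card := by
        rw [← Real.rpow_add hN0]
        congr 3
        ring
    _ ≤ ε * (S N).card := mul_le_mul_of_nonneg_right (hN₃ N hN3) hS0

end

end Pool.Agent.N495.TS
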