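import Pool.Agent.N495.TS.Small
import Pool.Agent.N495.TS.Large
import Pool.Agent.N495.TS.Grow

/-!
All primes from `5` to `exp (κ √(log n))` at once for almost all members of thin families of elliptic
curves, with one set of exceptions for all families (helper495).
-/

set_option autoImplicit false
set_option linter.unusedSectionVars false

namespace Pool.Agent.N495.TS

open Finset Filter MvPolynomial Pool.Agent.N666.TM Pool.Agent.Y722.HS Pool.Agent.N603.TH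
open Pool.Agent.Y673.Loc (jv)
open Pool.Agent.Y673.SL (HasSL)
open Pool.Agent.N666.VE (primes)

/-- all elliptic curves over `ℚ` with invariant `U / V` at `v` have large image for all the primes
between `5` and `exp (κ √(log n))` -/
def Good {ι : Type} (U V : MvPolynomial ι ℤ) (κ : ℝ) (v : ι → ℤ) (n : ℕ) : Prop :=
  eval v V ≠ 0 ∧ ∀ A B : ℚ, 4 * A ^ 3 + 27 * B ^ 2 ≠ 0 →
    jv A B = ((eval v U : ℤ) : ℚ) / ((eval v V : ℤ) : ℚ) →
      ∀ l : ℕ, l.Prime → 5 ≤ l → (l : ℝ) ≤ Real.exp (κ * Real.sqrt (Real.log n)) → HasSL A B l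

theorem single {ι : Type} [Fintype ι] [DecidableEq ι] [Nonempty ι] {F : ι → Finset ℝ}
    {a : ι → ℝ → ℝ} {c : ι → ℝ}
    (h : ∀ i, c i ∈ F i ∧ (∀ t ∈ F i, t ≤ c i) ∧ 0 < c i ∧ (∀ m : ℕ, c i ≠ m) ∧ 0 < a i (c i))
    (hc : Function.Injective c) {U V : MvPolynomial ι ℤ} (hR : Rich U V) :
    ∃ κ : ℝ, 0 < κ ∧ NullIn (fun N => Ioc N (2 * N)) {n | ¬ Good U V κ (fl F a n) n} ∧
      NullIn primes {n | ¬ Good U V κ (fl F a n) n} := by
  classical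
  obtain ⟨⟨κ₁, hκ₁, N₁, h₁⟩, κ₂, hκ₂, N₂, h₂⟩ := fl_well h hc
  set κ := min κ₁ κ₂ with hκdef
  have hκ : 0 < κ := lt_min hκ₁ hκ₂
  have hw₁ : ∃ N₀ : ℕ, ∀ N : ℕ, N₀ ≤ N → ∀ H : ℕ, (H : ℝ) ≤ (N : ℝ) ^ κ →
      Well (Ioc N (2 * N)) (fl F a) H := by
    refine ⟨N₁ + 1, fun N hN H hH => h₁ N (by omega) H (hH.trans ?_)⟩
    exact Real.rpow_le_rpow_of_exponent_le (by exact_mod_cast (by omega : 1 ≤ N)) (min_le_left _ _)
  have hw₂ : ∃ N₀ : ℕ, ∀ N : ℕ, N₀ ≤ N → ∀ H : ℕ, (H : ℝ) ≤ (N : ℝ) ^ κ →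
      Well (primes N) (fl F a) H := by
    refine ⟨N₂ + 1, fun N hN H hH => h₂ N (by omega) H (hH.trans ?_)⟩
    exact Real.rpow_le_rpow_of_exponent_le (by exact_mod_cast (by omega : 1 ≤ N)) (min_le_right _ _)
  obtain ⟨C₁, K₁, hC₁, hK₁, hb₁⟩ := val_bound F a U
  obtain ⟨C₂, K₂, hC₂, hK₂, hb₂⟩ := val_bound F a V
  have hb : ∀ n : ℕ, 1 ≤ n → |((eval (fl F a n) U : ℤ) : ℝ)| ≤ (C₁ + C₂) * (n : ℝ) ^ (K₁ + K₂) ∧
      |((eval (fl F a n) V : ℤ) : ℝ)| ≤ (C₁ + C₂) * (n : ℝ) ^ (K₁ + K₂) := by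
    intro n hn
    have hn1 : (1 : ℝ) ≤ n := by exact_mod_cast hn
    have e1 : (n : ℝ) ^ K₁ ≤ (n : ℝ) ^ (K₁ + K₂) := pow_le_pow_right₀ hn1 (by omega)
    have e2 : (n : ℝ) ^ K₂ ≤ (n : ℝ) ^ (K₁ + K₂) := pow_le_pow_right₀ hn1 (by omega)
    have e3 : 0 ≤ (n : ℝ) ^ (K₁ + K₂) := by positivity
    constructor
    · refine (hb₁ n hn).trans ?_
      nlinarith
    · refine (hb₂ n hn).trans ?_
      nlinarith
  obtain ⟨L, hL, κ', hκ', hlarge⟩ := null_large hR.nonprop hκ (C₀ := C₁ + C₂) (K := K₁ + K₂)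
    (by linarith) (by omega)
  have main : ∀ S : ℕ → Finset ℕ, (∀ N, S N ⊆ Ioc N (2 * N)) →
      (∃ N₀ : ℕ, ∀ N : ℕ, N₀ ≤ N → ∀ H : ℕ, (H : ℝ) ≤ (N : ℝ) ^ κ → Well (S N) (fl F a) H) →
      NullIn S {n | ¬ Good U V κ' (fl F a n) n} := by
    intro S hS hw
    have n1 := hlarge S (fl F a) hS hw hb
    have n2 := null_biUnion (S := S) ((Finset.range L).filter fun l => l.Prime ∧ 5 ≤ l)
      (fun l => {n | ¬ (eval (fl F a n) V ≠ 0 ∧ ∀ A B : ℚ, 4 * A ^ 3 + 27 * B ^ 2 ≠ 0 →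
        jv A B = ((eval (fl F a n) U : ℤ) : ℚ) / ((eval (fl F a n) V : ℤ) : ℚ) → HasSL A B l)}) (by
      intro l hl
      rw [Finset.mem_filter] at hl
      exact null_small hR hκ hw hl.2.1 hl.2.2)
    have n3 := null_zero hκ hw (hR.nonprop.ne 1 0 (Or.inl one_ne_zero))
    refine null_mono (null_union n1 (null_union n2 n3)) ?_
    intro n hn
    by_contra hcon
    apply hn
    simp only [Set.mem_union, Set.mem_ofPred_eq, not_or, Set.mem_iUnion, not_exists, map_sub, map_mul,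
      eval_C, Finset.mem_filter, Finset.mem_range, not_not] at hcon
    obtain ⟨c1, c2, c3⟩ := hcon
    have hV : eval (fl F a n) V ≠ 0 := by
      intro h0
      apply c3
      rw [h0]
      ring
    refine ⟨hV, fun A B hD hj l hl h5 hlx => ?_⟩
    by_cases hlL : l < L
    · exact (c2 l ⟨hlL, hl, h5⟩).2 A B hD hj
    · by_contra hno
      exact c1 ⟨hV, A, B, hD, hj, l, hl, not_lt.1 hlL, hlx, hno⟩
  exact ⟨κ', hκ', main _ (fun N => Finset.Subset.refl _) hw₁,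
    main _ (fun N => Finset.filter_subset _ _) hw₂⟩

/-- one null set for all families -/
theorem one_null {F : ℕ → Finset ℝ} {a : ℕ → ℝ → ℝ} {c : ℕ → ℝ}
    (h : ∀ i, c i ∈ F i ∧ (∀ t ∈ F i, t ≤ c i) ∧ 0 < c i ∧ (∀ m : ℕ, c i ≠ m) ∧ 0 < a i (c i))
    (hc : Function.Injective c) :
    ∃ E : Set ℕ, NullIn (fun N => Ioc N (2 * N)) E ∧ NullIn primes E ∧
      ∀ (s : ℕ) (m : Fin (s + 1) → ℕ) (U V : MvPolynomial (Fin (s + 1)) ℤ), Function.Injective m →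
        Rich U V → ∃ κ : ℝ, 0 < κ ∧
          {n : ℕ | n ∉ E ∧ ¬ Good U V κ (fl (fun i => F (m i)) (fun i => a (m i)) n) n}.Finite := by
  classical
  let α := Σ s : ℕ, {x : (Fin (s + 1) → ℕ) × MvPolynomial (Fin (s + 1)) ℤ ×
    MvPolynomial (Fin (s + 1)) ℤ // Function.Injective x.1 ∧ Rich x.2.1 x.2.2}
  have hα : ∀ x : α, ∃ κ : ℝ, 0 < κ ∧
      NullIn (fun N => Ioc N (2 * N)) {n | ¬ Good x.2.1.2.1 x.2.1.2.2 κ
        (fl (fun i => F (x.2.1.1 i)) (fun i => a (x.2.1.1 i)) n) n} ∧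
      NullIn primes {n | ¬ Good x.2.1.2.1 x.2.1.2.2 κ
        (fl (fun i => F (x.2.1.1 i)) (fun i => a (x.2.1.1 i)) n) n} := by
    rintro ⟨s, ⟨m, U, V⟩, hm, hR⟩
    exact single (F := fun i => F (m i)) (a := fun i => a (m i)) (c := fun i => c (m i))
      (fun i => h (m i)) (hc.comp hm) hR
  choose κ hκ h1 h2 using hα
  obtain ⟨E, e1, e2, e3⟩ := null_countable (α := α) (S₁ := fun N => Ioc N (2 * N)) (S₂ := primes)
    (fun N => Finset.Subset.refl _) (fun N => Finset.filter_subset _ _) _ h1 h2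
  refine ⟨E, e1, e2, fun s m U V hm hR => ⟨κ ⟨s, ⟨m, U, V⟩, hm, hR⟩, hκ _,
    (e3 ⟨s, ⟨m, U, V⟩, hm, hR⟩).subset ?_⟩⟩
  rintro t ⟨ht, ht'⟩
  exact ⟨ht', ht⟩

end Pool.Agent.N495.TS
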