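import Pool.Agent.Y673.Loc.Glue

/-!
# Statement of a part (helper495): stable subgroups of order two and three
-/

set_option autoImplicit false

namespace Pool.Agent.N495.TS

open Pool.Agent.Y673.Loc

open scoped Classical in
/-- a stable subgroup of order `2` or `3` of `y² = x³ + Ax + B` comes from a rational root of
`x³ + Ax + B` or of the polynomial of the points of order three -/
def S_LINE23 : Prop :=
  ∀ A B : ℚ, 4 * A ^ 3 + 27 * B ^ 2 ≠ 0 → ∀ v : EP A B, v ≠ 0 →
    (∀ σ : AlgebraicClosure ℚ ≃ₐ[ℚ] AlgebraicClosure ℚ,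
      act A B σ v ∈ AddSubgroup.zmultiples v) →
    (2 • v = 0 → ∃ x : ℚ, x ^ 3 + A * x + B = 0) ∧
    (3 • v = 0 → ∃ x : ℚ, 3 * x ^ 4 + 6 * A * x ^ 2 + 12 * B * x - A ^ 2 = 0)

end Pool.Agent.N495.TS
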