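import Mathlib

/-!
# Statements of parts (helper495): torsion of quotients of products; polynomials without root
-/

set_option autoImplicit false

namespace Pool.Agent.N495.TS

/-- A quotient of a product of groups `V i` with operators, whose `q`-torsion is spanned by two elements
and contains no stable line, by a finite stable subgroup `Γ`: if a class which is invariant under the
operators in `H` has a finite order divisible by `q`, then some `V i` has a nonzero element of the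
`q`-torsion which is invariant under `H`. -/
def S_TORS : Prop :=
  ∀ (G : Type) (g : ℕ) (V : Fin g → Type) [∀ i, AddCommGroup (V i)]
    (act : ∀ i, G → V i →+ V i) (q : ℕ), q.Prime →
    (∀ i, ∃ P Q : V i, q • P = 0 ∧ q • Q = 0 ∧
      ∀ R : V i, q • R = 0 → ∃ m n : ℤ, R = m • P + n • Q) →
    (∀ i, ∀ v : V i, q • v = 0 → v ≠ 0 → ∃ σ : G, act i σ v ∉ AddSubgroup.zmultiples v) →
    ∀ (Γ : AddSubgroup (∀ i, V i)), (Γ : Set (∀ i, V i)).Finite →
    (∀ σ : G, ∀ x ∈ Γ, (fun i => act i σ (x i)) ∈ Γ) →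
    ∀ (H : Set G) (x : ∀ i, V i), (∀ σ ∈ H, (fun i => act i σ (x i) - x i) ∈ Γ) →
    IsOfFinAddOrder (x : (∀ i, V i) ⧸ Γ) → q ∣ addOrderOf (x : (∀ i, V i) ⧸ Γ) →
    ∃ i, ∃ z : V i, q • z = 0 ∧ z ≠ 0 ∧ ∀ σ ∈ H, act i σ z = z

/-- A monic polynomial over `ℤ[t]` without root in `ℚ(t)` is a product of monic irreducible ones of
degree at least two. -/
def S_FAC : Prop :=
  ∀ F : Polynomial (Polynomial ℤ), F.Monic →
    (∀ r : Polynomial ℤ, F.eval r ≠ 0) →
    ∃ L : List (Polynomial (Polynomial ℤ)), L.prod = F ∧ ∀ G ∈ L, G.Monic ∧ 2 ≤ G.natDegree ∧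
      Irreducible (G.map (algebraMap (Polynomial ℤ) (FractionRing (Polynomial ℤ))))

open Polynomial in
/-- `P₂ = Y³ + aY + b` and `P₃ = Y⁴ + 18aY² + 108bY - 27a²`, `a = -3t(t - 1728)`,
`b = -2t(t - 1728)²`, have no root in `ℤ[t]` -/
def S_NR : Prop :=
  (∀ r : ℤ[X], r ^ 3 + (-3 * X * (X - 1728)) * r + (-2 * X * (X - 1728) ^ 2) ≠ 0) ∧
  (∀ r : ℤ[X], r ^ 4 + 18 * (-3 * X * (X - 1728)) * r ^ 2 + 108 * (-2 * X * (X - 1728) ^ 2) * r
    - 27 * (-3 * X * (X - 1728)) ^ 2 ≠ 0)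

end Pool.Agent.N495.TS
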