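import Pool.Agent.N495.TS.Small
import Pool.Agent.N495.TS.StmT
import Pool.Agent.N495.TS.Stm3

/-!
No stable subgroup of order two or three for almost all members of a thin family of elliptic curves
(helper495).
-/

set_option autoImplicit false
set_option linter.unusedSectionVars false

namespace Pool.Agent.N495.TS

open Finset Filter MvPolynomial Pool.Agent.N666.TM Pool.Agent.Y722.HS Pool.Agent.N603.TH
open Pool.Agent.Y673.Loc
open Pool.Agent.Y673.PP (E2 E2_X E2_C)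

open scoped Classical in
/-- no subgroup of order `q` is stable -/
def NoLine (A B : ℚ) (q : ℕ) : Prop := ∀ v : EP A B, q • v = 0 → v ≠ 0 →
  ∃ σ : AlgebraicClosure ℚ ≃ₐ[ℚ] AlgebraicClosure ℚ, act A B σ v ∉ AddSubgroup.zmultiples v

/-- the coefficient `-3t(t - 1728)` -/
noncomputable def al : Polynomial ℤ := -3 * Polynomial.X * (Polynomial.X - 1728)

/-- the coefficient `-2t(t - 1728)²` -/
noncomputable def be : Polynomial ℤ := -2 * Polynomial.X * (Polynomial.X - 1728) ^ 2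

noncomputable def P2 : Polynomial (Polynomial ℤ) :=
  Polynomial.X ^ 3 + (Polynomial.C al * Polynomial.X + Polynomial.C be)

noncomputable def P3 : Polynomial (Polynomial ℤ) :=
  Polynomial.X ^ 4 + (Polynomial.C (18 * al) * Polynomial.X ^ 2 +
    Polynomial.C (108 * be) * Polynomial.X + Polynomial.C (-27 * al ^ 2))

theorem P2_monic : P2.Monic := by
  unfold P2
  refine Polynomial.monic_X_pow_add ?_
  refine lt_of_le_of_lt (Polynomial.degree_linear_le) ?_
  norm_num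

theorem P3_monic : P3.Monic := by
  unfold P3
  refine Polynomial.monic_X_pow_add ?_
  refine lt_of_le_of_lt (Polynomial.degree_quadratic_le) ?_
  norm_num

theorem E2_P2 (j y : ℚ) : E2 j y P2 =
    y ^ 3 + (-3 * j * (j - 1728)) * y + (-2 * j * (j - 1728) ^ 2) := by
  unfold P2 al be
  simp only [map_add, map_mul, map_pow, E2_X, E2_C, Polynomial.eval₂_mul, Polynomial.eval₂_neg,
    Polynomial.eval₂_ofNat, Polynomial.eval₂_X, Polynomial.eval₂_sub, Polynomial.eval₂_pow]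
  ring

theorem E2_P3 (j y : ℚ) : E2 j y P3 =
    y ^ 4 + 18 * (-3 * j * (j - 1728)) * y ^ 2 + 108 * (-2 * j * (j - 1728) ^ 2) * y -
      27 * (-3 * j * (j - 1728)) ^ 2 := by
  unfold P3 al be
  simp only [map_add, map_mul, map_pow, E2_X, E2_C, Polynomial.eval₂_mul, Polynomial.eval₂_neg,
    Polynomial.eval₂_ofNat, Polynomial.eval₂_X, Polynomial.eval₂_sub, Polynomial.eval₂_pow]
  ring

theorem P2_nr (hNR : S_NR) (r : Polynomial ℤ) : P2.eval r ≠ 0 := by
  have h := hNR.1 r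
  unfold P2 al be
  simp only [Polynomial.eval_add, Polynomial.eval_mul, Polynomial.eval_pow, Polynomial.eval_X,
    Polynomial.eval_C]
  rw [← add_assoc]
  exact h

theorem P3_nr (hNR : S_NR) (r : Polynomial ℤ) : P3.eval r ≠ 0 := by
  have h := hNR.2 r
  unfold P3 al be
  simp only [Polynomial.eval_add, Polynomial.eval_mul, Polynomial.eval_pow, Polynomial.eval_X,
    Polynomial.eval_C]
  intro h0
  apply h
  linear_combination h0

section
variable {ι : Type} [Fintype ι] [DecidableEq ι]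

/-- the local criterion for polynomials without roots -/
theorem null_root' (hFAC : S_FAC) {U V : MvPolynomial ι ℤ} (h : Rich U V) {S : ℕ → Finset ℕ}
    {x : ℕ → ι → ℤ} {κ : ℝ} (hκ : 0 < κ)
    (hw : ∃ N₀ : ℕ, ∀ N : ℕ, N₀ ≤ N → ∀ H : ℕ, (H : ℝ) ≤ (N : ℝ) ^ κ → Well (S N) x H)
    (F : Polynomial (Polynomial ℤ)) (hF : F.Monic) (hr : ∀ r : Polynomial ℤ, F.eval r ≠ 0) :
    NullIn S {n | eval (x n) V ≠ 0 ∧
      ∃ y : ℚ, E2 (((eval (x n) U : ℤ) : ℚ) / ((eval (x n) V : ℤ) : ℚ)) y F = 0} := by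
  classical
  obtain ⟨L, hL, hLi⟩ := hFAC F hF hr
  have z := null_biUnion (S := S) L.toFinset (fun G => {n | ¬ (eval (x n) V ≠ 0 ∧
      ∀ y : ℚ, E2 (((eval (x n) U : ℤ) : ℚ) / ((eval (x n) V : ℤ) : ℚ)) y G ≠ 0)}) (by
    intro G hG
    obtain ⟨g1, g2, g3⟩ := hLi G (List.mem_toFinset.1 hG)
    exact null_root h hκ hw G g1 g2 g3)
  refine null_mono z ?_
  rintro n ⟨hV, y, hy⟩
  rw [← hL, map_list_prod, List.prod_eq_zero_iff, List.mem_map] at hy
  obtain ⟨G, hG, hG0⟩ := hy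
  simp only [Set.mem_iUnion]
  refine ⟨G, List.mem_toFinset.2 hG, fun hcon => ?_⟩
  exact hcon.2 y hG0

theorem null_irr (hFAC : S_FAC) (hNR : S_NR) (hL : S_LINE23) {U V : MvPolynomial ι ℤ} (h : Rich U V)
    {S : ℕ → Finset ℕ} {x : ℕ → ι → ℤ} {κ : ℝ} (hκ : 0 < κ)
    (hw : ∃ N₀ : ℕ, ∀ N : ℕ, N₀ ≤ N → ∀ H : ℕ, (H : ℝ) ≤ (N : ℝ) ^ κ → Well (S N) x H) :
    NullIn S {n | ¬ (eval (x n) V ≠ 0 ∧ ∀ A B : ℚ, 4 * A ^ 3 + 27 * B ^ 2 ≠ 0 →
      jv A B = ((eval (x n) U : ℤ) : ℚ) / ((eval (x n) V : ℤ) : ℚ) →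
        NoLine A B 2 ∧ NoLine A B 3)} := by
  classical
  have hnp := h.nonprop
  have z1 := null_zero hκ hw (hnp.ne 1 0 (Or.inl one_ne_zero))
  have z2 := null_zero hκ hw (hnp.ne 0 1 (Or.inr one_ne_zero))
  have z3 := null_zero hκ hw (hnp.ne 1728 1 (Or.inr one_ne_zero))
  have z4 := null_root' hFAC h hκ hw P2 P2_monic (P2_nr hNR)
  have z5 := null_root' hFAC h hκ hw P3 P3_monic (P3_nr hNR)
  refine null_mono (null_union (null_union z1 z2) (null_union z3 (null_union z4 z5))) ?_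
  intro n hn
  by_contra hcon
  apply hn
  simp only [Set.mem_union, Set.mem_ofPred_eq, not_or, map_sub, map_mul, eval_C, not_and,
    not_exists] at hcon
  obtain ⟨⟨c1, c2⟩, c3, c4, c5⟩ := hcon
  have hV : eval (x n) V ≠ 0 := by
    intro h0
    apply c1
    rw [h0]
    ring
  have hU : eval (x n) U ≠ 0 := by
    intro h0
    apply c2
    rw [h0]
    ring
  have c4 := c4 hV
  have c5 := c5 hV
  have hVq : ((eval (x n) V : ℤ) : ℚ) ≠ 0 := by exact_mod_cast hV
  obtain ⟨j, hj⟩ : ∃ j, j = ((eval (x n) U : ℤ) : ℚ) / ((eval (x n) V : ℤ) : ℚ) := ⟨_, rfl⟩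
  have hj0 : j ≠ 0 := by
    rw [hj]
    exact div_ne_zero (by exact_mod_cast hU) hVq
  have hj1 : j ≠ 1728 := by
    intro h1
    rw [hj, div_eq_iff hVq] at h1
    apply c3
    have h2 : eval (x n) U = 1728 * eval (x n) V := by exact_mod_cast h1
    rw [h2]
    ring
  rw [← hj] at c4 c5 ⊢
  refine ⟨hV, fun A B hD hjA => ?_⟩
  obtain ⟨r, hr0, hr1, hr2⟩ := Pool.Agent.Y673.SN.twist_of hD hjA hj0 hj1
  constructor
  · intro v hv hv0
    by_contra hno
    push Not at hno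
    obtain ⟨y, hy⟩ := (hL A B hD v hv0 hno).1 hv
    apply c4 (r * y)
    rw [E2_P2, hr1, hr2]
    linear_combination r ^ 3 * hy
  · intro v hv hv0
    by_contra hno
    push Not at hno
    obtain ⟨y, hy⟩ := (hL A B hD v hv0 hno).2 hv
    apply c5 (3 * r * y)
    rw [E2_P3, hr1, hr2]
    linear_combination 27 * r ^ 4 * hy

end

end Pool.Agent.N495.TS
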