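import Pool.Agent.N495.TS.Big
import Pool.Agent.N495.TS.I23

/-!
One null set for all thin families of elliptic curves: all primes (helper495).
-/

set_option autoImplicit false

namespace Pool.Agent.N495.TS

open Finset Filter MvPolynomial Pool.Agent.N666.TM Pool.Agent.Y722.HS Pool.Agent.N603.TH
open Pool.Agent.Y673.Loc (jv)
open Pool.Agent.Y673.SL (HasSL)
open Pool.Agent.N666.VE (primes)

/-- all curves with the invariant `U(v) / V(v)` have large images for all primes from five on, and no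
stable subgroup of order two or three -/
def Gall {ι : Type} (U V : MvPolynomial ι ℤ) (v : ι → ℤ) : Prop :=
  eval v V ≠ 0 ∧ ∀ A B : ℚ, 4 * A ^ 3 + 27 * B ^ 2 ≠ 0 →
    jv A B = ((eval v U : ℤ) : ℚ) / ((eval v V : ℤ) : ℚ) →
      (∀ l : ℕ, l.Prime → 5 ≤ l → HasSL A B l) ∧ NoLine A B 2 ∧ NoLine A B 3

/-- the invariant is bounded along the sequence -/
def Bdd {ι : Type} (U V : MvPolynomial ι ℤ) (x : ℕ → ι → ℤ) : Prop :=
  ∃ (M : ℝ) (n₁ : ℕ), ∀ n : ℕ, n₁ ≤ n →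
    |((eval (x n) U : ℤ) : ℝ)| ≤ M * |((eval (x n) V : ℤ) : ℝ)|

theorem single2 (hDENS : S_DENS) (hFAC : S_FAC) (hNR : S_NR) (hL : S_LINE23)
    {ι : Type} [Fintype ι] [DecidableEq ι] [Nonempty ι] {F : ι → Finset ℝ}
    {a : ι → ℝ → ℝ} {c : ι → ℝ}
    (h : ∀ i, c i ∈ F i ∧ (∀ t ∈ F i, t ≤ c i) ∧ 0 < c i ∧ (∀ m : ℕ, c i ≠ m) ∧ 0 < a i (c i))
    (hc : Function.Injective c) {U V : MvPolynomial ι ℤ} (hR : Rich U V)
    (hb : Bdd U V (fl F a)) :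
    NullIn (fun N => Ioc N (2 * N)) {n | ¬ Gall U V (fl F a n)} ∧
      NullIn primes {n | ¬ Gall U V (fl F a n)} := by
  classical
  obtain ⟨κ₀, hκ₀, g1, g2⟩ := single h hc hR
  obtain ⟨M, n₁, hM⟩ := hb
  obtain ⟨⟨κ₁, hκ₁, N₁, h₁⟩, κ₂, hκ₂, N₂, h₂⟩ := fl_well h hc
  set κ := min κ₁ κ₂ with hκdef
  have hκ : 0 < κ := lt_min hκ₁ hκ₂
  have hw₁ : ∃ N₀ : ℕ, ∀ N : ℕ, N₀ ≤ N → ∀ H : ℕ, (H : ℝ) ≤ (N : ℝ) ^ κ →
      Well (Ioc N (2 * N)) (fl F a) H := by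
    refine ⟨N₁ + 1, fun N hN H hH => h₁ N (by omega) H (hH.trans ?_)⟩
    exact Real.rpow_le_rpow_of_exponent_le (by exact_mod_cast (by omega : 1 ≤ N)) (min_le_left _ _)
  have hw₂ : ∃ N₀ : ℕ, ∀ N : ℕ, N₀ ≤ N → ∀ H : ℕ, (H : ℝ) ≤ (N : ℝ) ^ κ →
      Well (primes N) (fl F a) H := by
    refine ⟨N₂ + 1, fun N hN H hH => h₂ N (by omega) H (hH.trans ?_)⟩
    exact Real.rpow_le_rpow_of_exponent_le (by exact_mod_cast (by omega : 1 ≤ N)) (min_le_right _ _)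
  obtain ⟨C₁, K₁, hC₁, hK₁, hb₁⟩ := val_bound F a U
  obtain ⟨C₂, K₂, hC₂, hK₂, hb₂⟩ := val_bound F a V
  have hb : ∀ n : ℕ, 1 ≤ n → |((eval (fl F a n) U : ℤ) : ℝ)| ≤ (C₁ + C₂) * (n : ℝ) ^ (K₁ + K₂) ∧
      |((eval (fl F a n) V : ℤ) : ℝ)| ≤ (C₁ + C₂) * (n : ℝ) ^ (K₁ + K₂) := by
    intro n hn
    have hn1 : (1 : ℝ) ≤ n := by exact_mod_cast hn
    have e1 : (n : ℝ) ^ K₁ ≤ (n : ℝ) ^ (K₁ + K₂) := pow_le_pow_right₀ hn1 (by omega)
    have e2 : (n : ℝ) ^ K₂ ≤ (n : ℝ) ^ (K₁ + K₂) := pow_le_pow_right₀ hn1 (by omega)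
    have e3 : 0 ≤ (n : ℝ) ^ (K₁ + K₂) := by positivity
    constructor
    · refine (hb₁ n hn).trans ?_
      nlinarith
    · refine (hb₂ n hn).trans ?_
      nlinarith
  have hM' : ∀ n : ℕ, n₁ ≤ n → |((eval (fl F a n) U : ℤ) : ℝ)| ≤
      (max M 1) * |((eval (fl F a n) V : ℤ) : ℝ)| := by
    intro n hn
    refine (hM n hn).trans ?_
    exact mul_le_mul_of_nonneg_right (le_max_left _ _) (abs_nonneg _)
  have main : ∀ S : ℕ → Finset ℕ, (∀ N, S N ⊆ Ioc N (2 * N)) →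
      (∃ N₀ : ℕ, ∀ N : ℕ, N₀ ≤ N → ∀ H : ℕ, (H : ℝ) ≤ (N : ℝ) ^ κ → Well (S N) (fl F a) H) →
      NullIn S {n | ¬ Good U V κ₀ (fl F a n) n} →
      NullIn S {n | ¬ Gall U V (fl F a n)} := by
    intro S hS hw hg
    have n1 := null_big hDENS hR.nonprop hκ (C₀ := C₁ + C₂) (K := K₁ + K₂) (by linarith) hκ₀
      S (fl F a) hS hw hb (le_max_right M 1) hM'
    have n2 := null_irr hFAC hNR hL hR hκ hw
    refine null_mono (null_union hg (null_union n1 n2)) ?_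
    intro n hn
    by_contra hcon
    apply hn
    simp only [Set.mem_union, Set.mem_ofPred_eq, not_or, not_not] at hcon
    obtain ⟨c1, c2, c3⟩ := hcon
    refine ⟨c1.1, fun A B hD hj => ⟨fun l hl h5 => ?_, c3.2 A B hD hj⟩⟩
    rcases le_or_gt (l : ℝ) (Real.exp (κ₀ * Real.sqrt (Real.log n))) with hle | hlt
    · exact c1.2 A B hD hj l hl h5 hle
    · exact c2.2 A B hD hj l hl h5 hlt
  exact ⟨main _ (fun N => Finset.Subset.refl _) hw₁ g1,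
    main _ (fun N => Finset.filter_subset _ _) hw₂ g2⟩

/-- one null set for all families -/
theorem one_null2 (hDENS : S_DENS) (hFAC : S_FAC) (hNR : S_NR) (hL : S_LINE23)
    {F : ℕ → Finset ℝ} {a : ℕ → ℝ → ℝ} {c : ℕ → ℝ}
    (h : ∀ i, c i ∈ F i ∧ (∀ t ∈ F i, t ≤ c i) ∧ 0 < c i ∧ (∀ m : ℕ, c i ≠ m) ∧ 0 < a i (c i))
    (hc : Function.Injective c) :
    ∃ E : Set ℕ, NullIn (fun N => Ioc N (2 * N)) E ∧ NullIn primes E ∧
      ∀ (s : ℕ) (m : Fin (s + 1) → ℕ) (U V : MvPolynomial (Fin (s + 1)) ℤ), Function.Injective m →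
        Rich U V →
        (∃ κ : ℝ, 0 < κ ∧
          {n : ℕ | n ∉ E ∧ ¬ Good U V κ (fl (fun i => F (m i)) (fun i => a (m i)) n) n}.Finite) ∧
        (Bdd U V (fl (fun i => F (m i)) (fun i => a (m i))) →
          {n : ℕ | n ∉ E ∧ ¬ Gall U V (fl (fun i => F (m i)) (fun i => a (m i)) n)}.Finite) := by
  classical
  obtain ⟨E₀, e1, e2, e3⟩ := one_null h hc
  let α := Σ s : ℕ, {x : (Fin (s + 1) → ℕ) × MvPolynomial (Fin (s + 1)) ℤ ×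
    MvPolynomial (Fin (s + 1)) ℤ // Function.Injective x.1 ∧ Rich x.2.1 x.2.2 ∧
      Bdd x.2.1 x.2.2 (fl (fun i => F (x.1 i)) (fun i => a (x.1 i)))}
  have hα : ∀ x : α, 
      NullIn (fun N => Ioc N (2 * N)) {n | ¬ Gall x.2.1.2.1 x.2.1.2.2
        (fl (fun i => F (x.2.1.1 i)) (fun i => a (x.2.1.1 i)) n)} ∧
      NullIn primes {n | ¬ Gall x.2.1.2.1 x.2.1.2.2
        (fl (fun i => F (x.2.1.1 i)) (fun i => a (x.2.1.1 i)) n)} := by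
    rintro ⟨s, ⟨m, U, V⟩, hm, hR, hb⟩
    exact single2 hDENS hFAC hNR hL (F := fun i => F (m i)) (a := fun i => a (m i))
      (c := fun i => c (m i)) (fun i => h (m i)) (hc.comp hm) hR hb
  obtain ⟨E, f1, f2, f3⟩ := null_countable (α := α) (S₁ := fun N => Ioc N (2 * N)) (S₂ := primes)
    (fun N => Finset.Subset.refl _) (fun N => Finset.filter_subset _ _) _ (fun x => (hα x).1)
    (fun x => (hα x).2)
  refine ⟨E₀ ∪ E, null_union e1 f1, null_union e2 f2, fun s m U V hm hR => ⟨?_, fun hb => ?_⟩⟩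
  · obtain ⟨κ, hκ, hfin⟩ := e3 s m U V hm hR
    refine ⟨κ, hκ, hfin.subset ?_⟩
    rintro t ⟨ht, ht'⟩
    exact ⟨fun h0 => ht (Or.inl h0), ht'⟩
  · refine (f3 ⟨s, ⟨m, U, V⟩, hm, hR, hb⟩).subset ?_
    rintro t ⟨ht, ht'⟩
    exact ⟨ht', fun h0 => ht (Or.inr h0)⟩

end Pool.Agent.N495.TS
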