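import Pool.Agent.N495.TS.Fin
import Pool.Agent.N495.TS.StmT
import Pool.Agent.N609.TS.BC

/-!
Points of prime order of abelian varieties over number fields which are isogenous to products of elliptic
curves over `ℚ` with large images (helper495).
-/

set_option autoImplicit false

namespace Pool.Agent.N495.TS

open WeierstrassCurve NumberField
open Pool.Agent.Y673.Loc Pool.Agent.Y673.SL
open Pool.Agent.Q19.SU

open scoped Classical in
theorem hasSL_of_n {A B : ℚ} {l : ℕ} (hl : l.Prime) (h : HasSLn A B l) : HasSL A B l := by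
  obtain ⟨P, Q, hB, h5⟩ := h
  have hl1 : ¬ (l : ℤ) ∣ 1 := by
    intro hd
    have := Int.le_of_dvd one_pos hd
    have := hl.two_le
    omega
  refine ⟨P, Q, by rw [← natCast_zsmul]; exact hB.hP, by rw [← natCast_zsmul]; exact hB.hQ, ?_, ?_, h5⟩
  · intro h0
    have := hB.ind 1 0 (by rw [h0, one_zsmul, zero_zsmul, add_zero])
    exact hl1 this.1
  · intro hQ
    obtain ⟨m, hm⟩ := AddSubgroup.mem_zmultiples_iff.1 hQ
    have := hB.ind m (-1) (by rw [hm, neg_zsmul, one_zsmul, add_neg_cancel])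
    exact hl1 ((dvd_neg).1 this.2)

open scoped Classical in
/-- no line is stable over a number field -/
theorem noLineK {K : Type} [Field K] [NumberField K] {A B : K} (hD : 4 * A ^ 3 + 27 * B ^ 2 ≠ 0)
    {l : ℕ} (hl : l.Prime) (h : HasSL A B l) {v : EP A B} (hv : l • v = 0) (hv0 : v ≠ 0) :
    ∃ σ : AlgebraicClosure K ≃ₐ[K] AlgebraicClosure K, act A B σ v ∉ AddSubgroup.zmultiples v := by
  obtain ⟨P, Q, hB, hsl⟩ := hasSLn_of hD hl h
  have hv' : (l : ℤ) • v = 0 := by rw [natCast_zsmul]; exact hv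
  obtain ⟨a, b, rfl⟩ := hB.span v hv'
  by_contra hno
  push Not at hno
  have hpp : _root_.Prime (l : ℤ) := Nat.prime_iff_prime_int.1 hl
  -- the two transvections
  obtain ⟨σ, s1, s2⟩ := hsl 1 1 0 1 (by norm_num)
  obtain ⟨τ, t1, t2⟩ := hsl 1 0 1 1 (by norm_num)
  rw [one_zsmul, zero_zsmul, add_zero] at s1
  rw [one_zsmul, one_zsmul] at s2
  rw [one_zsmul, one_zsmul] at t1
  rw [zero_zsmul, one_zsmul, zero_add] at t2
  obtain ⟨m, hm⟩ := AddSubgroup.mem_zmultiples_iff.1 (hno σ)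
  obtain ⟨m', hm'⟩ := AddSubgroup.mem_zmultiples_iff.1 (hno τ)
  rw [map_add, map_zsmul, map_zsmul, s1, s2] at hm
  rw [map_add, map_zsmul, map_zsmul, t1, t2] at hm'
  have e1 := hB.ind (m * a - a - b) (m * b - b) (by
    have : (m * a - a - b) • P + (m * b - b) • Q = m • (a • P + b • Q) - (a • P + b • (P + Q)) := by
      module
    rw [this, hm, sub_self])
  have e2 := hB.ind (m' * a - a) (m' * b - a - b) (by
    have : (m' * a - a) • P + (m' * b - a - b) • Q =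
        m' • (a • P + b • Q) - (a • (P + Q) + b • Q) := by
      module
    rw [this, hm', sub_self])
  -- `l ∣ b ^ 2` and `l ∣ a ^ 2`
  have f1 : (l : ℤ) ∣ b ^ 2 := by
    have h1 := dvd_sub (Dvd.dvd.mul_left e1.2 a) (Dvd.dvd.mul_left e1.1 b)
    have : a * (m * b - b) - b * (m * a - a - b) = b ^ 2 := by ring
    rwa [this] at h1
  have f2 : (l : ℤ) ∣ a ^ 2 := by
    have h1 := dvd_sub (Dvd.dvd.mul_left e2.1 b) (Dvd.dvd.mul_left e2.2 a)
    have : b * (m' * a - a) - a * (m' * b - a - b) = a ^ 2 := by ring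
    rwa [this] at h1
  obtain ⟨b', hb'⟩ := hpp.dvd_of_dvd_pow f1
  obtain ⟨a', ha'⟩ := hpp.dvd_of_dvd_pow f2
  apply hv0
  rw [ha', hb', mul_comm, mul_smul, hB.hP, smul_zero, zero_add, mul_comm, mul_smul, hB.hQ,
    smul_zero]

open scoped Classical in
/-- **points of prime order over number fields** -/
theorem tq_base (hT : S_TORS) {g : ℕ} {A B : Fin g → ℚ}
    (hD : ∀ i, 4 * A i ^ 3 + 27 * B i ^ 2 ≠ 0) (h : ∀ i, Lrg 0 (A i) (B i))
    (K : Type) [Field K] [NumberField K]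
    (Γ : AddSubgroup (∀ i, EP (algebraMap ℚ K (A i)) (algebraMap ℚ K (B i))))
    (hfin : (Γ : Set (∀ i, EP (algebraMap ℚ K (A i)) (algebraMap ℚ K (B i)))).Finite)
    (hst : ∀ σ : AlgebraicClosure K ≃ₐ[K] AlgebraicClosure K, ∀ x ∈ Γ,
      (fun i => act (algebraMap ℚ K (A i)) (algebraMap ℚ K (B i)) σ (x i)) ∈ Γ)
    {x : ∀ i, EP (algebraMap ℚ K (A i)) (algebraMap ℚ K (B i))}
    (hx : ∀ σ : AlgebraicClosure K ≃ₐ[K] AlgebraicClosure K,
      (fun i => act (algebraMap ℚ K (A i)) (algebraMap ℚ K (B i)) σ (x i) - x i) ∈ Γ)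
    (hf : IsOfFinAddOrder (x : (∀ i, EP (algebraMap ℚ K (A i)) (algebraMap ℚ K (B i))) ⧸ Γ))
    {l : ℕ} (hl : l.Prime)
    (hd : l ∣ addOrderOf (x : (∀ i, EP (algebraMap ℚ K (A i)) (algebraMap ℚ K (B i))) ⧸ Γ)) :
    l ≤ Module.finrank ℚ K := by
  by_contra hlt
  push Not at hlt
  have hDK : ∀ i, 4 * (algebraMap ℚ K (A i)) ^ 3 + 27 * (algebraMap ℚ K (B i)) ^ 2 ≠ 0 := by
    intro i h0
    apply hD i
    apply (algebraMap ℚ K).injective
    rw [map_zero, ← h0]
    simp only [map_mul, map_add, map_pow, map_ofNat]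
  have hSL : ∀ i, HasSL (algebraMap ℚ K (A i)) (algebraMap ℚ K (B i)) l := by
    intro i
    obtain ⟨p, q, hp, hq, hzp, hpq, hall⟩ := h i
    refine Pool.Agent.N609.TS.hasSL_base (hD i) hl (hasSL_of_n hl (hall l hl.one_le ?_)) K hlt
    by_contra hcon
    push Not at hcon
    have h1 := (Nat.prime_dvd_prime_iff_eq hp hl).1 hcon.1
    have h2 := (Nat.prime_dvd_prime_iff_eq hq hl).1 hcon.2
    omega
  obtain ⟨i, z, hz1, hz2, hz3⟩ := hT (AlgebraicClosure K ≃ₐ[K] AlgebraicClosure K) g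
    (fun i => EP (algebraMap ℚ K (A i)) (algebraMap ℚ K (B i)))
    (fun i σ => act (algebraMap ℚ K (A i)) (algebraMap ℚ K (B i)) σ) l hl
    (fun i => by
      obtain ⟨P, Q, hB, -⟩ := hasSLn_of (hDK i) hl (hSL i)
      refine ⟨P, Q, by rw [← natCast_zsmul]; exact hB.hP, by rw [← natCast_zsmul]; exact hB.hQ,
        fun R hR => hB.span R (by rw [natCast_zsmul]; exact hR)⟩)
    (fun i v hv hv0 => noLineK (hDK i) hl (hSL i) hv hv0) Γ hfin hst Set.univ x
    (fun σ _ => hx σ) hf hd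
  obtain ⟨σ, hσ⟩ := noLineK (hDK i) hl (hSL i) hz1 hz2
  apply hσ
  have hz4 : act (algebraMap ℚ K (A i)) (algebraMap ℚ K (B i)) σ z = z := hz3 σ (Set.mem_univ _)
  rw [hz4]
  exact AddSubgroup.mem_zmultiples z

end Pool.Agent.N495.TS
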