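import Mathlib

/-!
# The statement of a part (helper495)
-/

set_option autoImplicit false

namespace Pool.Agent.N495.TS

/-- the density of the zeros of a nonzero polynomial modulo `q ^ T` tends to zero -/
def S_DENS : Prop := ∀ (ι : Type) [Fintype ι] [DecidableEq ι] (V : MvPolynomial ι ℤ), V ≠ 0 →
  ∀ q : ℕ, q.Prime → ∀ ε : ℝ, 0 < ε → ∃ T : ℕ,
    ({ρ : ι → ZMod (q ^ T) | MvPolynomial.aeval ρ V = 0}.ncard : ℝ) ≤
      ε * ((q ^ T : ℕ) : ℝ) ^ Fintype.card ι

end Pool.Agent.N495.TS
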