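import Pool.Agent.N495.TS.Ht
import Pool.Agent.N495.TS.All
import Pool.Agent.N495.TS.Stm

/-!
All large primes for almost all members of thin families of elliptic curves with bounded invariant
(helper495).
-/

set_option autoImplicit false
set_option linter.unusedSectionVars false

namespace Pool.Agent.N495.TS

open Finset Filter MvPolynomial Pool.Agent.N666.TM Pool.Agent.Y722.HS Pool.Agent.N603.TH
open Pool.Agent.Y673.Loc (jv)
open Pool.Agent.Y673.SL (HasSL)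
open Pool.Agent.W223.AK (ht)
open Pool.Agent.Q19.SU (C5)

theorem logH' (j : ℚ) : Height.logHeight₁ j = ht j := by
  rw [Pool.Agent.Y733.LS.logHeight_eq, Pool.Agent.Y733.LS.ht_eq_Sa]

section
variable {ι : Type} [Fintype ι] [DecidableEq ι]

theorem null_value {U V : MvPolynomial ι ℤ} (h : Nonprop U V) {S : ℕ → Finset ℕ} {x : ℕ → ι → ℤ}
    {κ : ℝ} (hκ : 0 < κ)
    (hw : ∃ N₀ : ℕ, ∀ N : ℕ, N₀ ≤ N → ∀ H : ℕ, (H : ℝ) ≤ (N : ℝ) ^ κ → Well (S N) x H) (j : ℚ) :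
    NullIn S {n | eval (x n) V ≠ 0 ∧
      ((eval (x n) U : ℤ) : ℚ) / ((eval (x n) V : ℤ) : ℚ) = j} := by
  classical
  obtain ⟨C, hC, h₁⟩ := mult h hκ
  obtain ⟨N₁, h₁⟩ := h₁ S x hw
  intro ε hε
  have hev : ∀ᶠ N : ℕ in atTop, C * (N : ℝ) ^ (-κ) ≤ ε := by
    have h3 : Tendsto (fun N : ℕ => (N : ℝ) ^ (-κ)) atTop (nhds 0) :=
      (tendsto_rpow_neg_atTop hκ).comp tendsto_natCast_atTop_atTop
    have h4 : Tendsto (fun N : ℕ => C * (N : ℝ) ^ (-κ)) atTop (nhds (C * 0)) := h3.const_mul C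
    rw [mul_zero] at h4
    exact h4.eventually (ge_mem_nhds hε)
  obtain ⟨N₂, hN₂⟩ := eventually_atTop.mp hev
  refine ⟨max N₁ N₂, fun N hN => ?_⟩
  have h2 := h₁ N (by omega) j
  have h3 := hN₂ N (by omega)
  refine le_trans (le_of_eq ?_) (h2.trans (mul_le_mul_of_nonneg_right h3 (Nat.cast_nonneg _)))
  rw [← Set.ncard_coe_finset]
  congr 2
  ext t
  simp

theorem null_low {U V : MvPolynomial ι ℤ} (h : Nonprop U V) {S : ℕ → Finset ℕ} {x : ℕ → ι → ℤ}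
    {κ : ℝ} (hκ : 0 < κ)
    (hw : ∃ N₀ : ℕ, ∀ N : ℕ, N₀ ≤ N → ∀ H : ℕ, (H : ℝ) ≤ (N : ℝ) ^ κ → Well (S N) x H) (B : ℝ) :
    NullIn S {n | eval (x n) V ≠ 0 ∧
      ht (((eval (x n) U : ℤ) : ℚ) / ((eval (x n) V : ℤ) : ℚ)) ≤ B} := by
  classical
  have hfin := NumberField.finite_setOfPred_logHeight₁_le (K := ℚ) B
  refine null_mono (null_biUnion hfin.toFinset (fun j => {n | eval (x n) V ≠ 0 ∧
    ((eval (x n) U : ℤ) : ℚ) / ((eval (x n) V : ℤ) : ℚ) = j}) fun j _ => null_value h hκ hw j) ?_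
  rintro n ⟨h1, h2⟩
  simp only [Set.mem_iUnion]
  refine ⟨_, ?_, h1, rfl⟩
  rw [Set.Finite.mem_toFinset]
  show Height.logHeight₁ _ ≤ B
  rw [logH']
  exact h2

open Classical in
theorem null_pow (hDENS : S_DENS) {V : MvPolynomial ι ℤ} (hV : V ≠ 0) {q : ℕ} (hq : q.Prime)
    {S : ℕ → Finset ℕ} {x : ℕ → ι → ℤ} {κ : ℝ} (hκ : 0 < κ)
    (hw : ∃ N₀ : ℕ, ∀ N : ℕ, N₀ ≤ N → ∀ H : ℕ, (H : ℝ) ≤ (N : ℝ) ^ κ → Well (S N) x H)
    {ε : ℝ} (hε : 0 < ε) : ∃ T N₀ : ℕ, ∀ N : ℕ, N₀ ≤ N →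
      (((S N).filter fun n => ((q ^ T : ℕ) : ℤ) ∣ eval (x n) V).card : ℝ) ≤ ε * (S N).card := by
  obtain ⟨T, hT⟩ := hDENS ι V hV q hq (ε / 2) (by positivity)
  have hqT : 1 ≤ q ^ T := Nat.one_le_pow _ _ hq.pos
  have hd : Pool.Agent.N666.TM.dens {ρ : ι → ZMod (q ^ T) | aeval ρ V = 0} ≤ ε / 2 := by
    unfold Pool.Agent.N666.TM.dens
    rw [div_le_iff₀ (by
      have : (0 : ℝ) < ((q ^ T : ℕ) : ℝ) := by exact_mod_cast hqT
      positivity)]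
    exact hT
  obtain ⟨N₀, hN₀⟩ := rare hκ hw (q ^ T) hqT {ρ : ι → ZMod (q ^ T) | aeval ρ V = 0} (ε / 2) hd
  refine ⟨T, N₀, fun N hN => ?_⟩
  have h2 := hN₀ N hN
  have h3 : 2 * (ε / 2) = ε := by ring
  rw [h3] at h2
  refine le_trans ?_ h2
  refine Nat.cast_le.2 (Finset.card_le_card fun n hn => ?_)
  rw [Finset.mem_filter] at hn ⊢
  refine ⟨hn.1, ?_⟩
  show aeval (red (q ^ T) (x n)) V = 0
  rw [aeval_red, ZMod.intCast_zmod_eq_zero_iff_dvd]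
  exact hn.2

theorem growth (C₀ : ℝ) (K : ℕ) {c : ℝ} (hc : 0 < c) : ∃ n₀ : ℕ, ∀ n : ℕ, n₀ ≤ n →
    |Real.log C₀| + K * Real.log n ≤ Real.log 2 * Real.exp (c * Real.sqrt (Real.log n)) := by
  have hlog2 : 0 < Real.log 2 := Real.log_pos (by norm_num)
  have h0 := (isLittleO_pow_exp_pos_mul_atTop (k := 0) hc).def
    (c := Real.log 2 / (2 * (|Real.log C₀| + 1))) (by positivity)
  have h2 := (isLittleO_pow_exp_pos_mul_atTop (k := 2) hc).def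
    (c := Real.log 2 / (2 * ((K : ℝ) + 1))) (by positivity)
  have ht : Tendsto (fun n : ℕ => Real.sqrt (Real.log n)) atTop atTop :=
    Real.tendsto_sqrt_atTop.comp (Real.tendsto_log_atTop.comp tendsto_natCast_atTop_atTop)
  have h3 := ht.eventually h0
  have h4 := ht.eventually h2
  obtain ⟨n₁, hn₁⟩ := eventually_atTop.1 (h3.and h4)
  refine ⟨max n₁ 1, fun n hn => ?_⟩
  obtain ⟨e1, e2⟩ := hn₁ n (by omega)
  have hn1 : (1 : ℝ) ≤ n := by exact_mod_cast (by omega : 1 ≤ n)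
  have hlog : 0 ≤ Real.log n := Real.log_nonneg hn1
  rw [pow_zero, norm_one, Real.norm_of_nonneg (Real.exp_pos _).le] at e1
  rw [Real.sq_sqrt hlog, Real.norm_of_nonneg hlog, Real.norm_of_nonneg (Real.exp_pos _).le] at e2
  set X := Real.exp (c * Real.sqrt (Real.log n)) with hX
  have hX0 : 0 < X := Real.exp_pos _
  have a0 : 0 ≤ |Real.log C₀| := abs_nonneg _
  have f1 : |Real.log C₀| ≤ Real.log 2 * X / 2 := by
    rw [div_mul_eq_mul_div, le_div_iff₀ (by positivity)] at e1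
    nlinarith
  have f2 : (K : ℝ) * Real.log n ≤ Real.log 2 * X / 2 := by
    rw [div_mul_eq_mul_div, le_div_iff₀ (by positivity)] at e2
    have hK : (0 : ℝ) ≤ K := Nat.cast_nonneg K
    nlinarith
  linarith

theorem null_big (hDENS : S_DENS) {U V : MvPolynomial ι ℤ} (h : Nonprop U V) {κ : ℝ} (hκ : 0 < κ)
    {C₀ : ℝ} {K : ℕ} (hC₀ : 1 ≤ C₀) {c : ℝ} (hc : 0 < c)
    (S : ℕ → Finset ℕ) (x : ℕ → ι → ℤ) (hS : ∀ N, S N ⊆ Ioc N (2 * N))
    (hw : ∃ N₀ : ℕ, ∀ N : ℕ, N₀ ≤ N → ∀ H : ℕ, (H : ℝ) ≤ (N : ℝ) ^ κ → Well (S N) x H)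
    (hgr : ∀ n : ℕ, 1 ≤ n → |((eval (x n) U : ℤ) : ℝ)| ≤ C₀ * (n : ℝ) ^ K ∧
        |((eval (x n) V : ℤ) : ℝ)| ≤ C₀ * (n : ℝ) ^ K)
    {M : ℝ} (hM : 1 ≤ M) {n₁ : ℕ} (hbd : ∀ n : ℕ, n₁ ≤ n →
      |((eval (x n) U : ℤ) : ℝ)| ≤ M * |((eval (x n) V : ℤ) : ℝ)|) :
    NullIn S {n | ¬ (eval (x n) V ≠ 0 ∧ ∀ A B : ℚ, 4 * A ^ 3 + 27 * B ^ 2 ≠ 0 →
      jv A B = ((eval (x n) U : ℤ) : ℚ) / ((eval (x n) V : ℤ) : ℚ) →
        ∀ l : ℕ, l.Prime → 5 ≤ l → Real.exp (c * Real.sqrt (Real.log n)) < l → HasSL A B l)} := by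
  classical
  intro ε hε
  have hV : V ≠ 0 := by
    have := h.ne 1 0 (Or.inl one_ne_zero)
    rintro rfl
    simp at this
  obtain ⟨T₂, M₂, hM₂⟩ := null_pow hDENS hV Nat.prime_two hκ hw (show 0 < ε / 3 by positivity)
  obtain ⟨T₃, M₃, hM₃⟩ := null_pow hDENS hV Nat.prime_three hκ hw (show 0 < ε / 3 by positivity)
  set T := max T₂ T₃ with hT
  set B₀ : ℝ := 2 * (C5 + Real.log M + T * Real.log 6) with hB₀
  have z1 := null_zero hκ hw (h.ne 1 0 (Or.inl one_ne_zero))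
  have z2 := null_zero hκ hw (h.ne 0 1 (Or.inr one_ne_zero))
  have z3 := null_zero hκ hw (h.ne 1728 1 (Or.inr one_ne_zero))
  have z4 := null_low h hκ hw B₀
  obtain ⟨M₄, hM₄⟩ := (null_union (null_union z1 z2) (null_union z3 z4)) (ε / 3) (by positivity)
  obtain ⟨n₂, hn₂⟩ := growth C₀ K hc
  refine ⟨max (max (max M₂ M₃) (max M₄ n₁)) (max n₂ 1), fun N hN => ?_⟩
  have k2 := hM₂ N (by omega)
  have k3 := hM₃ N (by omega)
  have k4 := hM₄ N (by omega)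
  set Z : Set ℕ := {n | eval (x n) (C 0 * U - C 1 * V) = 0} ∪ {n | eval (x n) (C 1 * U - C 0 * V) = 0} ∪
    ({n | eval (x n) (C 1 * U - C 1728 * V) = 0} ∪ {n | eval (x n) V ≠ 0 ∧
      ht (((eval (x n) U : ℤ) : ℚ) / ((eval (x n) V : ℤ) : ℚ)) ≤ B₀}) with hZ
  set F2 := (S N).filter fun n => ((2 ^ T₂ : ℕ) : ℤ) ∣ eval (x n) V with hF2
  set F3 := (S N).filter fun n => ((3 ^ T₃ : ℕ) : ℤ) ∣ eval (x n) V with hF3
  have hfin : {t : ℕ | t ∈ S N ∧ t ∈ Z}.Finite := (S N).finite_toSet.subset fun t ht => ht.1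
  have hsub : {t : ℕ | t ∈ S N ∧ t ∈ {n | ¬ (eval (x n) V ≠ 0 ∧ ∀ A B : ℚ,
      4 * A ^ 3 + 27 * B ^ 2 ≠ 0 →
      jv A B = ((eval (x n) U : ℤ) : ℚ) / ((eval (x n) V : ℤ) : ℚ) →
        ∀ l : ℕ, l.Prime → 5 ≤ l → Real.exp (c * Real.sqrt (Real.log n)) < l → HasSL A B l)}} ⊆
      ((F2 : Set ℕ) ∪ (F3 : Set ℕ)) ∪ {t : ℕ | t ∈ S N ∧ t ∈ Z} := by
    rintro n ⟨hnS, hn⟩
    by_contra hcon
    simp only [Set.mem_union, not_or, Finset.mem_coe, hF2, hF3, Finset.mem_filter, not_and] at hcon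
    obtain ⟨⟨c2, c3⟩, c4⟩ := hcon
    have c2 := c2 hnS
    have c3 := c3 hnS
    have c4 : n ∉ Z := fun hz => c4 ⟨hnS, hz⟩
    rw [hZ] at c4
    simp only [Set.mem_union, Set.mem_ofPred_eq, not_or, map_sub, map_mul, eval_C, not_and,
      not_le] at c4
    obtain ⟨⟨d1, d2⟩, d3, d4⟩ := c4
    have hn2 := Finset.mem_Ioc.1 (hS N hnS)
    have hV0 : eval (x n) V ≠ 0 := by
      intro h0
      apply d1
      rw [h0]
      ring
    have hU0 : eval (x n) U ≠ 0 := by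
      intro h0
      apply d2
      rw [h0]
      ring
    have hVq : ((eval (x n) V : ℤ) : ℚ) ≠ 0 := by exact_mod_cast hV0
    have h1728 : ((eval (x n) U : ℤ) : ℚ) / ((eval (x n) V : ℤ) : ℚ) ≠ 1728 := by
      intro h1
      rw [div_eq_iff hVq] at h1
      apply d3
      have h2 : eval (x n) U = 1728 * eval (x n) V := by exact_mod_cast h1
      rw [h2]
      ring
    apply hn
    refine ⟨hV0, fun A B hD hj l hl h5 hlx => ?_⟩
    have hvn : (eval (x n) V).natAbs ≠ 0 := Int.natAbs_ne_zero.2 hV0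
    obtain ⟨a, m₁, hm₁, ha⟩ := Nat.exists_eq_pow_mul_and_not_dvd hvn 2 (by norm_num)
    have hm₁0 : m₁ ≠ 0 := by
      rintro rfl
      exact hm₁ (dvd_zero _)
    obtain ⟨b, m, hm, hb⟩ := Nat.exists_eq_pow_mul_and_not_dvd hm₁0 3 (by norm_num)
    have hdec : (eval (x n) V).natAbs = 2 ^ a * 3 ^ b * m := by
      rw [ha, hb]
      ring
    have h2m : ¬ 2 ∣ m := fun hd => hm₁ (hb ▸ Dvd.dvd.mul_left hd _)
    have haT : a ≤ T := by
      by_contra hlt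
      apply c2
      rw [Int.natCast_dvd, hdec, mul_assoc]
      exact Dvd.dvd.mul_right (pow_dvd_pow 2 (by omega)) _
    have hbT : b ≤ T := by
      by_contra hlt
      apply c3
      rw [Int.natCast_dvd, hdec]
      exact Dvd.dvd.mul_right (Dvd.dvd.mul_left (pow_dvd_pow 3 (by omega)) _) _
    refine all_large hD hU0 hV0 hj h1728 hM (hbd n (by omega)) hdec h2m hm haT hbT (d4 hV0) hl h5 ?_
    -- the height
    obtain ⟨g1, g2⟩ := hgr n (by omega)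
    obtain ⟨e1, e2⟩ := height_le hV0 g1 g2
    have hn1R : (1 : ℝ) ≤ n := by exact_mod_cast (by omega : 1 ≤ n)
    have hle : ht (((eval (x n) U : ℤ) : ℚ) / ((eval (x n) V : ℤ) : ℚ)) ≤
        Real.log (C₀ * (n : ℝ) ^ K) := by
      rw [← logH', Rat.logHeight₁_eq_log_max]
      apply Real.log_le_log
      · have hd := (((eval (x n) U : ℤ) : ℚ) / ((eval (x n) V : ℤ) : ℚ)).den_pos
        exact_mod_cast lt_max_of_lt_right hd
      · rw [Nat.cast_max]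
        refine max_le ?_ e2
        rw [Nat.cast_natAbs, Int.cast_abs]
        exact e1
    have h6 := hn₂ n (by omega)
    have hlog2 : 0 < Real.log 2 := Real.log_pos (by norm_num)
    have h7 : Real.log (C₀ * (n : ℝ) ^ K) ≤ |Real.log C₀| + K * Real.log n := by
      rw [Real.log_mul (by linarith) (by positivity), Real.log_pow]
      linarith [le_abs_self (Real.log C₀)]
    nlinarith
  have h1 : ({t : ℕ | t ∈ S N ∧ t ∈ {n | ¬ (eval (x n) V ≠ 0 ∧ ∀ A B : ℚ,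
      4 * A ^ 3 + 27 * B ^ 2 ≠ 0 →
      jv A B = ((eval (x n) U : ℤ) : ℚ) / ((eval (x n) V : ℤ) : ℚ) →
        ∀ l : ℕ, l.Prime → 5 ≤ l → Real.exp (c * Real.sqrt (Real.log n)) < l → HasSL A B l)}}).ncard ≤
      F2.card + F3.card + {t : ℕ | t ∈ S N ∧ t ∈ Z}.ncard := by
    refine (Set.ncard_le_ncard hsub (((Finset.finite_toSet _).union
      (Finset.finite_toSet _)).union hfin)).trans ?_
    refine (Set.ncard_union_le _ _).trans ?_
    gcongr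
    refine (Set.ncard_union_le _ _).trans ?_
    rw [Set.ncard_coe_finset, Set.ncard_coe_finset]
  have h2 : (({t : ℕ | t ∈ S N ∧ t ∈ {n | ¬ (eval (x n) V ≠ 0 ∧ ∀ A B : ℚ,
      4 * A ^ 3 + 27 * B ^ 2 ≠ 0 →
      jv A B = ((eval (x n) U : ℤ) : ℚ) / ((eval (x n) V : ℤ) : ℚ) →
        ∀ l : ℕ, l.Prime → 5 ≤ l → Real.exp (c * Real.sqrt (Real.log n)) < l →
          HasSL A B l)}}).ncard : ℝ) ≤
      F2.card + F3.card + ({t : ℕ | t ∈ S N ∧ t ∈ Z}.ncard : ℝ) := by exact_mod_cast h1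
  refine h2.trans ?_
  linarith

end

end Pool.Agent.N495.TS
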