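import Mathlib

/-!
# Statement of a part (helper495): torsion orders of quotients of products, general operators
-/

set_option autoImplicit false

namespace Pool.Agent.N495.TS

/-- A quotient of a product of `g` groups `V i` with operators, whose `q`-torsion is spanned by two
elements for all primes `q`, by a finite stable subgroup `Γ`: the order of an invariant torsion class
divides the product of the orders of elements `c i` which generate stable subgroups and of invariant
elements `w i`. -/
def S_TORSM : Prop :=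
  ∀ (G : Type) (g : ℕ) (V : Fin g → Type) [∀ i, AddCommGroup (V i)]
    (act : ∀ i, G → V i →+ V i),
    (∀ i, ∀ q : ℕ, q.Prime → ∃ P Q : V i, q • P = 0 ∧ q • Q = 0 ∧
      ∀ R : V i, q • R = 0 → ∃ m n : ℤ, R = m • P + n • Q) →
    ∀ (Γ : AddSubgroup (∀ i, V i)), (Γ : Set (∀ i, V i)).Finite →
    (∀ σ : G, ∀ x ∈ Γ, (fun i => act i σ (x i)) ∈ Γ) →
    ∀ (x : ∀ i, V i), (∀ σ : G, (fun i => act i σ (x i) - x i) ∈ Γ) →
    IsOfFinAddOrder (x : (∀ i, V i) ⧸ Γ) →
    ∃ c w : ∀ i, V i, (∀ i, IsOfFinAddOrder (c i) ∧ IsOfFinAddOrder (w i) ∧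
        (∀ σ : G, act i σ (c i) ∈ AddSubgroup.zmultiples (c i)) ∧
        (∀ σ : G, act i σ (w i) = w i)) ∧
      addOrderOf (x : (∀ i, V i) ⧸ Γ) ∣ ∏ i, (addOrderOf (c i) * addOrderOf (w i))

end Pool.Agent.N495.TS
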