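import Pool.Agent.N495.TS.Tors
import Pool.Agent.N495.TS.StmM

/-!
Stable cyclic subgroups over extensions, and torsion of quotients of products over extensions (helper495).
-/

set_option autoImplicit false

namespace Pool.Agent.N495.TS

open WeierstrassCurve NumberField
open Pool.Agent.Y673.Loc Pool.Agent.Y673.SL
open Pool.Agent.Q19.SU

open scoped Classical in
/-- the degree of the field of definition of a cyclic subgroup -/
theorem orb_line {K : Type} [Field K] [NumberField K] {A B : K} {n : ℕ} (hn : 1 < n) (h : HasSLn A B n)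
    (M : IntermediateField K (AlgebraicClosure K)) [FiniteDimensional K M] {z : EP A B}
    (hz : ∀ σ ∈ M.fixingSubgroup, act A B σ z ∈ AddSubgroup.zmultiples z)
    (hord : addOrderOf z = n) : n + 1 ≤ Module.finrank K M := by
  obtain ⟨P, Q, hB, hsl⟩ := h
  have hn1 : 1 ≤ n := hn.le
  have hnz : (n : ℤ) • z = 0 := by
    rw [natCast_zsmul, ← hord]; exact addOrderOf_nsmul_eq_zero z
  obtain ⟨α, γ, hαγ⟩ := hB.span z hnz
  -- the coordinates are primitive
  have hprim : ∀ a c : ℕ, Nat.gcd (Nat.gcd a c) n = 1 → ∃ σ : AlgebraicClosure K ≃ₐ[K]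
      AlgebraicClosure K, act A B σ P = (a : ℤ) • P + (c : ℤ) • Q := by
    intro a c hac
    have e1 := Nat.gcd_eq_gcd_ab (Nat.gcd a c) n
    have e2 := Nat.gcd_eq_gcd_ab a c
    rw [hac] at e1
    obtain ⟨σ, h1, -⟩ := hsl a (-(Nat.gcdB a c * Nat.gcdA (Nat.gcd a c) n)) c
      (Nat.gcdA a c * Nat.gcdA (Nat.gcd a c) n)
      ⟨-(Nat.gcdB (Nat.gcd a c) n), by
        have e3 : ((Nat.gcd a c : ℕ) : ℤ) = a * Nat.gcdA a c + c * Nat.gcdB a c := e2
        have e4 : ((1 : ℕ) : ℤ) = (Nat.gcd a c : ℕ) * Nat.gcdA (Nat.gcd a c) n +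
          n * Nat.gcdB (Nat.gcd a c) n := e1
        rw [e3] at e4
        push_cast at e4
        linear_combination -e4⟩
    exact ⟨σ, h1⟩
  have hzP : ∃ σ : AlgebraicClosure K ≃ₐ[K] AlgebraicClosure K, act A B σ P = z := by
    have hpos : (0 : ℤ) < n := by exact_mod_cast hn1
    obtain ⟨a, ha⟩ : ∃ a : ℕ, (a : ℤ) = α % n := ⟨(α % n).toNat, Int.toNat_of_nonneg
      (Int.emod_nonneg _ hpos.ne')⟩
    obtain ⟨c, hc⟩ : ∃ c : ℕ, (c : ℤ) = γ % n := ⟨(γ % n).toNat, Int.toNat_of_nonneg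
      (Int.emod_nonneg _ hpos.ne')⟩
    have hza : z = (a : ℤ) • P + (c : ℤ) • Q := by
      rw [hαγ]
      congr 1
      · refine Gen.smul_congr hB.hP ?_
        rw [ha]
        exact Int.dvd_self_sub_emod
      · refine Gen.smul_congr hB.hQ ?_
        rw [hc]
        exact Int.dvd_self_sub_emod
    obtain ⟨σ, hσ⟩ := hprim a c (by
      obtain ⟨g, hg⟩ : ∃ g, g = Nat.gcd (Nat.gcd a c) n := ⟨_, rfl⟩
      rw [← hg]
      have hgn : g ∣ n := by rw [hg]; exact Nat.gcd_dvd_right _ _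
      have hgac : g ∣ Nat.gcd a c := by rw [hg]; exact Nat.gcd_dvd_left _ _
      obtain ⟨m, hm⟩ := hgn
      obtain ⟨a', ha'⟩ := hgac.trans (Nat.gcd_dvd_left _ _)
      obtain ⟨c', hc'⟩ := hgac.trans (Nat.gcd_dvd_right _ _)
      have h1 : m • z = 0 := by
        rw [← natCast_zsmul, hza, ha', hc']
        push_cast
        have e1 : (m : ℤ) • (((g : ℤ) * a') • P + ((g : ℤ) * c') • Q) =
            (a' : ℤ) • (((g * m : ℕ) : ℤ) • P) + (c' : ℤ) • (((g * m : ℕ) : ℤ) • Q) := by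
          push_cast
          module
        rw [e1, ← hm, hB.hP, hB.hQ, smul_zero, smul_zero, add_zero]
      have h2 := addOrderOf_dvd_of_nsmul_eq_zero h1
      rw [hord] at h2
      have hm0 : 0 < m := by
        rcases Nat.eq_zero_or_pos m with h0 | h0
        · rw [h0, mul_zero] at hm; omega
        · exact h0
      have h3 := Nat.le_of_dvd hm0 h2
      rw [hm] at h3
      have hg0 : 0 < g := by
        rcases Nat.eq_zero_or_pos g with h0 | h0
        · rw [h0, zero_mul] at hm; omega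
        · exact h0
      nlinarith)
    exact ⟨σ, by rw [hσ, ← hza]⟩
  obtain ⟨σ₀, hσ₀⟩ := hzP
  have hP0 : P = act A B σ₀⁻¹ z := by
    rw [← hσ₀, ← act_mul, inv_mul_cancel, act_one]
  -- the lines
  obtain ⟨T, hT⟩ : ∃ T : Finset (ℕ × ℕ), T = insert (0, 1) ((Finset.range n).image fun k => (1, k)) :=
    ⟨_, rfl⟩
  have hTcard : T.card = n + 1 := by
    rw [hT, Finset.card_insert_of_notMem, Finset.card_image_of_injective, Finset.card_range]
    · intro a b hab
      exact (Prod.ext_iff.1 hab).2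
    · intro hmem
      obtain ⟨k, -, hk⟩ := Finset.mem_image.1 hmem
      exact one_ne_zero (Prod.ext_iff.1 hk).1
  have hTm : ∀ q ∈ T, q = (0, 1) ∨ ∃ k < n, q = (1, k) := by
    intro q hq
    rw [hT, Finset.mem_insert, Finset.mem_image] at hq
    rcases hq with rfl | ⟨k, hk, rfl⟩
    · exact Or.inl rfl
    · exact Or.inr ⟨k, Finset.mem_range.1 hk, rfl⟩
  have key : ∀ q ∈ T, ∃ σ : AlgebraicClosure K ≃ₐ[K] AlgebraicClosure K,
      act A B σ z = (q.1 : ℤ) • P + (q.2 : ℤ) • Q := by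
    intro q hq
    obtain ⟨σ, hσ⟩ := hprim q.1 q.2 (by
      rcases hTm q hq with rfl | ⟨k, -, rfl⟩
      · simp
      · simp)
    refine ⟨σ * σ₀⁻¹, ?_⟩
    rw [act_mul, ← hP0, hσ]
  choose! s hs using key
  rw [← hTcard]
  rw [← AlgHom.card K M (AlgebraicClosure K)]
  refine (Finset.card_le_card_of_injOn (fun q => ((s q : AlgebraicClosure K ≃ₐ[K]
    AlgebraicClosure K) : AlgebraicClosure K →ₐ[K] AlgebraicClosure K).comp M.val)
    (fun q _ => Finset.mem_coe.2 (Finset.mem_univ _)) ?_)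
  intro q hq q' hq' heq
  have h1 : (s q')⁻¹ * s q ∈ M.fixingSubgroup := by
    rw [IntermediateField.mem_fixingSubgroup_iff]
    intro x hx
    have h2 := congrArg (fun f : M →ₐ[K] AlgebraicClosure K => f ⟨x, hx⟩) heq
    have h3 : s q x = s q' x := h2
    rw [AlgEquiv.mul_apply, h3]
    exact (s q').symm_apply_apply x
  obtain ⟨m, hm⟩ := AddSubgroup.mem_zmultiples_iff.1 (hz _ h1)
  have h3 : act A B (s q) z = m • act A B (s q') z := by
    have : act A B (s q' * ((s q')⁻¹ * s q)) z = act A B (s q') (m • z) := by rw [act_mul, ← hm]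
    rwa [mul_inv_cancel_left, map_zsmul] at this
  rw [hs q hq, hs q' hq'] at h3
  have h4 := hB.ind ((q.1 : ℤ) - m * q'.1) ((q.2 : ℤ) - m * q'.2) (by
    have : ((q.1 : ℤ) - m * q'.1) • P + ((q.2 : ℤ) - m * q'.2) • Q =
        ((q.1 : ℤ) • P + (q.2 : ℤ) • Q) - m • ((q'.1 : ℤ) • P + (q'.2 : ℤ) • Q) := by module
    rw [this, h3, sub_self])
  have hn1' : ¬ (n : ℤ) ∣ 1 := by
    intro hd
    have := Int.le_of_dvd one_pos hd
    omega
  rcases hTm q hq with rfl | ⟨k, hk, rfl⟩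
  · rcases hTm q' hq' with rfl | ⟨k', hk', rfl⟩
    · rfl
    · exfalso
      obtain ⟨h5, h6⟩ := h4
      push_cast at h5 h6
      apply hn1'
      have h7 := dvd_sub h6 (Dvd.dvd.mul_right h5 (k' : ℤ))
      have : (1 - m * (k' : ℤ)) - (0 - m * 1) * (k' : ℤ) = 1 := by ring
      rwa [this] at h7
  · rcases hTm q' hq' with rfl | ⟨k', hk', rfl⟩
    · exfalso
      obtain ⟨h5, h6⟩ := h4
      push_cast at h5 h6
      apply hn1'
      have : (1 : ℤ) - m * 0 = 1 := by ring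
      rwa [this] at h5
    · obtain ⟨h5, h6⟩ := h4
      push_cast at h5 h6
      have h7 : (n : ℤ) ∣ (k : ℤ) - k' := by
        have h8 := dvd_sub h6 (Dvd.dvd.mul_right h5 (k' : ℤ))
        have : ((k : ℤ) - m * (k' : ℤ)) - (1 - m * 1) * (k' : ℤ) = (k : ℤ) - k' := by ring
        rwa [this] at h8
      have h9 := Int.eq_zero_of_abs_lt_dvd h7 (by rw [abs_lt]; omega)
      have : k = k' := by omega
      rw [this]

open scoped Classical in
theorem stab_smul {A B : ℚ} {y : EP A B} {σ : AlgebraicClosure ℚ ≃ₐ[ℚ] AlgebraicClosure ℚ}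
    (h : act A B σ y ∈ AddSubgroup.zmultiples y) (k : ℕ) :
    act A B σ (k • y) ∈ AddSubgroup.zmultiples (k • y) := by
  obtain ⟨m, hm⟩ := AddSubgroup.mem_zmultiples_iff.1 h
  refine AddSubgroup.mem_zmultiples_iff.2 ⟨m, ?_⟩
  rw [map_nsmul, ← hm, ← natCast_zsmul, ← natCast_zsmul, ← mul_zsmul, ← mul_zsmul, mul_comm]

open scoped Classical in
/-- the prime factors of the order of a stable cyclic subgroup -/
theorem cy_prime {z : ℕ} {A B : ℚ} (h : Lrg z A B) (M : IntermediateField ℚ (AlgebraicClosure ℚ))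
    [FiniteDimensional ℚ M] {y : EP A B}
    (hy : ∀ σ ∈ M.fixingSubgroup, act A B σ y ∈ AddSubgroup.zmultiples y)
    (hf : IsOfFinAddOrder y) {l : ℕ} (hl : l.Prime) (hd : l ∣ addOrderOf y) :
    l + 1 ≤ Module.finrank ℚ M := by
  obtain ⟨p, q, hp, hq, hzp, hpq, hall⟩ := h
  obtain ⟨m, hm⟩ := hd
  have hpos : 0 < addOrderOf y := hf.addOrderOf_pos
  have hm1 : m ≠ 0 := by
    rintro rfl
    omega
  refine orb_line hl.one_lt (hall l hl.one_le ?_) M (z := m • y)
    (fun σ hσ => stab_smul (hy σ hσ) m) ?_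
  · by_contra hcon
    push Not at hcon
    have h1 := (Nat.prime_dvd_prime_iff_eq hp hl).1 hcon.1
    have h2 := (Nat.prime_dvd_prime_iff_eq hq hl).1 hcon.2
    omega
  · rw [addOrderOf_nsmul' y hm1, hm, Nat.gcd_mul_left_left,
      Nat.mul_div_cancel _ (Nat.pos_of_ne_zero hm1)]

open scoped Classical in
theorem cy_lev {A B : ℚ} (M : IntermediateField ℚ (AlgebraicClosure ℚ))
    [FiniteDimensional ℚ M] {y : EP A B}
    (hy : ∀ σ ∈ M.fixingSubgroup, act A B σ y ∈ AddSubgroup.zmultiples y)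
    {n : ℕ} (hn : 1 ≤ n) (hord : addOrderOf y = n) (h : HasSLn A B n) :
    n ≤ Module.finrank ℚ M := by
  have hMpos : 0 < Module.finrank ℚ M := Module.finrank_pos
  rcases eq_or_lt_of_le hn with h1 | h1
  · omega
  · have := orb_line h1 h M hy hord
    omega

open scoped Classical in
/-- the order of a stable cyclic subgroup, small degrees -/
theorem cy_small {z : ℕ} {A B : ℚ} (h : Lrg z A B) (M : IntermediateField ℚ (AlgebraicClosure ℚ))
    [FiniteDimensional ℚ M] {y : EP A B}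
    (hy : ∀ σ ∈ M.fixingSubgroup, act A B σ y ∈ AddSubgroup.zmultiples y)
    (hf : IsOfFinAddOrder y) (hz : Module.finrank ℚ M ≤ z) :
    addOrderOf y ≤ Module.finrank ℚ M := by
  have hpr := fun (l : ℕ) (hl : l.Prime) => cy_prime h M hy hf (l := l) hl
  obtain ⟨p, q, hp, hq, hzp, hpq, hall⟩ := h
  have hpos : 0 < addOrderOf y := hf.addOrderOf_pos
  refine cy_lev M hy hpos rfl (hall _ hpos (Or.inl fun hd => ?_))
  have h1 := hpr p hp hd
  omega

open scoped Classical in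
/-- the order of a stable cyclic subgroup -/
theorem cy_all {z : ℕ} {A B : ℚ} (h : Lrg z A B) (M : IntermediateField ℚ (AlgebraicClosure ℚ))
    [FiniteDimensional ℚ M] {y : EP A B}
    (hy : ∀ σ ∈ M.fixingSubgroup, act A B σ y ∈ AddSubgroup.zmultiples y)
    (hf : IsOfFinAddOrder y) : addOrderOf y ≤ Module.finrank ℚ M ^ 2 := by
  obtain ⟨p, q, hp, hq, hzp, hpq, hall⟩ := h
  have hpos : 0 < addOrderOf y := hf.addOrderOf_pos
  obtain ⟨k, m, hm, hk⟩ := Nat.exists_eq_pow_mul_and_not_dvd hpos.ne' p hp.ne_one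
  have hm0 : m ≠ 0 := by
    rintro rfl
    exact hm (dvd_zero _)
  have hpk : 0 < p ^ k := pow_pos hp.pos k
  have e1 : m ≤ Module.finrank ℚ M := by
    refine cy_lev M (y := (p ^ k) • y) (fun σ hσ => stab_smul (hy σ hσ) _)
      (Nat.pos_of_ne_zero hm0) ?_ (hall m (Nat.pos_of_ne_zero hm0) (Or.inl hm))
    rw [addOrderOf_nsmul' y hpk.ne', hk, Nat.gcd_mul_right_left, Nat.mul_div_cancel_left _ hpk]
  have e2 : p ^ k ≤ Module.finrank ℚ M := by
    refine cy_lev M (y := m • y) (fun σ hσ => stab_smul (hy σ hσ) _) hpk ?_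
      (hall (p ^ k) hpk (Or.inr fun hd => ?_))
    · rw [addOrderOf_nsmul' y hm0, hk, Nat.gcd_mul_left_left,
        Nat.mul_div_cancel _ (Nat.pos_of_ne_zero hm0)]
    · have := (Nat.prime_dvd_prime_iff_eq hq hp).1 (hq.dvd_of_dvd_pow hd)
      omega
  rw [hk, pow_two]
  exact Nat.mul_le_mul e2 e1

open scoped Classical in
/-- **quotients of products by subgroups which are stable over an extension** -/
theorem tq_over (hT : S_TORSM) {z g : ℕ} {A B : Fin g → ℚ} (h : ∀ i, Lrg z (A i) (B i))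
    (M : IntermediateField ℚ (AlgebraicClosure ℚ)) [FiniteDimensional ℚ M]
    (Γ : AddSubgroup (∀ i, EP (A i) (B i))) (hfin : (Γ : Set (∀ i, EP (A i) (B i))).Finite)
    (hst : ∀ σ ∈ M.fixingSubgroup, ∀ x ∈ Γ, (fun i => act (A i) (B i) σ (x i)) ∈ Γ)
    {x : ∀ i, EP (A i) (B i)}
    (hx : ∀ σ ∈ M.fixingSubgroup, (fun i => act (A i) (B i) σ (x i) - x i) ∈ Γ)
    (hf : IsOfFinAddOrder (x : (∀ i, EP (A i) (B i)) ⧸ Γ)) :
    (∀ l : ℕ, l.Prime → l ∣ addOrderOf (x : (∀ i, EP (A i) (B i)) ⧸ Γ) →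
      l + 1 ≤ Module.finrank ℚ M) ∧
    addOrderOf (x : (∀ i, EP (A i) (B i)) ⧸ Γ) ≤ (2 * Module.finrank ℚ M ^ 3) ^ g ∧
    (2 * Module.finrank ℚ M ≤ z →
      addOrderOf (x : (∀ i, EP (A i) (B i)) ⧸ Γ) ^ 2 ≤ (2 * Module.finrank ℚ M ^ 3) ^ g) := by
  obtain ⟨c, w, hcw, hdvd⟩ := hT M.fixingSubgroup g
    (fun i => EP (A i) (B i)) (fun i σ => act (A i) (B i) σ.1)
    (fun i q hq => by
      obtain ⟨P, Q, h1, h2, h3, -⟩ := full_l (h i) hq
      exact ⟨P, Q, h1, h2, h3⟩) Γ hfin (fun σ y hy => hst σ.1 σ.2 y hy) x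
    (fun σ => hx σ.1 σ.2) hf
  have hc : ∀ i, ∀ σ ∈ M.fixingSubgroup, act (A i) (B i) σ (c i) ∈ AddSubgroup.zmultiples (c i) :=
    fun i σ hσ => (hcw i).2.2.1 ⟨σ, hσ⟩
  have hw : ∀ i, ∀ σ ∈ M.fixingSubgroup, act (A i) (B i) σ (w i) = w i :=
    fun i σ hσ => (hcw i).2.2.2 ⟨σ, hσ⟩
  have hw' : ∀ i, ∀ σ ∈ M.fixingSubgroup, act (A i) (B i) σ (w i) ∈ AddSubgroup.zmultiples (w i) := by
    intro i σ hσ
    rw [hw i σ hσ]
    exact AddSubgroup.mem_zmultiples _
  have hpos : 0 < ∏ i, (addOrderOf (c i) * addOrderOf (w i)) :=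
    Finset.prod_pos fun i _ => Nat.mul_pos (hcw i).1.addOrderOf_pos (hcw i).2.1.addOrderOf_pos
  have hMpos : 0 < Module.finrank ℚ M := Module.finrank_pos
  refine ⟨?_, ?_, ?_⟩
  · intro l hl hd
    obtain ⟨i, -, hi⟩ := (Prime.dvd_finsetProd_iff hl.prime _).1 (hd.trans hdvd)
    rcases (hl.dvd_mul).1 hi with h1 | h1
    · exact cy_prime (h i) M (hc i) (hcw i).1 hl h1
    · exact cy_prime (h i) M (hw' i) (hcw i).2.1 hl h1
  · refine (Nat.le_of_dvd hpos hdvd).trans ?_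
    refine (Finset.prod_le_prod' fun i _ => Nat.mul_le_mul (cy_all (h i) M (hc i) (hcw i).1)
      (tp_all (h i) M (hw i) (hcw i).2.1)).trans ?_
    rw [Finset.prod_const, Finset.card_univ, Fintype.card_fin]
    refine le_of_eq ?_
    congr 1
    ring
  · intro hz
    have hz2 : 2 * Module.finrank ℚ M < z ^ 2 := by nlinarith
    refine (Nat.pow_le_pow_left (Nat.le_of_dvd hpos hdvd) 2).trans ?_
    rw [← Finset.prod_pow]
    refine (Finset.prod_le_prod' (g := fun _ => 2 * Module.finrank ℚ M ^ 3) fun i _ => ?_).trans ?_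
    · rw [mul_pow]
      refine (Nat.mul_le_mul (Nat.pow_le_pow_left (cy_small (h i) M (hc i) (hcw i).1
        (by omega)) 2) (tp_small (h i) M (hw i) (hcw i).2.1 hz2)).trans ?_
      refine le_of_eq ?_
      ring
    · rw [Finset.prod_const, Finset.card_univ, Fintype.card_fin]

end Pool.Agent.N495.TS
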