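import Pool.Agent.N495.TS.Mul

/-!
Examples of families with rich fibres (helper495).
-/

set_option autoImplicit false
set_option linter.unusedSectionVars false

namespace Pool.Agent.N495.TS

open MvPolynomial

theorem ncard_ge {α β : Type} [Finite β] (f : α → β) (hf : Function.Injective f) (T : Set β)
    (h : ∀ x, f x ∈ T) : Nat.card α ≤ T.ncard := by
  rw [← Set.ncard_univ α, ← Set.ncard_image_of_injective Set.univ hf]
  refine Set.ncard_le_ncard ?_ (Set.toFinite _)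
  rintro _ ⟨x, -, rfl⟩
  exact h x

theorem half_le {p : ℕ} (hp : p.Prime) : (p : ℝ) / 2 ≤ ((p - 1 : ℕ) : ℝ) := by
  have h2 := hp.two_le
  rw [Nat.cast_sub (by omega)]
  have : (2 : ℝ) ≤ p := by exact_mod_cast h2
  push_cast
  linarith

/-- the quotient of two coordinates -/
theorem rich_quot : Rich (X 0 : MvPolynomial (Fin 2) ℤ) (X 1) := by
  classical
  refine ⟨1 / 2, 1, 0, by norm_num, one_ne_zero, fun p hp _ t _ => ?_⟩
  have : Fact p.Prime := ⟨hp⟩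
  have h1 := ncard_ge (fun (s : (ZMod p)ˣ) => (![(t : ZMod p) * (s : ZMod p), (s : ZMod p)] : Fin 2 → ZMod p))
    (by
      intro s s' h
      have := congrFun h 1
      simp only [Matrix.cons_val_one, Matrix.cons_val_fin_one] at this
      exact Units.ext this)
    {ρ : Fin 2 → ZMod p | aeval ρ (X 0 : MvPolynomial (Fin 2) ℤ) =
      (t : ZMod p) * aeval ρ (X 1 : MvPolynomial (Fin 2) ℤ) ∧ aeval ρ (X 1 : MvPolynomial (Fin 2) ℤ) ≠ 0}
    (by
      intro s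
      simp)
  rw [Nat.card_eq_fintype_card, ZMod.card_units] at h1
  have h2 : ((p - 1 : ℕ) : ℝ) ≤ _ := Nat.cast_le.2 h1
  have h3 := half_le hp
  have hp0 : (0 : ℝ) < p := by exact_mod_cast hp.pos
  rw [Fintype.card_fin]
  calc 1 / 2 * (p : ℝ) ^ 2 = p * ((p : ℝ) / 2) := by ring
    _ ≤ _ := mul_le_mul_of_nonneg_left (h3.trans h2) hp0.le

/-- one coordinate -/
theorem rich_one : Rich (X 0 : MvPolynomial (Fin 1) ℤ) 1 := by
  classical
  refine ⟨1, 1, 0, one_pos, one_ne_zero, fun p hp _ t _ => ?_⟩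
  have : Fact p.Prime := ⟨hp⟩
  have h1 : 1 ≤ {ρ : Fin 1 → ZMod p | aeval ρ (X 0 : MvPolynomial (Fin 1) ℤ) =
      (t : ZMod p) * aeval ρ (1 : MvPolynomial (Fin 1) ℤ) ∧
        aeval ρ (1 : MvPolynomial (Fin 1) ℤ) ≠ 0}.ncard := by
    rw [Nat.one_le_iff_ne_zero]
    refine (Set.ncard_pos (Set.toFinite _)).2 ⟨fun _ => (t : ZMod p), ?_⟩ |>.ne'
    simp
  have h2 := Nat.one_le_cast (α := ℝ) |>.2 h1
  have hp0 : (0 : ℝ) < p := by exact_mod_cast hp.pos
  rw [Fintype.card_fin, pow_one, one_mul]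
  calc (p : ℝ) = p * 1 := (mul_one _).symm
    _ ≤ _ := mul_le_mul_of_nonneg_left h2 hp0.le

theorem unit_of {p : ℕ} (hp : p.Prime) (h3 : 3 < p) : (2 : ZMod p) ≠ 0 ∧ (3 : ZMod p) ≠ 0 := by
  have : Fact p.Prime := ⟨hp⟩
  constructor
  · intro h
    have h1 : ((2 : ℕ) : ZMod p) = 0 := by exact_mod_cast h
    rw [ZMod.natCast_eq_zero_iff] at h1
    have := Nat.le_of_dvd (by norm_num) h1
    omega
  · intro h
    have h1 : ((3 : ℕ) : ZMod p) = 0 := by exact_mod_cast h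
    rw [ZMod.natCast_eq_zero_iff] at h1
    have := Nat.le_of_dvd (by norm_num) h1
    omega

/-- the parameters to be avoided -/
noncomputable def gg : Polynomial ℤ := Polynomial.X * (Polynomial.X - Polynomial.C 1728)

theorem gg_ne : gg ≠ 0 := by
  intro h
  have := congrArg (Polynomial.eval 1) h
  unfold gg at this
  simp at this

theorem gg_eval {p : ℕ} [Fact p.Prime] {t : ℤ} (h : ¬ (p : ℤ) ∣ gg.eval t) :
    (t : ZMod p) ≠ 0 ∧ (t : ZMod p) - 1728 ≠ 0 := by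
  have h1 : ((gg.eval t : ℤ) : ZMod p) ≠ 0 := by
    intro h0
    exact h ((ZMod.intCast_zmod_eq_zero_iff_dvd _ _).1 h0)
  unfold gg at h1
  rw [Polynomial.eval_mul, Polynomial.eval_sub, Polynomial.eval_X, Polynomial.eval_C] at h1
  push_cast at h1
  exact ⟨left_ne_zero_of_mul h1, right_ne_zero_of_mul h1⟩

/-- `y² = x³ + ax + b` -/
theorem rich_short : Rich (C 6912 * X 0 ^ 3 : MvPolynomial (Fin 2) ℤ)
    (C 4 * X 0 ^ 3 + C 27 * X 1 ^ 2) := by
  classical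
  refine ⟨1 / 2, gg, 3, by norm_num, gg_ne, fun p hp hp3 t ht => ?_⟩
  have : Fact p.Prime := ⟨hp⟩
  obtain ⟨ht0, ht1⟩ := gg_eval ht
  obtain ⟨h2, h3⟩ := unit_of hp hp3
  set τ : ZMod p := (t : ZMod p) with hτ
  have hal : -3 * τ * (τ - 1728) ≠ 0 :=
    mul_ne_zero (mul_ne_zero (neg_ne_zero.2 h3) ht0) ht1
  have hbe : -2 * τ * (τ - 1728) ^ 2 ≠ 0 :=
    mul_ne_zero (mul_ne_zero (neg_ne_zero.2 h2) ht0) (pow_ne_zero 2 ht1)
  have h1 := ncard_ge (fun (s : (ZMod p)ˣ) => (![-3 * τ * (τ - 1728) * (s : ZMod p) ^ 2,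
      -2 * τ * (τ - 1728) ^ 2 * (s : ZMod p) ^ 3] : Fin 2 → ZMod p))
    (by
      intro s s' h
      have e0 := congrFun h 0
      have e1 := congrFun h 1
      simp only [Matrix.cons_val_zero, Matrix.cons_val_one] at e0 e1
      have f0 := mul_left_cancel₀ hal e0
      have f1 := mul_left_cancel₀ hbe e1
      have hs : (s : ZMod p) ≠ 0 := s.ne_zero
      have hs' : (s' : ZMod p) ≠ 0 := s'.ne_zero
      apply Units.ext
      have f2 : (s : ZMod p) ^ 2 * (s : ZMod p) = (s : ZMod p) ^ 2 * (s' : ZMod p) := by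
        have : (s' : ZMod p) ^ 3 = (s' : ZMod p) ^ 2 * (s' : ZMod p) := by ring
        rw [f0, ← this, ← f1, ← f0]
        ring
      exact mul_left_cancel₀ (pow_ne_zero 2 hs) f2)
    {ρ : Fin 2 → ZMod p | aeval ρ (C 6912 * X 0 ^ 3 : MvPolynomial (Fin 2) ℤ) =
      τ * aeval ρ (C 4 * X 0 ^ 3 + C 27 * X 1 ^ 2 : MvPolynomial (Fin 2) ℤ) ∧
        aeval ρ (C 4 * X 0 ^ 3 + C 27 * X 1 ^ 2 : MvPolynomial (Fin 2) ℤ) ≠ 0}
    (by
      intro s
      have hs : (s : ZMod p) ≠ 0 := s.ne_zero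
      have hcast : ∀ z : ℤ, (algebraMap ℤ (ZMod p)) z = (z : ZMod p) := fun z => rfl
      simp only [Set.mem_ofPred_eq, map_add, map_mul, map_pow, aeval_C, aeval_X, hcast,
        Matrix.cons_val_zero, Matrix.cons_val_one]
      push_cast
      constructor
      · ring
      · have e : 4 * (-3 * τ * (τ - 1728) * (s : ZMod p) ^ 2) ^ 3 +
            27 * (-2 * τ * (τ - 1728) ^ 2 * (s : ZMod p) ^ 3) ^ 2 =
            -(2 ^ 8 * 3 ^ 6 * τ ^ 2 * (τ - 1728) ^ 3 * (s : ZMod p) ^ 6) := by ring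
        rw [e]
        exact neg_ne_zero.2 (mul_ne_zero (mul_ne_zero (mul_ne_zero (mul_ne_zero (pow_ne_zero _ h2)
          (pow_ne_zero _ h3)) (pow_ne_zero _ ht0)) (pow_ne_zero _ ht1)) (pow_ne_zero _ hs)))
  rw [Nat.card_eq_fintype_card, ZMod.card_units] at h1
  have h4 : ((p - 1 : ℕ) : ℝ) ≤ _ := Nat.cast_le.2 h1
  have h5 := half_le hp
  have hp0 : (0 : ℝ) < p := by exact_mod_cast hp.pos
  rw [Fintype.card_fin]
  calc 1 / 2 * (p : ℝ) ^ 2 = p * ((p : ℝ) / 2) := by ring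
    _ ≤ _ := mul_le_mul_of_nonneg_left (h5.trans h4) hp0.le

end Pool.Agent.N495.TS
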