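import Mathlib

/-!
# Statement of a part (helper495): lifting simple zeros
-/

set_option autoImplicit false

namespace Pool.Agent.N495.TS

/-- a simple zero modulo `p` of a polynomial has at least `p ^ s / 2` lifts modulo `p²` which are not
zeros -/
def S_TAY : Prop :=
  ∀ (ι : Type) [Fintype ι] [DecidableEq ι] (V : MvPolynomial ι ℤ) (p : ℕ), p.Prime →
    ∀ c : ι → ℤ, (p : ℤ) ∣ MvPolynomial.eval c V →
    (∃ i, ¬ (p : ℤ) ∣ MvPolynomial.eval c (MvPolynomial.pderiv i V)) →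
    p ^ Fintype.card ι ≤ 2 * {r : ι → ZMod (p ^ 2) |
      (∀ i, ∃ z : ℤ, r i = ((c i + p * z : ℤ) : ZMod (p ^ 2))) ∧ MvPolynomial.aeval r V ≠ 0}.ncard

end Pool.Agent.N495.TS
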