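import Pool.Agent.N603.TH.Sieve
import Pool.Agent.N495.TS.StmU

/-!
Primes which divide the values of a polynomial exactly once, for almost all members of a thin sequence
(helper495).
-/

set_option autoImplicit false
set_option linter.unusedSectionVars false

namespace Pool.Agent.N495.TS

open Finset Filter MvPolynomial Pool.Agent.N666.TM Pool.Agent.Y722.HS Pool.Agent.N603.TH

/-- simple zeros of `V` which are not zeros of `U`, modulo many primes -/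
def Poles {ι : Type} [Fintype ι] (U V : MvPolynomial ι ℤ) : Prop :=
  ∃ δ : ℝ, 0 < δ ∧ ¬ Summable fun p : ℕ => if p.Prime ∧ δ * (p : ℝ) ^ Fintype.card ι ≤
    p * ({ρ : ι → ZMod p | aeval ρ V = 0 ∧ aeval ρ U ≠ 0 ∧ ∃ i, aeval ρ (pderiv i V) ≠ 0}.ncard : ℝ)
    then (1 / p : ℝ) else 0

/-- `U / V` has a simple pole at `p` -/
def Sim {ι : Type} (U V : MvPolynomial ι ℤ) (v : ι → ℤ) (p : ℕ) : Prop :=
  (p : ℤ) ∣ eval v V ∧ ¬ (p : ℤ) ^ 2 ∣ eval v V ∧ ¬ (p : ℤ) ∣ eval v U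

/-- the residue classes -/
def Om {ι : Type} (U V : MvPolynomial ι ℤ) (p : ℕ) : Set (ι → ZMod (p ^ 2)) :=
  {r | aeval r V ≠ 0 ∧ ∃ c : ι → ℤ, red (p ^ 2) c = r ∧ (p : ℤ) ∣ eval c V ∧ ¬ (p : ℤ) ∣ eval c U}

theorem aeval_red' {ι : Type} (q : ℕ) (c : ι → ℤ) (F : MvPolynomial ι ℤ) :
    aeval (red q c) F = ((eval c F : ℤ) : ZMod q) := by
  rw [aeval_def]
  exact (MvPolynomial.eval₂_comp (Int.castRingHom (ZMod q)) c F).symm

section
variable {ι : Type} [Fintype ι] [DecidableEq ι]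

theorem sim_of {U V : MvPolynomial ι ℤ} {p : ℕ} {c : ι → ℤ}
    (h : red (p ^ 2) c ∈ Om U V p) : Sim U V c p := by
  obtain ⟨h1, c', h2, h3, h4⟩ := h
  have hcc : ∀ F : MvPolynomial ι ℤ, ((p : ℤ) ^ 2) ∣ eval c F - eval c' F := by
    intro F
    have e1 := aeval_red' (p ^ 2) c F
    have e2 := aeval_red' (p ^ 2) c' F
    rw [h2, e1] at e2
    have e3 : ((p ^ 2 : ℕ) : ℤ) ∣ eval c F - eval c' F := by
      rw [← ZMod.intCast_zmod_eq_zero_iff_dvd]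
      push_cast
      rw [e2, sub_self]
    push_cast at e3
    exact e3
  have hdvd : (p : ℤ) ∣ (p : ℤ) ^ 2 := dvd_pow_self _ two_ne_zero
  refine ⟨?_, ?_, ?_⟩
  · have := (hdvd.trans (hcc V))
    have h5 := dvd_add this h3
    rwa [sub_add_cancel] at h5
  · intro h5
    apply h1
    rw [aeval_red', ZMod.intCast_zmod_eq_zero_iff_dvd]
    push_cast
    exact h5
  · intro h5
    apply h4
    have := (hdvd.trans (hcc U))
    have h6 := dvd_sub h5 this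
    rwa [sub_sub_cancel] at h6

theorem om_dens (hT : S_TAY) (U V : MvPolynomial ι ℤ) {p : ℕ} (hp : p.Prime) {δ : ℝ}
    (h : δ * (p : ℝ) ^ Fintype.card ι ≤ p * ({ρ : ι → ZMod p | aeval ρ V = 0 ∧ aeval ρ U ≠ 0 ∧
      ∃ i, aeval ρ (pderiv i V) ≠ 0}.ncard : ℝ)) : δ / 2 * (1 / p) ≤ Pool.Agent.N666.TM.dens (Om U V p) := by
  classical
  haveI : NeZero p := ⟨hp.ne_zero⟩
  haveI : NeZero (p ^ 2) := ⟨pow_ne_zero 2 hp.ne_zero⟩
  set Z : Set (ι → ZMod p) := {ρ : ι → ZMod p | aeval ρ V = 0 ∧ aeval ρ U ≠ 0 ∧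
      ∃ i, aeval ρ (pderiv i V) ≠ 0} with hZ
  have hp0 : (0 : ℝ) < p := by exact_mod_cast hp.pos
  -- lifts
  set s := Fintype.card ι with hs
  let lift : (ι → ZMod p) → (ι → ℤ) := fun ρ i => ((ρ i).val : ℤ)
  have hlift : ∀ ρ, red p (lift ρ) = ρ := by
    intro ρ
    funext i
    simp [red, lift]
  let T : (ι → ZMod p) → Set (ι → ZMod (p ^ 2)) := fun ρ =>
    {r | (∀ i, ∃ z : ℤ, r i = ((lift ρ i + p * z : ℤ) : ZMod (p ^ 2))) ∧ aeval r V ≠ 0}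
  have hTcard : ∀ ρ ∈ Z, p ^ s ≤ 2 * (T ρ).ncard := by
    rintro ρ ⟨z1, z2, i, z3⟩
    refine hT ι V p hp (lift ρ) ?_ ⟨i, ?_⟩
    · rw [← ZMod.intCast_zmod_eq_zero_iff_dvd, ← aeval_red', hlift]
      exact z1
    · rw [← ZMod.intCast_zmod_eq_zero_iff_dvd, ← aeval_red', hlift]
      exact z3
  have hTsub : ∀ ρ ∈ Z, T ρ ⊆ Om U V p := by
    rintro ρ ⟨z1, z2, -⟩ r ⟨hr, hr2⟩
    choose z hz using hr
    refine ⟨hr2, fun i => lift ρ i + p * z i, ?_, ?_, ?_⟩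
    · funext i
      rw [hz i]
      rfl
    · have hred : red p (fun i => lift ρ i + p * z i) = ρ := by
        rw [← hlift ρ]
        funext i
        simp [red, hlift]
      rw [← ZMod.intCast_zmod_eq_zero_iff_dvd, ← aeval_red', hred]
      exact z1
    · have hred : red p (fun i => lift ρ i + p * z i) = ρ := by
        rw [← hlift ρ]
        funext i
        simp [red, hlift]
      rw [← ZMod.intCast_zmod_eq_zero_iff_dvd, ← aeval_red', hred]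
      exact z2
  have hTdisj : ∀ ρ ρ' : ι → ZMod p, ρ ≠ ρ' → Disjoint (T ρ) (T ρ') := by
    intro ρ ρ' hne
    rw [Set.disjoint_left]
    rintro r ⟨h1, -⟩ ⟨h2, -⟩
    apply hne
    funext i
    obtain ⟨z, hz⟩ := h1 i
    obtain ⟨z', hz'⟩ := h2 i
    rw [hz] at hz'
    have h3 := (ZMod.intCast_eq_intCast_iff _ _ _).1 hz'
    have h4 : ((p ^ 2 : ℕ) : ℤ) ∣ (lift ρ' i + p * z') - (lift ρ i + p * z) := h3.dvd
    have h5 : (p : ℤ) ∣ (lift ρ' i + p * z') - (lift ρ i + p * z) := by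
      refine Dvd.dvd.trans ?_ h4
      push_cast
      exact dvd_pow_self _ two_ne_zero
    have h6 : ((lift ρ' i : ℤ) : ZMod p) = ((lift ρ i : ℤ) : ZMod p) := by
      have h7 := (ZMod.intCast_zmod_eq_zero_iff_dvd _ p).2 h5
      push_cast at h7
      simp only [CharP.cast_eq_zero, zero_mul, add_zero] at h7
      exact sub_eq_zero.1 h7
    have h7 := congrFun (hlift ρ) i
    have h8 := congrFun (hlift ρ') i
    unfold red at h7 h8
    rw [← h7, ← h8, h6]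
  have hcount : Z.ncard * p ^ s ≤ 2 * (Om U V p).ncard := by
    have hfin : Z.Finite := Set.toFinite _
    have h1 : (⋃ ρ ∈ hfin.toFinset, T ρ) ⊆ Om U V p := by
      intro r hr
      simp only [Set.mem_iUnion] at hr
      obtain ⟨ρ, hρ, hr⟩ := hr
      exact hTsub ρ (hfin.mem_toFinset.1 hρ) hr
    have h2 : (⋃ ρ ∈ hfin.toFinset, T ρ).ncard = ∑ ρ ∈ hfin.toFinset, (T ρ).ncard := by
      have key : ∀ A : Finset (ι → ZMod p),
          (⋃ ρ ∈ A, T ρ).ncard = ∑ ρ ∈ A, (T ρ).ncard := by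
        intro A
        induction A using Finset.induction_on with
        | empty => simp
        | insert ρ A hρ ih =>
          rw [Finset.set_biUnion_insert, Set.ncard_union_eq ?_ (Set.toFinite _) (Set.toFinite _),
            Finset.sum_insert hρ, ih]
          rw [Set.disjoint_iUnion₂_right]
          intro ρ' hρ'
          exact hTdisj ρ ρ' (fun h => hρ (h ▸ hρ'))
      exact key _
    have h3 : Z.ncard * p ^ s ≤ ∑ ρ ∈ hfin.toFinset, 2 * (T ρ).ncard := by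
      rw [Set.ncard_eq_toFinset_card Z hfin, ← smul_eq_mul]
      exact Finset.card_nsmul_le_sum _ _ _ fun ρ hρ => hTcard ρ (hfin.mem_toFinset.1 hρ)
    rw [← Finset.mul_sum, ← h2] at h3
    refine h3.trans ?_
    exact Nat.mul_le_mul_left 2 (Set.ncard_le_ncard h1 (Set.toFinite _))
  have hcount' : (Z.ncard : ℝ) * (p : ℝ) ^ s ≤ 2 * ((Om U V p).ncard : ℝ) := by exact_mod_cast hcount
  unfold Pool.Agent.N666.TM.dens
  rw [← hs]
  push_cast
  have hps : (0 : ℝ) < (p : ℝ) ^ s := by positivity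
  rw [← pow_mul, mul_comm 2 s, pow_mul, mul_one_div, div_div, div_le_div_iff₀ (by positivity)
    (by positivity)]
  have e1 : δ * ((p : ℝ) ^ s) ^ 2 ≤ (p * Z.ncard) * (p : ℝ) ^ s := by
    have := mul_le_mul_of_nonneg_right h hps.le
    calc δ * ((p : ℝ) ^ s) ^ 2 = δ * (p : ℝ) ^ s * (p : ℝ) ^ s := by ring
      _ ≤ _ := this
  nlinarith

/-- hits in a finite set of primes -/
theorem hit (hT : S_TAY) {U V : MvPolynomial ι ℤ} (h : Poles U V)
    {S : ℕ → Finset ℕ} {x : ℕ → ι → ℤ} {κ : ℝ} (hκ : 0 < κ)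
    (hw : ∃ N₀ : ℕ, ∀ N : ℕ, N₀ ≤ N → ∀ H : ℕ, (H : ℝ) ≤ (N : ℝ) ^ κ → Well (S N) x H)
    (D : ℕ) {ε : ℝ} (hε : 0 < ε) : ∃ y N₀ : ℕ, ∀ N : ℕ, N₀ ≤ N →
      ({n : ℕ | n ∈ S N ∧ ∀ p : ℕ, p.Prime → D < p → p < y → ¬ Sim U V (x n) p}.ncard : ℝ) ≤
        ε * (S N).card := by
  classical
  obtain ⟨δ, hδ, hns⟩ := h
  obtain ⟨N₁, hN₁⟩ := hw
  set ε' : ℝ := ε / 2 with hε'
  have hε'0 : 0 < ε' := by positivity
  set G : Set ℕ := {p | p.Prime ∧ δ * (p : ℝ) ^ Fintype.card ι ≤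
    p * ({ρ : ι → ZMod p | aeval ρ V = 0 ∧ aeval ρ U ≠ 0 ∧ ∃ i, aeval ρ (pderiv i V) ≠ 0}.ncard : ℝ)}
    with hG
  obtain ⟨y, hy⟩ : ∃ y : ℕ, 2 / ε' / (δ / 2) ≤ ∑ p ∈ Finset.range y,
      (if D < p ∧ p ∈ G then (1 / p : ℝ) else 0) := by
    have hns' : ¬ Summable (fun p : ℕ => if D < p ∧ p ∈ G then (1 / p : ℝ) else 0) := by
      intro hsum
      apply hns
      refine (summable_congr_cofinite ?_).mp hsum
      rw [Filter.eventuallyEq_iff_exists_mem]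
      refine ⟨{p | D < p}, ?_, ?_⟩
      · rw [Nat.cofinite_eq_atTop]
        exact Ioi_mem_atTop D
      · intro p hp
        have hp' : D < p := hp
        simp only [hp', true_and]
        rfl
    have hnn : ∀ p : ℕ, 0 ≤ (if D < p ∧ p ∈ G then (1 / p : ℝ) else 0) := by
      intro p
      split_ifs
      · positivity
      · exact le_rfl
    have ht := (not_summable_iff_tendsto_nat_atTop_of_nonneg hnn).mp hns'
    obtain ⟨y, hy⟩ := (ht.eventually_ge_atTop (2 / ε' / (δ / 2))).exists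
    exact ⟨y, hy⟩
  set P : Finset ℕ := (Finset.range y).filter (fun p => D < p ∧ p ∈ G) with hP
  have hPm : ∀ p ∈ P, p < y ∧ p.Prime ∧ D < p ∧ p ∈ G := by
    intro p hp
    simp only [hP, Finset.mem_filter, Finset.mem_range] at hp
    exact ⟨hp.1, hp.2.2.1, hp.2.1, hp.2.2⟩
  have hPsum : 2 / ε' ≤ ∑ p ∈ P, Pool.Agent.N666.TM.dens (Om U V p) := by
    have h1 : ∑ p ∈ P, (δ / 2) * (1 / p : ℝ) ≤ ∑ p ∈ P, Pool.Agent.N666.TM.dens (Om U V p) := by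
      refine Finset.sum_le_sum fun p hp => ?_
      obtain ⟨-, h2, -, h3⟩ := hPm p hp
      exact om_dens hT U V h2 h3.2
    refine le_trans ?_ h1
    rw [← Finset.mul_sum, hP, Finset.sum_filter]
    rw [div_le_iff₀ (by positivity)] at hy
    linarith
  have hev : ∀ᶠ N : ℕ in atTop, ((y ^ 4 + ⌈4 / ε'⌉₊ : ℕ) : ℝ) ≤ (N : ℝ) ^ κ := by
    have h1 : Tendsto (fun N : ℕ => (N : ℝ) ^ κ) atTop atTop :=
      (tendsto_rpow_atTop hκ).comp tendsto_natCast_atTop_atTop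
    exact h1.eventually_ge_atTop _
  obtain ⟨N₂, hN₂⟩ := eventually_atTop.mp hev
  refine ⟨y, max N₁ N₂, fun N hN => ?_⟩
  set H : ℕ := y ^ 4 + ⌈4 / ε'⌉₊ with hH
  have hws := hN₁ N ((le_max_left _ _).trans hN) H (hN₂ N ((le_max_right _ _).trans hN))
  have hμ0 : 0 < ∑ p ∈ P, Pool.Agent.N666.TM.dens (Om U V p) := lt_of_lt_of_le (by positivity) hPsum
  have h1 := turan hws P (fun p => p ^ 2) (fun p hp => pow_pos (hPm p hp).2.1.pos 2)
    (fun p hp p' hp' hne => Nat.Coprime.pow 2 2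
      ((Nat.coprime_primes (hPm p hp).2.1 (hPm p' hp').2.1).mpr hne))
    (fun p hp p' hp' => by
      calc p ^ 2 * p' ^ 2 ≤ y ^ 2 * y ^ 2 := Nat.mul_le_mul
            (Nat.pow_le_pow_left (hPm p hp).1.le 2) (Nat.pow_le_pow_left (hPm p' hp').1.le 2)
        _ = y ^ 4 := by ring
        _ ≤ 2 * H + 1 := by omega)
    (fun p => Om U V p) _ rfl hμ0
  have h2 : 2 / (∑ p ∈ P, Pool.Agent.N666.TM.dens (Om U V p)) ≤ ε' := by
    rw [div_le_iff₀ hμ0]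
    rw [div_le_iff₀ hε'0] at hPsum
    linarith
  have h3 : (4 : ℝ) / (2 * H + 1) ≤ ε' := by
    have h4 : 4 / ε' ≤ (H : ℝ) :=
      (Nat.le_ceil _).trans (by exact_mod_cast (by omega : ⌈4 / ε'⌉₊ ≤ H))
    rw [div_le_iff₀ hε'0] at h4
    rw [div_le_iff₀ (by positivity)]
    nlinarith
  have hsub : {n : ℕ | n ∈ S N ∧ ∀ p : ℕ, p.Prime → D < p → p < y → ¬ Sim U V (x n) p} ⊆
      ↑((S N).filter fun n => ∀ p ∈ P, red (p ^ 2) (x n) ∉ Om U V p) := by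
    rintro n ⟨hn, hn'⟩
    exact Finset.mem_coe.2 (Finset.mem_filter.2 ⟨hn, fun p hp hmem =>
      hn' p (hPm p hp).2.1 (hPm p hp).2.2.1 (hPm p hp).1 (sim_of hmem)⟩)
  have h5 := Set.ncard_le_ncard hsub (Finset.finite_toSet _)
  rw [Set.ncard_coe_finset] at h5
  calc (({n : ℕ | n ∈ S N ∧ ∀ p : ℕ, p.Prime → D < p → p < y → ¬ Sim U V (x n) p}.ncard : ℕ) : ℝ)
      ≤ (((S N).filter fun n => ∀ p ∈ P, red (p ^ 2) (x n) ∉ Om U V p).card : ℝ) := by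
        exact_mod_cast h5
    _ ≤ (2 / (∑ p ∈ P, Pool.Agent.N666.TM.dens (Om U V p)) + 4 / (2 * H + 1)) * (S N).card := h1
    _ ≤ (ε' + ε') * (S N).card := by gcongr
    _ = ε * (S N).card := by rw [hε']; ring

/-- two simple poles beyond a given bound -/
theorem null_sim (hT : S_TAY) {U V : MvPolynomial ι ℤ} (h : Poles U V)
    {S : ℕ → Finset ℕ} {x : ℕ → ι → ℤ} {κ : ℝ} (hκ : 0 < κ)
    (hw : ∃ N₀ : ℕ, ∀ N : ℕ, N₀ ≤ N → ∀ H : ℕ, (H : ℝ) ≤ (N : ℝ) ^ κ → Well (S N) x H)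
    (z : ℕ) : NullIn S {n | ¬ ∃ p q : ℕ, p.Prime ∧ q.Prime ∧ z < p ∧ p < q ∧ Sim U V (x n) p ∧
      Sim U V (x n) q} := by
  intro ε hε
  obtain ⟨y₁, N₁, h₁⟩ := hit hT h hκ hw z (show 0 < ε / 2 by positivity)
  obtain ⟨y₂, N₂, h₂⟩ := hit hT h hκ hw (max z y₁) (show 0 < ε / 2 by positivity)
  refine ⟨max N₁ N₂, fun N hN => ?_⟩
  have e1 := h₁ N (by omega)
  have e2 := h₂ N (by omega)
  have hsub : {t : ℕ | t ∈ S N ∧ t ∈ {n | ¬ ∃ p q : ℕ, p.Prime ∧ q.Prime ∧ z < p ∧ p < q ∧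
      Sim U V (x n) p ∧ Sim U V (x n) q}} ⊆
      {n : ℕ | n ∈ S N ∧ ∀ p : ℕ, p.Prime → z < p → p < y₁ → ¬ Sim U V (x n) p} ∪
      {n : ℕ | n ∈ S N ∧ ∀ p : ℕ, p.Prime → max z y₁ < p → p < y₂ → ¬ Sim U V (x n) p} := by
    rintro n ⟨hn, hn'⟩
    by_contra hcon
    simp only [Set.mem_union, Set.mem_ofPred_eq, not_or, not_and, not_forall, not_not] at hcon
    obtain ⟨p, hp, hp1, hp2, hp3⟩ := hcon.1 hn
    obtain ⟨q, hq, hq1, hq2, hq3⟩ := hcon.2 hn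
    exact hn' ⟨p, q, hp, hq, hp1, by omega, hp3, hq3⟩
  have e3 := Set.ncard_le_ncard hsub (((S N).finite_toSet.subset fun t ht => ht.1).union
    ((S N).finite_toSet.subset fun t ht => ht.1))
  have e4 := e3.trans (Set.ncard_union_le _ _)
  have e5 : (({t : ℕ | t ∈ S N ∧ t ∈ {n | ¬ ∃ p q : ℕ, p.Prime ∧ q.Prime ∧ z < p ∧ p < q ∧
      Sim U V (x n) p ∧ Sim U V (x n) q}}.ncard : ℕ) : ℝ) ≤
      ({n : ℕ | n ∈ S N ∧ ∀ p : ℕ, p.Prime → z < p → p < y₁ → ¬ Sim U V (x n) p}.ncard : ℝ) +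
      ({n : ℕ | n ∈ S N ∧ ∀ p : ℕ, p.Prime → max z y₁ < p → p < y₂ →
        ¬ Sim U V (x n) p}.ncard : ℝ) := by exact_mod_cast e4
  refine e5.trans ?_
  linarith

end

end Pool.Agent.N495.TS
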