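import Mathlib

/-!
# Statements of parts (helper495): simple zeros of two polynomials; growth of generalised polynomials
-/

set_option autoImplicit false

namespace Pool.Agent.N495.TS

open MvPolynomial Filter

/-- many simple zeros of `4X³ + 27Y²` and of `Y` modulo `p` -/
def S_EXZ : Prop :=
  ∀ p : ℕ, p.Prime → 5 ≤ p →
    (p - 1 ≤ {ρ : Fin 2 → ZMod p |
      aeval ρ (C 4 * X 0 ^ 3 + C 27 * X 1 ^ 2 : MvPolynomial (Fin 2) ℤ) = 0 ∧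
      aeval ρ (C 6912 * X 0 ^ 3 : MvPolynomial (Fin 2) ℤ) ≠ 0 ∧
      ∃ i, aeval ρ (pderiv i (C 4 * X 0 ^ 3 + C 27 * X 1 ^ 2 : MvPolynomial (Fin 2) ℤ)) ≠ 0}.ncard) ∧
    (p - 1 ≤ {ρ : Fin 2 → ZMod p |
      aeval ρ (X 1 : MvPolynomial (Fin 2) ℤ) = 0 ∧
      aeval ρ (X 0 : MvPolynomial (Fin 2) ℤ) ≠ 0 ∧
      ∃ i, aeval ρ (pderiv i (X 1 : MvPolynomial (Fin 2) ℤ)) ≠ 0}.ncard)

/-- the integer parts of the values of a generalised polynomial grow like the leading term -/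
def S_GRO : Prop :=
  ∀ (F : Finset ℝ) (a : ℝ → ℝ) (c : ℝ), c ∈ F → (∀ t ∈ F, t ≤ c) → 0 < c →
    Tendsto (fun n : ℕ => ((⌊∑ t ∈ F, a t * (n : ℝ) ^ t⌋ : ℤ) : ℝ) / (n : ℝ) ^ c) atTop
      (nhds (a c))

end Pool.Agent.N495.TS
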