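import Pool.Agent.N495.TS.Ex
import Pool.Agent.N495.TS.Sim
import Pool.Agent.N495.TS.StmE
import Pool.Agent.N666.TM.Thin

/-!
Examples of families with many simple poles and bounded invariant (helper495).
-/

set_option autoImplicit false
set_option linter.unusedSectionVars false

namespace Pool.Agent.N495.TS

open MvPolynomial Filter
open Pool.Agent.N666.TM (fl)

theorem poles_of {U V : MvPolynomial (Fin 2) ℤ} (h : ∀ p : ℕ, p.Prime → 5 ≤ p →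
    p - 1 ≤ {ρ : Fin 2 → ZMod p | aeval ρ V = 0 ∧ aeval ρ U ≠ 0 ∧
      ∃ i, aeval ρ (pderiv i V) ≠ 0}.ncard) : Poles U V := by
  refine ⟨1 / 2, by norm_num, fun hs => ?_⟩
  apply not_summable_one_div_on_primes
  refine (summable_congr_cofinite ?_).mp hs
  rw [Filter.eventuallyEq_iff_exists_mem]
  refine ⟨{p | 5 ≤ p}, ?_, ?_⟩
  · rw [Nat.cofinite_eq_atTop]
    exact Ici_mem_atTop 5
  · intro p hp
    have hp' : 5 ≤ p := hp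
    by_cases hpr : p.Prime
    · have h1 := h p hpr hp'
      have h2 := half_le hpr
      have h3 : ((p - 1 : ℕ) : ℝ) ≤ ({ρ : Fin 2 → ZMod p | aeval ρ V = 0 ∧ aeval ρ U ≠ 0 ∧
        ∃ i, aeval ρ (pderiv i V) ≠ 0}.ncard : ℝ) := by exact_mod_cast h1
      have hp0 : (0 : ℝ) < p := by exact_mod_cast hpr.pos
      have h4 : 1 / 2 * (p : ℝ) ^ Fintype.card (Fin 2) ≤
          p * ({ρ : Fin 2 → ZMod p | aeval ρ V = 0 ∧ aeval ρ U ≠ 0 ∧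
            ∃ i, aeval ρ (pderiv i V) ≠ 0}.ncard : ℝ) := by
        rw [Fintype.card_fin]
        nlinarith
      beta_reduce
      rw [if_pos ⟨hpr, h4⟩, Set.indicator_of_mem (show p ∈ {p | Nat.Prime p} from hpr)]
    · beta_reduce
      rw [if_neg (fun hh => hpr hh.1), Set.indicator_of_notMem (show p ∉ {p | Nat.Prime p} from hpr)]

theorem poles_short (hE : S_EXZ) : Poles (C 6912 * X 0 ^ 3 : MvPolynomial (Fin 2) ℤ)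
    (C 4 * X 0 ^ 3 + C 27 * X 1 ^ 2) :=
  poles_of fun p hp h5 => (hE p hp h5).1

theorem poles_quot (hE : S_EXZ) : Poles (X 0 : MvPolynomial (Fin 2) ℤ) (X 1) :=
  poles_of fun p hp h5 => (hE p hp h5).2

theorem ev_pos (hG : S_GRO) {F : Finset ℝ} {a : ℝ → ℝ} {c : ℝ} (h1 : c ∈ F) (h2 : ∀ t ∈ F, t ≤ c)
    (h3 : 0 < c) (h4 : 0 < a c) : ∀ᶠ n : ℕ in atTop, (0 : ℝ) < ((⌊∑ t ∈ F, a t * (n : ℝ) ^ t⌋ : ℤ) : ℝ) := by
  have h := hG F a c h1 h2 h3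
  filter_upwards [h.eventually (lt_mem_nhds h4), eventually_ge_atTop 1] with n hn hn1
  have hnc : (0 : ℝ) < (n : ℝ) ^ c := Real.rpow_pos_of_pos (by exact_mod_cast hn1) c
  exact (div_pos_iff_of_pos_right hnc).1 hn

theorem bdd_short (hG : S_GRO) {F : Fin 2 → Finset ℝ} {a : Fin 2 → ℝ → ℝ} {c : Fin 2 → ℝ}
    (h : ∀ i, c i ∈ F i ∧ (∀ t ∈ F i, t ≤ c i) ∧ 0 < c i ∧ 0 < a i (c i)) :
    ∃ (M : ℝ) (n₁ : ℕ), ∀ n : ℕ, n₁ ≤ n →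
      |((eval (fl F a n) (C 6912 * X 0 ^ 3 : MvPolynomial (Fin 2) ℤ) : ℤ) : ℝ)| ≤
        M * |((eval (fl F a n) (C 4 * X 0 ^ 3 + C 27 * X 1 ^ 2 : MvPolynomial (Fin 2) ℤ) : ℤ) : ℝ)| := by
  obtain ⟨n₁, hn₁⟩ := eventually_atTop.1 (ev_pos hG (h 0).1 (h 0).2.1 (h 0).2.2.1 (h 0).2.2.2)
  refine ⟨1728, n₁, fun n hn => ?_⟩
  have h1 := hn₁ n hn
  have h2 : (0 : ℝ) < ((fl F a n 0 : ℤ) : ℝ) := h1
  simp only [map_mul, map_add, map_pow, eval_C, eval_X]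
  push_cast
  rw [abs_of_pos (by positivity), abs_of_pos (by positivity)]
  have h3 : (0 : ℝ) ≤ ((fl F a n 1 : ℤ) : ℝ) ^ 2 := by positivity
  nlinarith

theorem bdd_quot (hG : S_GRO) {F : Fin 2 → Finset ℝ} {a : Fin 2 → ℝ → ℝ} {c : Fin 2 → ℝ}
    (h : ∀ i, c i ∈ F i ∧ (∀ t ∈ F i, t ≤ c i) ∧ 0 < c i ∧ 0 < a i (c i)) (h01 : c 0 ≤ c 1) :
    ∃ (M : ℝ) (n₁ : ℕ), ∀ n : ℕ, n₁ ≤ n →
      |((eval (fl F a n) (X 0 : MvPolynomial (Fin 2) ℤ) : ℤ) : ℝ)| ≤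
        M * |((eval (fl F a n) (X 1 : MvPolynomial (Fin 2) ℤ) : ℤ) : ℝ)| := by
  have g0 := hG (F 0) (a 0) (c 0) (h 0).1 (h 0).2.1 (h 0).2.2.1
  have g1 := hG (F 1) (a 1) (c 1) (h 1).1 (h 1).2.1 (h 1).2.2.1
  have e0 := g0.eventually (gt_mem_nhds (show a 0 (c 0) < a 0 (c 0) + 1 by linarith))
  have e1 := g1.eventually (lt_mem_nhds (show a 1 (c 1) / 2 < a 1 (c 1) by
    have := (h 1).2.2.2; linarith))
  have p0 := ev_pos hG (h 0).1 (h 0).2.1 (h 0).2.2.1 (h 0).2.2.2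
  have p1 := ev_pos hG (h 1).1 (h 1).2.1 (h 1).2.2.1 (h 1).2.2.2
  obtain ⟨n₁, hn₁⟩ := eventually_atTop.1 (((e0.and e1).and (p0.and p1)).and (eventually_ge_atTop 1))
  refine ⟨(a 0 (c 0) + 1) / (a 1 (c 1) / 2), n₁, fun n hn => ?_⟩
  obtain ⟨⟨⟨k0, k1⟩, q0, q1⟩, kn⟩ := hn₁ n hn
  have hn1 : (1 : ℝ) ≤ n := by exact_mod_cast kn
  have ha0 := (h 0).2.2.2
  have ha1 := (h 1).2.2.2
  have hc0 : (0 : ℝ) < (n : ℝ) ^ (c 0) := Real.rpow_pos_of_pos (by linarith) _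
  have hc1 : (0 : ℝ) < (n : ℝ) ^ (c 1) := Real.rpow_pos_of_pos (by linarith) _
  have hcc : (n : ℝ) ^ (c 0) ≤ (n : ℝ) ^ (c 1) := Real.rpow_le_rpow_of_exponent_le hn1 h01
  have q0' : (0 : ℝ) < ((fl F a n 0 : ℤ) : ℝ) := q0
  have q1' : (0 : ℝ) < ((fl F a n 1 : ℤ) : ℝ) := q1
  have k0' : ((fl F a n 0 : ℤ) : ℝ) < (a 0 (c 0) + 1) * (n : ℝ) ^ (c 0) := (div_lt_iff₀ hc0).1 k0
  have k1' : a 1 (c 1) / 2 * (n : ℝ) ^ (c 1) < ((fl F a n 1 : ℤ) : ℝ) := (lt_div_iff₀ hc1).1 k1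
  rw [eval_X, eval_X, abs_of_pos q0', abs_of_pos q1']
  rw [div_mul_eq_mul_div, le_div_iff₀ (by positivity)]
  have h5 : ((fl F a n 0 : ℤ) : ℝ) ≤ (a 0 (c 0) + 1) * (n : ℝ) ^ (c 1) :=
    k0'.le.trans (mul_le_mul_of_nonneg_left hcc (by linarith))
  calc ((fl F a n 0 : ℤ) : ℝ) * (a 1 (c 1) / 2) ≤ ((a 0 (c 0) + 1) * (n : ℝ) ^ (c 1)) * (a 1 (c 1) / 2) :=
        mul_le_mul_of_nonneg_right h5 (by linarith)
    _ = (a 0 (c 0) + 1) * (a 1 (c 1) / 2 * (n : ℝ) ^ (c 1)) := by ring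
    _ ≤ (a 0 (c 0) + 1) * ((fl F a n 1 : ℤ) : ℝ) := mul_le_mul_of_nonneg_left k1'.le (by linarith)

end Pool.Agent.N495.TS
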