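import Pool.Agent.Q19.SU.Tor
import Pool.Agent.N495.TS.I23
import Pool.Agent.N495.TS.Sim

/-!
All levels prime to a simple pole (helper495).
-/

set_option autoImplicit false

namespace Pool.Agent.N495.TS

open WeierstrassCurve NumberField IsDedekindDomain MvPolynomial
open Pool.Agent.H691R3 Pool.Agent.H901R3.MS Pool.Agent.W275.FM
open Pool.Agent.Y673.Loc Pool.Agent.Y673.SL
open Pool.Agent.TH876.Loc (Pr)
open Pool.Agent.Q19.SU

/-- the place of a prime number -/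
theorem place {q : ℕ} (hq : q.Prime) : ∃ v : Pr ℚ, ∀ (z : ℤ) (n : ℕ), z ≠ 0 →
    ((n : ℤ) ≤ (adv ℚ v).v (z : ℚ) ↔ (q : ℤ) ^ n ∣ z) := by
  have hn : Ideal.absNorm (Ideal.span {(q : 𝓞 ℚ)}) = q := by
    rw [Ideal.absNorm_span_natCast, RingOfIntegers.rank, Module.finrank_self, pow_one]
  have hprime : (Ideal.span {(q : 𝓞 ℚ)}).IsPrime := by
    apply Ideal.isPrime_of_irreducible_absNorm
    rw [hn]
    exact hq
  have hbot : Ideal.span {(q : 𝓞 ℚ)} ≠ ⊥ := by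
    intro h
    rw [h, Ideal.absNorm_bot] at hn
    exact hq.ne_zero hn.symm
  refine ⟨⟨Ideal.span {(q : 𝓞 ℚ)}, hprime, hbot⟩, ?_⟩
  intro z n hz
  have hz0 : (z : 𝓞 ℚ) ≠ 0 := by exact_mod_cast hz
  have h1 : ((z : ℤ) : ℚ) = algebraMap (𝓞 ℚ) ℚ (z : 𝓞 ℚ) := by rw [map_intCast]
  rw [h1, le_adv_iff ℚ _ _ hz0]
  rw [Ideal.span_singleton_pow, Ideal.mem_span_singleton]
  constructor
  · rintro ⟨c, hc⟩
    have h1 := congrArg (Rat.ringOfIntegersEquiv) hc
    rw [map_mul, map_intCast, map_pow, map_natCast] at h1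
    exact ⟨Rat.ringOfIntegersEquiv c, by simpa using h1⟩
  · rintro ⟨c, hc⟩
    exact ⟨(c : 𝓞 ℚ), by rw [hc]; push_cast; rfl⟩

open scoped Classical in
theorem noLine_of {A B : ℚ} (hD : 4 * A ^ 3 + 27 * B ^ 2 ≠ 0) {l : ℕ} (hl : l.Prime)
    (h : HasSL A B l) : NoLine A B l := by
  obtain ⟨P, Q, hB, hsl⟩ := hasSLn_of hD hl h
  intro v hv hv0
  have hv' : (l : ℤ) • v = 0 := by rw [natCast_zsmul]; exact hv
  obtain ⟨a, b, rfl⟩ := hB.span v hv'
  by_contra hno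
  push Not at hno
  have hpp : _root_.Prime (l : ℤ) := Nat.prime_iff_prime_int.1 hl
  -- the two transvections
  obtain ⟨σ, s1, s2⟩ := hsl 1 1 0 1 (by norm_num)
  obtain ⟨τ, t1, t2⟩ := hsl 1 0 1 1 (by norm_num)
  rw [one_zsmul, zero_zsmul, add_zero] at s1
  rw [one_zsmul, one_zsmul] at s2
  rw [one_zsmul, one_zsmul] at t1
  rw [zero_zsmul, one_zsmul, zero_add] at t2
  obtain ⟨m, hm⟩ := AddSubgroup.mem_zmultiples_iff.1 (hno σ)
  obtain ⟨m', hm'⟩ := AddSubgroup.mem_zmultiples_iff.1 (hno τ)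
  rw [map_add, map_zsmul, map_zsmul, s1, s2] at hm
  rw [map_add, map_zsmul, map_zsmul, t1, t2] at hm'
  have e1 := hB.ind (m * a - a - b) (m * b - b) (by
    have : (m * a - a - b) • P + (m * b - b) • Q = m • (a • P + b • Q) - (a • P + b • (P + Q)) := by
      module
    rw [this, hm, sub_self])
  have e2 := hB.ind (m' * a - a) (m' * b - a - b) (by
    have : (m' * a - a) • P + (m' * b - a - b) • Q =
        m' • (a • P + b • Q) - (a • (P + Q) + b • Q) := by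
      module
    rw [this, hm', sub_self])
  -- `l ∣ b ^ 2` and `l ∣ a ^ 2`
  have f1 : (l : ℤ) ∣ b ^ 2 := by
    have h1 := dvd_sub (Dvd.dvd.mul_left e1.2 a) (Dvd.dvd.mul_left e1.1 b)
    have : a * (m * b - b) - b * (m * a - a - b) = b ^ 2 := by ring
    rwa [this] at h1
  have f2 : (l : ℤ) ∣ a ^ 2 := by
    have h1 := dvd_sub (Dvd.dvd.mul_left e2.1 b) (Dvd.dvd.mul_left e2.2 a)
    have : b * (m' * a - a) - a * (m' * b - a - b) = a ^ 2 := by ring
    rwa [this] at h1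
  obtain ⟨b', hb'⟩ := hpp.dvd_of_dvd_pow f1
  obtain ⟨a', ha'⟩ := hpp.dvd_of_dvd_pow f2
  apply hv0
  rw [ha', hb', mul_comm, mul_smul, hB.hP, smul_zero, zero_add, mul_comm, mul_smul, hB.hQ,
    smul_zero]

open scoped Classical in
/-- **all levels prime to a simple pole** -/
theorem level_of {ι : Type} {U V : MvPolynomial ι ℤ} {v : ι → ℤ} {q : ℕ} (hq : q.Prime)
    (h5 : 5 ≤ q) (hs : Sim U V v q) (hV : eval v V ≠ 0) {A B : ℚ}
    (hD : 4 * A ^ 3 + 27 * B ^ 2 ≠ 0)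
    (hj : jv A B = ((eval v U : ℤ) : ℚ) / ((eval v V : ℤ) : ℚ))
    (hirr : ∀ l : ℕ, l.Prime → NoLine A B l) {N : ℕ} (hN : 1 ≤ N) (hqN : ¬ q ∣ N) :
    HasSLn A B N := by
  obtain ⟨w, hw⟩ := place hq
  have hU : eval v U ≠ 0 := by
    intro h0
    exact hs.2.2 (h0 ▸ dvd_zero _)
  have zero : ∀ z : ℤ, z ≠ 0 → ¬ (q : ℤ) ∣ z → (adv ℚ w).v (z : ℚ) = 0 := by
    intro z hz hqz
    have h1 := (hw z 1 hz).not.2 (by rwa [pow_one])
    have h0 := (hw z 0 hz).2 (by simp)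
    push_cast at h1 h0
    omega
  have hvV : (adv ℚ w).v ((eval v V : ℤ) : ℚ) = 1 := by
    have h1 := (hw _ 1 hV).2 (by rw [pow_one]; exact hs.1)
    have h2 := (hw _ 2 hV).not.2 hs.2.1
    push_cast at h1 h2
    omega
  have hvU := zero _ hU hs.2.2
  have nat0 : ∀ m : ℕ, 1 ≤ m → ¬ q ∣ m → (adv ℚ w).v (m : ℚ) = 0 := by
    intro m hm hqm
    have := zero (m : ℤ) (by omega) (by rwa [Int.natCast_dvd_natCast])
    exact_mod_cast this
  have h2 : (adv ℚ w).v 2 = 0 := by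
    have := nat0 2 (by norm_num) (fun h => by have := Nat.le_of_dvd (by norm_num) h; omega)
    exact_mod_cast this
  have h3 : (adv ℚ w).v 3 = 0 := by
    have := nat0 3 (by norm_num) (fun h => by have := Nat.le_of_dvd (by norm_num) h; omega)
    exact_mod_cast this
  have hNv := nat0 N hN hqN
  have hVq : ((eval v V : ℤ) : ℚ) ≠ 0 := by exact_mod_cast hV
  have hUq : ((eval v U : ℤ) : ℚ) ≠ 0 := by exact_mod_cast hU
  have hjv : (adv ℚ w).v (jv A B) = -1 := by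
    have h6 : jv A B * ((eval v V : ℤ) : ℚ) = ((eval v U : ℤ) : ℚ) := by
      rw [hj, div_mul_cancel₀ _ hVq]
    have hj0 : jv A B ≠ 0 := by
      rw [hj]
      exact div_ne_zero hUq hVq
    have h7 := (adv ℚ w).mul' (jv A B) ((eval v V : ℤ) : ℚ) hj0 hVq
    rw [h6, hvU, hvV] at h7
    omega
  obtain ⟨P, Q, hB, hA⟩ := Gen.all_levels
    (ρ := fun σ : AlgebraicClosure ℚ ≃ₐ[ℚ] AlgebraicClosure ℚ => act A B σ) hN
    (fun σ τ v => act_mul A B σ τ v) (fun v => act_one A B v)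
    (fun p k hp => by
      refine ⟨fun σ τ v => act_mul A B σ τ v, fun v => act_one A B v, hp,
        fun P hP => div_ep hD hp k hP, ?_, fun P hP hP0 => hirr p hp P (by
          rw [← natCast_zsmul]; exact hP) hP0⟩
      intro P Q hP hQ hP0 hPQ
      have hP' : p • P = 0 := by rw [← natCast_zsmul]; exact hP
      have hQ' : p • Q = 0 := by rw [← natCast_zsmul]; exact hQ
      obtain ⟨h6, h7⟩ := basis hD hp hP' hQ' hP0 hPQ
      refine ⟨hP, hQ, ?_, h7⟩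
      intro R hR
      rw [natCast_zsmul] at hR
      exact h6 R hR)
    (fun p hp hpn => tau_of hD hN hp hpn w h2 h3 hNv hjv)
  refine ⟨P, Q, hB, fun a b c d hdet => ?_⟩
  obtain ⟨σ, h1, h2, -⟩ := hA a b c d hdet
  exact ⟨σ, h1, h2⟩

end Pool.Agent.N495.TS
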