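import Pool.Agent.N495.TS.All2
import Pool.Agent.N495.TS.Lev

/-!
One null set for all thin families of elliptic curves: all levels prime to one of two large primes
(helper495).
-/

set_option autoImplicit false

namespace Pool.Agent.N495.TS

open Finset Filter MvPolynomial Pool.Agent.N666.TM Pool.Agent.Y722.HS Pool.Agent.N603.TH
open Pool.Agent.Y673.Loc (jv)
open Pool.Agent.Y673.SL (HasSL)
open Pool.Agent.N666.VE (primes)
open Pool.Agent.Q19.SU (HasSLn)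

/-- the image contains all automorphisms of determinant one of the points killed by `N`, for all `N`
which are not divisible by both `p` and `q`, for some primes `z < p < q` -/
def Lrg (z : ℕ) (A B : ℚ) : Prop :=
  ∃ p q : ℕ, p.Prime ∧ q.Prime ∧ z < p ∧ p < q ∧
    ∀ N : ℕ, 1 ≤ N → (¬ p ∣ N ∨ ¬ q ∣ N) → HasSLn A B N

theorem Lrg.mono {z z' : ℕ} (h : z ≤ z') {A B : ℚ} (hL : Lrg z' A B) : Lrg z A B := by
  obtain ⟨p, q, hp, hq, h1, h2, h3⟩ := hL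
  exact ⟨p, q, hp, hq, by omega, h2, h3⟩

/-- all curves with the invariant `j` have this property -/
def LJ (z : ℕ) (j : ℚ) : Prop :=
  j ≠ 0 ∧ j ≠ 1728 ∧ ∀ A B : ℚ, 4 * A ^ 3 + 27 * B ^ 2 ≠ 0 → jv A B = j → Lrg z A B

/-- all curves with the invariant `U(v) / V(v)` have this property -/
def Gz {ι : Type} (U V : MvPolynomial ι ℤ) (v : ι → ℤ) (z : ℕ) : Prop :=
  eval v V ≠ 0 ∧ LJ z (((eval v U : ℤ) : ℚ) / ((eval v V : ℤ) : ℚ))

theorem gz_of {ι : Type} {U V : MvPolynomial ι ℤ} {v : ι → ℤ} {z : ℕ} (h : Gall U V v)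
    (hs : ∃ p q : ℕ, p.Prime ∧ q.Prime ∧ max z 5 < p ∧ p < q ∧ Sim U V v p ∧ Sim U V v q) :
    Gz U V v z := by
  obtain ⟨p, q, hp, hq, hzp, hpq, s1, s2⟩ := hs
  have hVq : ((eval v V : ℤ) : ℚ) ≠ 0 := by exact_mod_cast h.1
  have hU : eval v U ≠ 0 := by
    intro h0
    exact s1.2.2 (h0 ▸ dvd_zero _)
  have hUq : ((eval v U : ℤ) : ℚ) ≠ 0 := by exact_mod_cast hU
  have h1728 : ((eval v U : ℤ) : ℚ) / ((eval v V : ℤ) : ℚ) ≠ 1728 := by
    intro h1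
    rw [div_eq_iff hVq] at h1
    have h2 : eval v U = 1728 * eval v V := by exact_mod_cast h1
    exact s1.2.2 (h2 ▸ Dvd.dvd.mul_left s1.1 _)
  refine ⟨h.1, div_ne_zero hUq hVq, h1728, fun A B hD hj => ⟨p, q, hp, hq, by omega, hpq, ?_⟩⟩
  have hirr : ∀ l : ℕ, l.Prime → NoLine A B l := by
    intro l hl
    obtain ⟨g1, g2, g3⟩ := h.2 A B hD hj
    by_cases h5 : 5 ≤ l
    · exact noLine_of hD hl (g1 l hl h5)
    · have h2 := hl.two_le
      interval_cases l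
      · exact g2
      · exact g3
      · exact absurd hl (by norm_num)
  intro N hN hor
  rcases hor with h1 | h1
  · exact level_of hp (by omega) s1 h.1 hD hj hirr hN h1
  · exact level_of hq (by omega) s2 h.1 hD hj hirr hN h1

theorem single3 (hDENS : S_DENS) (hFAC : S_FAC) (hNR : S_NR) (hL : S_LINE23) (hT : S_TAY)
    {ι : Type} [Fintype ι] [DecidableEq ι] [Nonempty ι] {F : ι → Finset ℝ}
    {a : ι → ℝ → ℝ} {c : ι → ℝ}
    (h : ∀ i, c i ∈ F i ∧ (∀ t ∈ F i, t ≤ c i) ∧ 0 < c i ∧ (∀ m : ℕ, c i ≠ m) ∧ 0 < a i (c i))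
    (hc : Function.Injective c) {U V : MvPolynomial ι ℤ} (hR : Rich U V) (hP : Poles U V)
    (hb : Bdd U V (fl F a)) (z : ℕ) :
    NullIn (fun N => Ioc N (2 * N)) {n | ¬ Gz U V (fl F a n) z} ∧
      NullIn primes {n | ¬ Gz U V (fl F a n) z} := by
  classical
  obtain ⟨g1, g2⟩ := single2 hDENS hFAC hNR hL h hc hR hb
  obtain ⟨⟨κ₁, hκ₁, N₁, h₁⟩, κ₂, hκ₂, N₂, h₂⟩ := fl_well h hc
  have n1 := null_sim hT hP hκ₁ ⟨N₁, h₁⟩ (max z 5)
  have n2 := null_sim hT hP hκ₂ ⟨N₂, h₂⟩ (max z 5)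
  constructor
  · refine null_mono (null_union g1 n1) ?_
    intro n hn
    by_contra hcon
    simp only [Set.mem_union, Set.mem_ofPred_eq, not_or, not_not] at hcon
    exact hn (gz_of hcon.1 hcon.2)
  · refine null_mono (null_union g2 n2) ?_
    intro n hn
    by_contra hcon
    simp only [Set.mem_union, Set.mem_ofPred_eq, not_or, not_not] at hcon
    exact hn (gz_of hcon.1 hcon.2)

/-- **one null set for all families** -/
theorem one_null3 (hDENS : S_DENS) (hFAC : S_FAC) (hNR : S_NR) (hL : S_LINE23) (hT : S_TAY)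
    {F : ℕ → Finset ℝ} {a : ℕ → ℝ → ℝ} {c : ℕ → ℝ}
    (h : ∀ i, c i ∈ F i ∧ (∀ t ∈ F i, t ≤ c i) ∧ 0 < c i ∧ (∀ m : ℕ, c i ≠ m) ∧ 0 < a i (c i))
    (hc : Function.Injective c) :
    ∃ E : Set ℕ, NullIn (fun N => Ioc N (2 * N)) E ∧ NullIn primes E ∧
      ∀ (s : ℕ) (m : Fin (s + 1) → ℕ) (U V : MvPolynomial (Fin (s + 1)) ℤ), Function.Injective m →
        Rich U V → Poles U V → Bdd U V (fl (fun i => F (m i)) (fun i => a (m i))) → ∀ z : ℕ,
          {n : ℕ | n ∉ E ∧ ¬ Gz U V (fl (fun i => F (m i)) (fun i => a (m i)) n) z}.Finite := by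
  classical
  let α := Σ s : ℕ, {x : ((Fin (s + 1) → ℕ) × MvPolynomial (Fin (s + 1)) ℤ ×
    MvPolynomial (Fin (s + 1)) ℤ) × ℕ // Function.Injective x.1.1 ∧ Rich x.1.2.1 x.1.2.2 ∧
      Poles x.1.2.1 x.1.2.2 ∧
      Bdd x.1.2.1 x.1.2.2 (fl (fun i => F (x.1.1 i)) (fun i => a (x.1.1 i)))}
  have hα : ∀ x : α,
      NullIn (fun N => Ioc N (2 * N)) {n | ¬ Gz x.2.1.1.2.1 x.2.1.1.2.2
        (fl (fun i => F (x.2.1.1.1 i)) (fun i => a (x.2.1.1.1 i)) n) x.2.1.2} ∧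
      NullIn primes {n | ¬ Gz x.2.1.1.2.1 x.2.1.1.2.2
        (fl (fun i => F (x.2.1.1.1 i)) (fun i => a (x.2.1.1.1 i)) n) x.2.1.2} := by
    rintro ⟨s, ⟨⟨m, U, V⟩, z⟩, hm, hR, hP, hb⟩
    exact single3 hDENS hFAC hNR hL hT (F := fun i => F (m i)) (a := fun i => a (m i))
      (c := fun i => c (m i)) (fun i => h (m i)) (hc.comp hm) hR hP hb z
  obtain ⟨E, f1, f2, f3⟩ := null_countable (α := α) (S₁ := fun N => Ioc N (2 * N)) (S₂ := primes)
    (fun N => Finset.Subset.refl _) (fun N => Finset.filter_subset _ _) _ (fun x => (hα x).1)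
    (fun x => (hα x).2)
  refine ⟨E, f1, f2, fun s m U V hm hR hP hb z => ?_⟩
  refine (f3 ⟨s, ⟨⟨m, U, V⟩, z⟩, hm, hR, hP, hb⟩).subset ?_
  rintro t ⟨ht, ht'⟩
  exact ⟨ht', ht⟩

end Pool.Agent.N495.TS
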