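import Pool.Agent.Y673.Loc.Glue
import Pool.Agent.Y673.FM.Act

/-!
Elliptic curves over an extension whose invariant lies in the base field: twists and base change
(helper495).
-/

set_option autoImplicit false

namespace Pool.Agent.N495.TS

open WeierstrassCurve Pool.Agent.H901R3.MS Pool.Agent.W275.FM
open Pool.Agent.Y673.Loc Pool.Agent.Y673.FM

open scoped Classical in
theorem act_eqv {K : Type} [Field K] (A B : K) (σ : AlgebraicClosure K ≃ₐ[K] AlgebraicClosure K)
    (P : EP A B) : eqv A B (AlgebraicClosure K) (act A B σ P) =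
      mp A B (σ : AlgebraicClosure K →ₐ[K] AlgebraicClosure K) (eqv A B (AlgebraicClosure K) P) :=
  gal_eqv A B σ P

theorem pt_ext' {F : Type} [Field F] {a b : F} {x y x' y' : F}
    (h : (CV a b).toAffine.Nonsingular x y) (h' : (CV a b).toAffine.Nonsingular x' y')
    (e1 : x = x') (e2 : y = y') :
    (Affine.Point.some x y h : Pt a b) = Affine.Point.some x' y' h' := by
  subst e1 e2
  rfl

open scoped Classical in
/-- **curves over an extension with invariant in the base field** -/
theorem tw_exists {k : Type} [Field k] [CharZero k] (K : Type) [Field K] [CharZero K] [Algebra k K]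
    [FiniteDimensional k K] :
    ∃ (M : IntermediateField k (AlgebraicClosure k))
      (θ : (AlgebraicClosure K ≃ₐ[K] AlgebraicClosure K) →
        (AlgebraicClosure k ≃ₐ[k] AlgebraicClosure k)),
      FiniteDimensional k M ∧ Module.finrank k M = Module.finrank k K ∧
      (∀ τ ∈ M.fixingSubgroup, ∃ σ, θ σ = τ) ∧
      ∀ (A B r : K) (A₀ B₀ : k), r ≠ 0 → algebraMap k K A₀ = r ^ 2 * A →
        algebraMap k K B₀ = r ^ 3 * B →
        ∃ φ : EP A B →+ EP A₀ B₀, Function.Injective φ ∧
          ∀ σ, (∀ P, φ (act A B σ P) = act A₀ B₀ (θ σ) (φ P)) ∨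
            (∀ P, φ (act A B σ P) = - act A₀ B₀ (θ σ) (φ P)) := by
  set F := AlgebraicClosure K with hF
  have hcl : IsAlgClosure k F := ⟨inferInstance, Algebra.IsAlgebraic.trans k K F⟩
  have : CharZero F := charZero_of_injective_algebraMap (algebraMap K F).injective
  have : CharZero (AlgebraicClosure k) :=
    charZero_of_injective_algebraMap (algebraMap k (AlgebraicClosure k)).injective
  set ι : AlgebraicClosure k ≃ₐ[k] F := IsAlgClosure.equiv k (AlgebraicClosure k) F with hι
  let j : K →ₐ[k] AlgebraicClosure k :=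
    (ι.symm : F →ₐ[k] AlgebraicClosure k).comp (IsScalarTower.toAlgHom k K F)
  have hj : ∀ x : K, j x = ι.symm (algebraMap K F x) := fun x => rfl
  refine ⟨j.fieldRange, fun σ => ι.trans ((σ.restrictScalars k).trans ι.symm), ?_, ?_, ?_, ?_⟩
  · exact (AlgEquiv.ofInjectiveField j).toLinearEquiv.finiteDimensional
  · exact (AlgEquiv.ofInjectiveField j).toLinearEquiv.finrank_eq.symm
  · intro τ hτ
    rw [IntermediateField.mem_fixingSubgroup_iff] at hτ
    refine ⟨AlgEquiv.ofRingEquiv (f := ((ι.symm.trans (τ.trans ι) : F ≃ₐ[k] F) : F ≃+* F)) ?_, ?_⟩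
    · intro x
      show ι (τ (ι.symm (algebraMap K F x))) = algebraMap K F x
      rw [← hj, hτ (j x) ⟨x, rfl⟩, hj, AlgEquiv.apply_symm_apply]
    · ext x
      show ι.symm (ι (τ (ι.symm (ι x)))) = τ x
      rw [AlgEquiv.symm_apply_apply, AlgEquiv.symm_apply_apply]
  · intro A B r A₀ B₀ hr hA hB
    obtain ⟨s, hs⟩ := IsAlgClosed.exists_pow_nat_eq (ι.symm (algebraMap K F r)) (n := 2) (by norm_num)
    have hρ : ι.symm (algebraMap K F r) ≠ 0 := by
      rw [Ne, map_eq_zero, map_eq_zero]
      exact hr
    have hs0 : s ≠ 0 := by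
      rintro rfl
      apply hρ
      rw [← hs]
      ring
    set u : AlgebraicClosure k := s⁻¹ with hu
    have hu0 : u ≠ 0 := inv_ne_zero hs0
    let φ₀ : F →+* AlgebraicClosure k := ((ι.symm : F ≃ₐ[k] AlgebraicClosure k) : F →+* AlgebraicClosure k)
    have hφ₀ : ∀ x : F, φ₀ x = ι.symm x := fun x => rfl
    have hcaA : ca (AlgebraicClosure k) A₀ = s ^ 4 * φ₀ (ca F A) := by
      have h1 : ca (AlgebraicClosure k) A₀ = ι.symm (algebraMap K F (algebraMap k K A₀)) := by
        rw [← IsScalarTower.algebraMap_apply, AlgEquiv.commutes]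
      rw [h1, hA, map_mul, map_mul, map_pow, map_pow, ← hs, hφ₀]
      ring
    have hcaB : ca (AlgebraicClosure k) B₀ = s ^ 6 * φ₀ (ca F B) := by
      have h1 : ca (AlgebraicClosure k) B₀ = ι.symm (algebraMap K F (algebraMap k K B₀)) := by
        rw [← IsScalarTower.algebraMap_apply, AlgEquiv.commutes]
      rw [h1, hB, map_mul, map_mul, map_pow, map_pow, ← hs, hφ₀]
      ring
    have hA' : φ₀ (ca F A) = u ^ 4 * ca (AlgebraicClosure k) A₀ := by
      rw [hcaA, hu]
      field_simp
    have hB' : φ₀ (ca F B) = u ^ 6 * ca (AlgebraicClosure k) B₀ := by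
      rw [hcaB, hu]
      field_simp
    let T := tw φ₀ u two_ne_zero hu0 hA' hB'
    refine ⟨((eqv A₀ B₀ (AlgebraicClosure k)).symm.toAddMonoidHom.comp T).comp
      (eqv A B F).toAddMonoidHom, ?_, ?_⟩
    · intro P Q h
      apply (eqv A B F).injective
      apply tw_inj φ₀ u two_ne_zero hu0 hA' hB'
      exact (eqv A₀ B₀ (AlgebraicClosure k)).symm.injective h
    · intro σ
      set θ : AlgebraicClosure k ≃ₐ[k] AlgebraicClosure k :=
        ι.trans ((σ.restrictScalars k).trans ι.symm) with hθ
      have hθx : ∀ x : F, θ (ι.symm x) = ι.symm (σ x) := by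
        intro x
        show ι.symm (σ (ι (ι.symm x))) = ι.symm (σ x)
        rw [AlgEquiv.apply_symm_apply]
      have hθs : (θ s) ^ 2 = s ^ 2 := by
        rw [← map_pow, hs, hθx, AlgEquiv.commutes]
      have hcases : θ u = u ∨ θ u = -u := by
        rcases sq_eq_sq_iff_eq_or_eq_neg.1 hθs with h | h
        · left
          rw [hu, map_inv₀, h]
        · right
          rw [hu, map_inv₀, h, inv_neg]
      have key : ∀ (P : EP A B), eqv A₀ B₀ (AlgebraicClosure k)
          (((eqv A₀ B₀ (AlgebraicClosure k)).symm.toAddMonoidHom.comp T).comp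
            (eqv A B F).toAddMonoidHom (act A B σ P)) =
          T (mp A B (σ : F →ₐ[K] F) (eqv A B F P)) := by
        intro P
        show eqv A₀ B₀ (AlgebraicClosure k) ((eqv A₀ B₀ (AlgebraicClosure k)).symm
          (T (eqv A B F (act A B σ P)))) = _
        rw [AddEquiv.apply_symm_apply, act_eqv]
      have key2 : ∀ (P : EP A B), eqv A₀ B₀ (AlgebraicClosure k) (act A₀ B₀ θ
          (((eqv A₀ B₀ (AlgebraicClosure k)).symm.toAddMonoidHom.comp T).comp
            (eqv A B F).toAddMonoidHom P)) =
          mp A₀ B₀ (θ : AlgebraicClosure k →ₐ[k] AlgebraicClosure k) (T (eqv A B F P)) := by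
        intro P
        rw [act_eqv]
        congr 1
        show eqv A₀ B₀ (AlgebraicClosure k) ((eqv A₀ B₀ (AlgebraicClosure k)).symm
          (T (eqv A B F P))) = _
        rw [AddEquiv.apply_symm_apply]
      rcases hcases with h | h
      · left
        intro P
        apply (eqv A₀ B₀ (AlgebraicClosure k)).injective
        rw [key, key2]
        rcases eqv A B F P with _ | ⟨x, y, hxy⟩
        · have e0 : (Affine.Point.zero : Pt (ca F A) (ca F B)) = 0 := rfl
          rw [e0, map_zero, map_zero, map_zero]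
        · rw [mp_some]
          show tw φ₀ u two_ne_zero hu0 hA' hB' _ = mp A₀ B₀ _ (tw φ₀ u two_ne_zero hu0 hA' hB' _)
          rw [tw_some, tw_some, mp_some]
          apply pt_ext'
          · show ι.symm (σ x) / u ^ 2 = θ (ι.symm x / u ^ 2)
            rw [map_div₀, map_pow, h, hθx]
          · show ι.symm (σ y) / u ^ 3 = θ (ι.symm y / u ^ 3)
            rw [map_div₀, map_pow, h, hθx]
      · right
        intro P
        apply (eqv A₀ B₀ (AlgebraicClosure k)).injective
        rw [map_neg, key, key2]
        rcases eqv A B F P with _ | ⟨x, y, hxy⟩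
        · have e0 : (Affine.Point.zero : Pt (ca F A) (ca F B)) = 0 := rfl
          rw [e0, map_zero, map_zero, map_zero, neg_zero]
        · rw [mp_some]
          show tw φ₀ u two_ne_zero hu0 hA' hB' _ = - mp A₀ B₀ _ (tw φ₀ u two_ne_zero hu0 hA' hB' _)
          rw [tw_some, tw_some, mp_some, Affine.Point.neg_some]
          apply pt_ext'
          · show ι.symm (σ x) / u ^ 2 = θ (ι.symm x / u ^ 2)
            rw [map_div₀, map_pow, h, hθx]
            ring
          · have e1 : ∀ (a b x y : AlgebraicClosure k), (CV a b).toAffine.negY x y = -y := by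
              intro a b x y
              simp [Affine.negY, CV]
            rw [e1]
            show ι.symm (σ y) / u ^ 3 = -θ (ι.symm y / u ^ 3)
            rw [map_div₀, map_pow, h, hθx]
            have : (-u) ^ 3 = -u ^ 3 := by ring
            rw [this, div_neg, neg_neg]

end Pool.Agent.N495.TS
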