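import Pool.Agent.N495.TS.Cyc
import Pool.Agent.N495.TS.TW

/-!
Torsion points over number fields of abelian varieties isogenous to products of elliptic curves with
rational invariants from thin families (helper495).
-/

set_option autoImplicit false

namespace Pool.Agent.N495.TS

open WeierstrassCurve NumberField
open Pool.Agent.Y673.Loc Pool.Agent.Y673.SL
open Pool.Agent.Q19.SU
open Pool.Agent.H901R3.MS Pool.Agent.W275.FM

open scoped Classical in
/-- the torsion of prime order is spanned by two elements -/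
theorem span2 {K : Type} [Field K] [NumberField K] {A B : K} (hD : 4 * A ^ 3 + 27 * B ^ 2 ≠ 0)
    {q : ℕ} (hq : q.Prime) : ∃ P Q : EP A B, q • P = 0 ∧ q • Q = 0 ∧
      ∀ R : EP A B, q • R = 0 → ∃ m n : ℤ, R = m • P + n • Q := by
  haveI : CharZero (AlgebraicClosure K) :=
    charZero_of_injective_algebraMap (algebraMap K (AlgebraicClosure K)).injective
  obtain ⟨hfin, hcard⟩ := Mul.tor (AlgebraicClosure K) _ _ (Pool.Agent.Y673.FM.disc_ca hD) q hq.one_le
  set e := eqv A B (AlgebraicClosure K) with he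
  set S : Set (EP A B) := {P | q • P = 0} with hS
  have himg : e '' S = {P | q • P = 0} := by
    ext P
    constructor
    · rintro ⟨R, hR, rfl⟩
      show q • e R = 0
      rw [← map_nsmul, (show q • R = 0 from hR), map_zero]
    · intro hP
      refine ⟨e.symm P, ?_, AddEquiv.apply_symm_apply _ _⟩
      show q • e.symm P = 0
      rw [← map_nsmul, (show q • P = 0 from hP), map_zero]
  have hScard : q ^ 2 ≤ S.ncard := by
    rw [← Set.ncard_image_of_injective S e.injective, himg]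
    exact hcard
  have hSfin : S.Finite := by
    apply Set.Finite.of_finite_image _ e.injective.injOn
    rw [himg]
    exact hfin
  have h2 := hq.two_le
  obtain ⟨P, hP, hP0⟩ : ∃ P ∈ S, P ≠ 0 := by
    by_contra hcon
    push Not at hcon
    have h1 : S ⊆ {0} := fun P hP => hcon P hP
    have h3 := Set.ncard_le_ncard h1 (Set.finite_singleton _)
    rw [Set.ncard_singleton] at h3
    nlinarith
  obtain ⟨Q, hQ, hPQ⟩ : ∃ Q ∈ S, Q ∉ AddSubgroup.zmultiples P := by
    by_contra hcon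
    push Not at hcon
    have h1 : S ⊆ (AddSubgroup.zmultiples P : Set (EP A B)) := fun Q hQ => hcon Q hQ
    have hPo : addOrderOf P ∣ q := addOrderOf_dvd_of_nsmul_eq_zero hP
    have hPo2 : addOrderOf P ≤ q := Nat.le_of_dvd hq.pos hPo
    have hfinP : (AddSubgroup.zmultiples P : Set (EP A B)).Finite := by
      rw [AddSubgroup.coe_zmultiples]
      have hfo : IsOfFinAddOrder P := isOfFinAddOrder_iff_nsmul_eq_zero.2 ⟨q, hq.pos, hP⟩
      have := (finite_zmultiples (a := P)).2 hfo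
      exact this
    have h3 := Set.ncard_le_ncard h1 hfinP
    have h4 : (AddSubgroup.zmultiples P : Set (EP A B)).ncard = addOrderOf P := by
      rw [← Nat.card_coe_set_eq]
      exact Nat.card_zmultiples P
    rw [h4] at h3
    nlinarith
  obtain ⟨h6, -⟩ := basis hD hq hP hQ hP0 hPQ
  exact ⟨P, Q, hP, hQ, h6⟩

open scoped Classical in
/-- **abelian varieties over number fields** -/
theorem tq_K (hT : S_TORSM) {z g : ℕ} (K : Type) [Field K] [NumberField K] {A B : Fin g → K}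
    (hD : ∀ i, 4 * A i ^ 3 + 27 * B i ^ 2 ≠ 0)
    (hj : ∀ i, ∃ j : ℚ, LJ z j ∧ jv (A i) (B i) = algebraMap ℚ K j)
    (Γ : AddSubgroup (∀ i, EP (A i) (B i))) (hfin : (Γ : Set (∀ i, EP (A i) (B i))).Finite)
    (hst : ∀ σ : AlgebraicClosure K ≃ₐ[K] AlgebraicClosure K, ∀ x ∈ Γ,
      (fun i => act (A i) (B i) σ (x i)) ∈ Γ)
    {x : ∀ i, EP (A i) (B i)}
    (hx : ∀ σ : AlgebraicClosure K ≃ₐ[K] AlgebraicClosure K,
      (fun i => act (A i) (B i) σ (x i) - x i) ∈ Γ)
    (hf : IsOfFinAddOrder (x : (∀ i, EP (A i) (B i)) ⧸ Γ)) :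
    (∀ l : ℕ, l.Prime → l ∣ addOrderOf (x : (∀ i, EP (A i) (B i)) ⧸ Γ) →
      l + 1 ≤ Module.finrank ℚ K) ∧
    addOrderOf (x : (∀ i, EP (A i) (B i)) ⧸ Γ) ≤ Module.finrank ℚ K ^ (4 * g) ∧
    (Module.finrank ℚ K ≤ z →
      addOrderOf (x : (∀ i, EP (A i) (B i)) ⧸ Γ) ≤ Module.finrank ℚ K ^ (2 * g)) := by
  obtain ⟨M, θ, hfd, hfr, hsurj, htw⟩ := tw_exists (k := ℚ) K
  choose j hjl hjv using hj
  have hj0 : ∀ i, algebraMap ℚ K (j i) ≠ 0 := fun i => by
    rw [Ne, map_eq_zero]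
    exact (hjl i).1
  have hj1 : ∀ i, algebraMap ℚ K (j i) ≠ 1728 := fun i h => by
    apply (hjl i).2.1
    apply (algebraMap ℚ K).injective
    rw [h, map_ofNat]
  have hex : ∀ i, ∃ (A₀ B₀ : ℚ) (φ : EP (A i) (B i) →+ EP A₀ B₀), Lrg z A₀ B₀ ∧
      Function.Injective φ ∧ ∀ σ, (∀ P, φ (act (A i) (B i) σ P) = act A₀ B₀ (θ σ) (φ P)) ∨
        (∀ P, φ (act (A i) (B i) σ P) = - act A₀ B₀ (θ σ) (φ P)) := by
    intro i
    obtain ⟨r, hr0, hr1, hr2⟩ := Pool.Agent.Y673.SN.twist_of (hD i) (hjv i) (hj0 i) (hj1 i)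
    have hne : j i - 1728 ≠ 0 := sub_ne_zero.2 (hjl i).2.1
    have hD0 : 4 * (-3 * j i * (j i - 1728)) ^ 3 + 27 * (-2 * j i * (j i - 1728) ^ 2) ^ 2 ≠ 0 := by
      have e : 4 * (-3 * j i * (j i - 1728)) ^ 3 + 27 * (-2 * j i * (j i - 1728) ^ 2) ^ 2 =
          -186624 * (j i) ^ 2 * (j i - 1728) ^ 3 := by ring
      rw [e]
      exact mul_ne_zero (mul_ne_zero (by norm_num) (pow_ne_zero 2 (hjl i).1)) (pow_ne_zero 3 hne)
    have hjv0 : jv (-3 * j i * (j i - 1728)) (-2 * j i * (j i - 1728) ^ 2) = j i := by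
      unfold jv
      rw [div_eq_iff hD0]
      ring
    obtain ⟨φ, h1, h2⟩ := htw (A i) (B i) r (-3 * j i * (j i - 1728)) (-2 * j i * (j i - 1728) ^ 2)
      hr0 (by
        rw [← hr1]
        simp only [map_mul, map_neg, map_sub, map_ofNat]) (by
        rw [← hr2]
        simp only [map_mul, map_neg, map_sub, map_pow, map_ofNat])
    exact ⟨_, _, φ, (hjl i).2.2 _ _ hD0 hjv0, h1, h2⟩
  choose A₀ B₀ φ hL hφ hφ2 using hex
  obtain ⟨c, w, hcw, hdvd⟩ := hT (AlgebraicClosure K ≃ₐ[K] AlgebraicClosure K) g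
    (fun i => EP (A i) (B i)) (fun i σ => act (A i) (B i) σ)
    (fun i q hq => span2 (hD i) hq) Γ hfin (fun σ y hy => hst σ y hy) x (fun σ => hx σ) hf
  -- transfer
  have trans : ∀ (i : Fin g) (y : EP (A i) (B i)),
      (∀ σ, act (A i) (B i) σ y ∈ AddSubgroup.zmultiples y) →
      ∀ τ ∈ M.fixingSubgroup, act (A₀ i) (B₀ i) τ (φ i y) ∈ AddSubgroup.zmultiples (φ i y) := by
    intro i y hy τ hτ
    obtain ⟨σ, rfl⟩ := hsurj τ hτ
    obtain ⟨m, hm⟩ := AddSubgroup.mem_zmultiples_iff.1 (hy σ)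
    rcases hφ2 i σ with h | h
    · refine AddSubgroup.mem_zmultiples_iff.2 ⟨m, ?_⟩
      rw [← h y, ← hm, map_zsmul]
    · refine AddSubgroup.mem_zmultiples_iff.2 ⟨-m, ?_⟩
      have h1 := h y
      rw [← hm, map_zsmul] at h1
      rw [neg_zsmul, h1, neg_neg]
  have hc := fun i => trans i (c i) (hcw i).2.2.1
  have hw := fun i => trans i (w i) (fun σ => by
    have h1 : act (A i) (B i) σ (w i) = w i := (hcw i).2.2.2 σ
    rw [h1]
    exact AddSubgroup.mem_zmultiples _)
  have hco : ∀ i, addOrderOf (φ i (c i)) = addOrderOf (c i) := fun i =>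
    addOrderOf_injective (φ i) (hφ i) _
  have hwo : ∀ i, addOrderOf (φ i (w i)) = addOrderOf (w i) := fun i =>
    addOrderOf_injective (φ i) (hφ i) _
  have hcf : ∀ i, IsOfFinAddOrder (φ i (c i)) := fun i => by
    rw [← addOrderOf_pos_iff, hco]
    exact (hcw i).1.addOrderOf_pos
  have hwf : ∀ i, IsOfFinAddOrder (φ i (w i)) := fun i => by
    rw [← addOrderOf_pos_iff, hwo]
    exact (hcw i).2.1.addOrderOf_pos
  have hpos : 0 < ∏ i, (addOrderOf (c i) * addOrderOf (w i)) :=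
    Finset.prod_pos fun i _ => Nat.mul_pos (hcw i).1.addOrderOf_pos (hcw i).2.1.addOrderOf_pos
  rw [← hfr]
  refine ⟨?_, ?_, ?_⟩
  · intro l hl hd
    obtain ⟨i, -, hi⟩ := (Prime.dvd_finsetProd_iff hl.prime _).1 (hd.trans hdvd)
    rcases (hl.dvd_mul).1 hi with h1 | h1
    · exact cy_prime (hL i) M (hc i) (hcf i) hl (by rw [hco]; exact h1)
    · exact cy_prime (hL i) M (hw i) (hwf i) hl (by rw [hwo]; exact h1)
  · refine (Nat.le_of_dvd hpos hdvd).trans ?_
    refine (Finset.prod_le_prod' (g := fun _ => Module.finrank ℚ M ^ 4) fun i _ => ?_).trans ?_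
    · have h1 := cy_all (hL i) M (hc i) (hcf i)
      have h2 := cy_all (hL i) M (hw i) (hwf i)
      rw [hco] at h1
      rw [hwo] at h2
      have h3 := Nat.mul_le_mul h1 h2
      rw [← pow_add] at h3
      exact h3
    · rw [Finset.prod_const, Finset.card_univ, Fintype.card_fin, ← pow_mul]
  · intro hz
    refine (Nat.le_of_dvd hpos hdvd).trans ?_
    refine (Finset.prod_le_prod' (g := fun _ => Module.finrank ℚ M ^ 2) fun i _ => ?_).trans ?_
    · have h1 := cy_small (hL i) M (hc i) (hcf i) hz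
      have h2 := cy_small (hL i) M (hw i) (hwf i) hz
      rw [hco] at h1
      rw [hwo] at h2
      have h3 := Nat.mul_le_mul h1 h2
      rw [← pow_two] at h3
      exact h3
    · rw [Finset.prod_const, Finset.card_univ, Fintype.card_fin, ← pow_mul]

end Pool.Agent.N495.TS
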