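import Pool.Agent.N495.TS.SerreA
import Pool.Agent.N495.TS.TK

/-!
Torsion points over arbitrary finite extensions of abelian varieties isogenous to products of elliptic
curves with invariants in a set of invariants with large images, over a general base field (helper495).
-/

set_option autoImplicit false

namespace Pool.Agent.N495.TS

open WeierstrassCurve NumberField IsDedekindDomain
open Pool.Agent.Y673.Loc Pool.Agent.Y673.SL
open Pool.Agent.Q19.SU
open Pool.Agent.H901R3.MS Pool.Agent.W275.FM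
open Pool.Agent.TH876.Loc (Pr)

section
variable {k : Type} [Field k] [NumberField k]

/-- the image contains all automorphisms of determinant one for all levels prime to a prime `p` and for
all powers of `p` -/
def LQ (A B : k) : Prop :=
  ∃ p : ℕ, p.Prime ∧ (∀ N : ℕ, 1 ≤ N → ¬ p ∣ N → HasSLn A B N) ∧ ∀ m : ℕ, HasSLn A B (p ^ m)

theorem LQ.prime {A B : k} (h : LQ A B) {l : ℕ} (hl : l.Prime) : HasSLn A B l := by
  obtain ⟨p, hp, h1, h2⟩ := h
  by_cases hpl : p ∣ l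
  · have := (Nat.prime_dvd_prime_iff_eq hp hl).1 hpl
    rw [← this]
    simpa using h2 1
  · exact h1 l hl.one_le hpl

open scoped Classical in
theorem stab_smul' {A B : k} {y : EP A B} {σ : AlgebraicClosure k ≃ₐ[k] AlgebraicClosure k}
    (h : act A B σ y ∈ AddSubgroup.zmultiples y) (m : ℕ) :
    act A B σ (m • y) ∈ AddSubgroup.zmultiples (m • y) := by
  obtain ⟨r, hr⟩ := AddSubgroup.mem_zmultiples_iff.1 h
  refine AddSubgroup.mem_zmultiples_iff.2 ⟨r, ?_⟩
  rw [map_nsmul, ← hr, ← natCast_zsmul, ← natCast_zsmul, ← mul_zsmul, ← mul_zsmul, mul_comm]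

open scoped Classical in
theorem cy_prime' {A B : k} (h : LQ A B) (M : IntermediateField k (AlgebraicClosure k))
    [FiniteDimensional k M] {y : EP A B}
    (hy : ∀ σ ∈ M.fixingSubgroup, act A B σ y ∈ AddSubgroup.zmultiples y)
    (hf : IsOfFinAddOrder y) {l : ℕ} (hl : l.Prime) (hd : l ∣ addOrderOf y) :
    l + 1 ≤ Module.finrank k M := by
  obtain ⟨m, hm⟩ := hd
  have hpos : 0 < addOrderOf y := hf.addOrderOf_pos
  have hm1 : m ≠ 0 := by
    rintro rfl
    omega
  refine orb_line hl.one_lt (h.prime hl) M (z := m • y)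
    (fun σ hσ => stab_smul' (hy σ hσ) m) ?_
  rw [addOrderOf_nsmul' y hm1, hm, Nat.gcd_mul_left_left,
    Nat.mul_div_cancel _ (Nat.pos_of_ne_zero hm1)]

open scoped Classical in
theorem cy_lev' {A B : k} (M : IntermediateField k (AlgebraicClosure k))
    [FiniteDimensional k M] {y : EP A B}
    (hy : ∀ σ ∈ M.fixingSubgroup, act A B σ y ∈ AddSubgroup.zmultiples y)
    {n : ℕ} (hn : 1 ≤ n) (hord : addOrderOf y = n) (h : HasSLn A B n) :
    n ≤ Module.finrank k M := by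
  have hMpos : 0 < Module.finrank k M := Module.finrank_pos
  rcases eq_or_lt_of_le hn with h1 | h1
  · omega
  · have := orb_line h1 h M hy hord
    omega

open scoped Classical in
/-- the order of a stable cyclic subgroup -/
theorem cy_all' {A B : k} (h : LQ A B) (M : IntermediateField k (AlgebraicClosure k))
    [FiniteDimensional k M] {y : EP A B}
    (hy : ∀ σ ∈ M.fixingSubgroup, act A B σ y ∈ AddSubgroup.zmultiples y)
    (hf : IsOfFinAddOrder y) : addOrderOf y ≤ Module.finrank k M ^ 2 := by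
  obtain ⟨p, hp, h1, h2⟩ := h
  have hpos : 0 < addOrderOf y := hf.addOrderOf_pos
  obtain ⟨r, m, hm, hk⟩ := Nat.exists_eq_pow_mul_and_not_dvd hpos.ne' p hp.ne_one
  have hm0 : m ≠ 0 := by
    rintro rfl
    exact hm (dvd_zero _)
  have hpk : 0 < p ^ r := pow_pos hp.pos r
  have e1 : m ≤ Module.finrank k M := by
    refine cy_lev' M (y := (p ^ r) • y) (fun σ hσ => stab_smul' (hy σ hσ) _)
      (Nat.pos_of_ne_zero hm0) ?_ (h1 m (Nat.pos_of_ne_zero hm0) hm)
    rw [addOrderOf_nsmul' y hpk.ne', hk, Nat.gcd_mul_right_left, Nat.mul_div_cancel_left _ hpk]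
  have e2 : p ^ r ≤ Module.finrank k M := by
    refine cy_lev' M (y := m • y) (fun σ hσ => stab_smul' (hy σ hσ) _) hpk ?_ (h2 r)
    rw [addOrderOf_nsmul' y hm0, hk, Nat.gcd_mul_left_left,
      Nat.mul_div_cancel _ (Nat.pos_of_ne_zero hm0)]
  rw [hk, pow_two]
  exact Nat.mul_le_mul e2 e1

open scoped Classical in
/-- the order of a stable cyclic subgroup, small degrees -/
theorem cy_small' {A B : k} (h : LQ A B) (M : IntermediateField k (AlgebraicClosure k))
    [FiniteDimensional k M] {y : EP A B}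
    (hy : ∀ σ ∈ M.fixingSubgroup, act A B σ y ∈ AddSubgroup.zmultiples y)
    (hf : IsOfFinAddOrder y)
    (hs : ∀ N : ℕ, 1 ≤ N → N ≤ Module.finrank k M ^ 2 → HasSLn A B N) :
    addOrderOf y ≤ Module.finrank k M :=
  cy_lev' M hy hf.addOrderOf_pos rfl (hs _ hf.addOrderOf_pos (cy_all' h M hy hf))

/-- invariants all of whose curves have the property -/
def LJk (j : k) : Prop :=
  j ≠ 0 ∧ j ≠ 1728 ∧ ∀ A B : k, 4 * A ^ 3 + 27 * B ^ 2 ≠ 0 → jv A B = j → LQ A B

end

open scoped Classical in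
/-- **abelian varieties over extensions** -/
theorem tq_gen (hT : S_TORSM) (k : Type) [Field k] [NumberField k] (K : Type) [Field K]
    [NumberField K] [Algebra k K] [FiniteDimensional k K] {g : ℕ} {A B : Fin g → K}
    (hD : ∀ i, 4 * A i ^ 3 + 27 * B i ^ 2 ≠ 0) (j : Fin g → k) (hjl : ∀ i, LJk (j i))
    (hjv : ∀ i, jv (A i) (B i) = algebraMap k K (j i))
    (Γ : AddSubgroup (∀ i, EP (A i) (B i))) (hfin : (Γ : Set (∀ i, EP (A i) (B i))).Finite)
    (hst : ∀ σ : AlgebraicClosure K ≃ₐ[K] AlgebraicClosure K, ∀ x ∈ Γ,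
      (fun i => act (A i) (B i) σ (x i)) ∈ Γ)
    {x : ∀ i, EP (A i) (B i)}
    (hx : ∀ σ : AlgebraicClosure K ≃ₐ[K] AlgebraicClosure K,
      (fun i => act (A i) (B i) σ (x i) - x i) ∈ Γ)
    (hf : IsOfFinAddOrder (x : (∀ i, EP (A i) (B i)) ⧸ Γ)) :
    (∀ l : ℕ, l.Prime → l ∣ addOrderOf (x : (∀ i, EP (A i) (B i)) ⧸ Γ) →
      l + 1 ≤ Module.finrank k K) ∧
    addOrderOf (x : (∀ i, EP (A i) (B i)) ⧸ Γ) ≤ Module.finrank k K ^ (4 * g) ∧
    ((∀ i, ∀ A₀ B₀ : k, 4 * A₀ ^ 3 + 27 * B₀ ^ 2 ≠ 0 → jv A₀ B₀ = j i → ∀ N : ℕ, 1 ≤ N →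
        N ≤ Module.finrank k K ^ 2 → HasSLn A₀ B₀ N) →
      addOrderOf (x : (∀ i, EP (A i) (B i)) ⧸ Γ) ≤ Module.finrank k K ^ (2 * g)) := by
  obtain ⟨M, θ, hfd, hfr, hsurj, htw⟩ := tw_exists (k := k) K
  have hj0 : ∀ i, algebraMap k K (j i) ≠ 0 := fun i => by
    rw [Ne, map_eq_zero]
    exact (hjl i).1
  have hj1 : ∀ i, algebraMap k K (j i) ≠ 1728 := fun i h => by
    apply (hjl i).2.1
    apply (algebraMap k K).injective
    rw [h, map_ofNat]
  have hex : ∀ i, ∃ (A₀ B₀ : k) (φ : EP (A i) (B i) →+ EP A₀ B₀), (4 * A₀ ^ 3 + 27 * B₀ ^ 2 ≠ 0 ∧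
      jv A₀ B₀ = j i) ∧
      Function.Injective φ ∧ ∀ σ, (∀ P, φ (act (A i) (B i) σ P) = act A₀ B₀ (θ σ) (φ P)) ∨
        (∀ P, φ (act (A i) (B i) σ P) = - act A₀ B₀ (θ σ) (φ P)) := by
    intro i
    obtain ⟨r, hr0, hr1, hr2⟩ := Pool.Agent.Y673.SN.twist_of (hD i) (hjv i) (hj0 i) (hj1 i)
    have hne : j i - 1728 ≠ 0 := sub_ne_zero.2 (hjl i).2.1
    have hD0 : 4 * (-3 * j i * (j i - 1728)) ^ 3 + 27 * (-2 * j i * (j i - 1728) ^ 2) ^ 2 ≠ 0 := by
      have e : 4 * (-3 * j i * (j i - 1728)) ^ 3 + 27 * (-2 * j i * (j i - 1728) ^ 2) ^ 2 =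
          -186624 * (j i) ^ 2 * (j i - 1728) ^ 3 := by ring
      rw [e]
      exact mul_ne_zero (mul_ne_zero (by norm_num) (pow_ne_zero 2 (hjl i).1)) (pow_ne_zero 3 hne)
    have hjv0 : jv (-3 * j i * (j i - 1728)) (-2 * j i * (j i - 1728) ^ 2) = j i := by
      unfold jv
      rw [div_eq_iff hD0]
      ring
    obtain ⟨φ, h1, h2⟩ := htw (A i) (B i) r (-3 * j i * (j i - 1728)) (-2 * j i * (j i - 1728) ^ 2)
      hr0 (by
        rw [← hr1]
        simp only [map_mul, map_neg, map_sub, map_ofNat]) (by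
        rw [← hr2]
        simp only [map_mul, map_neg, map_sub, map_pow, map_ofNat])
    exact ⟨_, _, φ, ⟨hD0, hjv0⟩, h1, h2⟩
  choose A₀ B₀ φ hAB hφ hφ2 using hex
  have hL : ∀ i, LQ (A₀ i) (B₀ i) := fun i => (hjl i).2.2 _ _ (hAB i).1 (hAB i).2
  obtain ⟨c, w, hcw, hdvd⟩ := hT (AlgebraicClosure K ≃ₐ[K] AlgebraicClosure K) g
    (fun i => EP (A i) (B i)) (fun i σ => act (A i) (B i) σ)
    (fun i q hq => span2 (hD i) hq) Γ hfin (fun σ y hy => hst σ y hy) x (fun σ => hx σ) hf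
  -- transfer
  have trans : ∀ (i : Fin g) (y : EP (A i) (B i)),
      (∀ σ, act (A i) (B i) σ y ∈ AddSubgroup.zmultiples y) →
      ∀ τ ∈ M.fixingSubgroup, act (A₀ i) (B₀ i) τ (φ i y) ∈ AddSubgroup.zmultiples (φ i y) := by
    intro i y hy τ hτ
    obtain ⟨σ, rfl⟩ := hsurj τ hτ
    obtain ⟨m, hm⟩ := AddSubgroup.mem_zmultiples_iff.1 (hy σ)
    rcases hφ2 i σ with h | h
    · refine AddSubgroup.mem_zmultiples_iff.2 ⟨m, ?_⟩
      rw [← h y, ← hm, map_zsmul]
    · refine AddSubgroup.mem_zmultiples_iff.2 ⟨-m, ?_⟩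
      have h1 := h y
      rw [← hm, map_zsmul] at h1
      rw [neg_zsmul, h1, neg_neg]
  have hc := fun i => trans i (c i) (hcw i).2.2.1
  have hw := fun i => trans i (w i) (fun σ => by
    have h1 : act (A i) (B i) σ (w i) = w i := (hcw i).2.2.2 σ
    rw [h1]
    exact AddSubgroup.mem_zmultiples _)
  have hco : ∀ i, addOrderOf (φ i (c i)) = addOrderOf (c i) := fun i =>
    addOrderOf_injective (φ i) (hφ i) _
  have hwo : ∀ i, addOrderOf (φ i (w i)) = addOrderOf (w i) := fun i =>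
    addOrderOf_injective (φ i) (hφ i) _
  have hcf : ∀ i, IsOfFinAddOrder (φ i (c i)) := fun i => by
    rw [← addOrderOf_pos_iff, hco]
    exact (hcw i).1.addOrderOf_pos
  have hwf : ∀ i, IsOfFinAddOrder (φ i (w i)) := fun i => by
    rw [← addOrderOf_pos_iff, hwo]
    exact (hcw i).2.1.addOrderOf_pos
  have hpos : 0 < ∏ i, (addOrderOf (c i) * addOrderOf (w i)) :=
    Finset.prod_pos fun i _ => Nat.mul_pos (hcw i).1.addOrderOf_pos (hcw i).2.1.addOrderOf_pos
  rw [← hfr]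
  refine ⟨?_, ?_, ?_⟩
  · intro l hl hd
    obtain ⟨i, -, hi⟩ := (Prime.dvd_finsetProd_iff hl.prime _).1 (hd.trans hdvd)
    rcases (hl.dvd_mul).1 hi with h1 | h1
    · exact cy_prime' (hL i) M (hc i) (hcf i) hl (by rw [hco]; exact h1)
    · exact cy_prime' (hL i) M (hw i) (hwf i) hl (by rw [hwo]; exact h1)
  · refine (Nat.le_of_dvd hpos hdvd).trans ?_
    refine (Finset.prod_le_prod' (g := fun _ => Module.finrank k M ^ 4) fun i _ => ?_).trans ?_
    · have h1 := cy_all' (hL i) M (hc i) (hcf i)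
      have h2 := cy_all' (hL i) M (hw i) (hwf i)
      rw [hco] at h1
      rw [hwo] at h2
      have h3 := Nat.mul_le_mul h1 h2
      rw [← pow_add] at h3
      exact h3
    · rw [Finset.prod_const, Finset.card_univ, Fintype.card_fin, ← pow_mul]
  · intro hz
    refine (Nat.le_of_dvd hpos hdvd).trans ?_
    refine (Finset.prod_le_prod' (g := fun _ => Module.finrank k M ^ 2) fun i _ => ?_).trans ?_
    · have hs := hz i (A₀ i) (B₀ i) (hAB i).1 (hAB i).2
      have h1 := cy_small' (hL i) M (hc i) (hcf i) hs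
      have h2 := cy_small' (hL i) M (hw i) (hwf i) hs
      rw [hco] at h1
      rw [hwo] at h2
      have h3 := Nat.mul_le_mul h1 h2
      rw [← pow_two] at h3
      exact h3
    · rw [Finset.prod_const, Finset.card_univ, Fintype.card_fin, ← pow_mul]

section
variable {k : Type} [Field k] [NumberField k]

/-- the residue characteristic of a place -/
theorem res_char (v : Pr k) : ∃ p : ℕ, p.Prime ∧ (1 ≤ (adv k v).v (p : k)) ∧
    ∀ N : ℕ, 1 ≤ N → ¬ p ∣ N → (adv k v).v (N : k) = 0 := by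
  classical
  have hex : ∃ n : ℕ, n ≠ 0 ∧ (n : 𝓞 k) ∈ v.asIdeal := by
    refine ⟨Ideal.absNorm v.asIdeal, ?_, Ideal.absNorm_mem _⟩
    intro h0
    exact v.ne_bot (Ideal.absNorm_eq_zero_iff.1 h0)
  obtain ⟨hp0, hpv⟩ := Nat.find_spec hex
  have hmin : ∀ m, m < Nat.find hex → m ≠ 0 → (m : 𝓞 k) ∉ v.asIdeal := by
    intro m hm hm0 hmv
    exact Nat.find_min hex hm ⟨hm0, hmv⟩
  obtain ⟨p, hpd⟩ : ∃ p, p = Nat.find hex := ⟨_, rfl⟩
  rw [← hpd] at hp0 hpv hmin
  have hp1 : p ≠ 1 := by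
    rintro rfl
    rw [Nat.cast_one] at hpv
    exact v.isPrime.ne_top ((Ideal.eq_top_iff_one _).2 hpv)
  have hp : p.Prime := by
    by_contra hnp
    obtain ⟨a, ha⟩ := Nat.minFac_dvd p
    have hq := Nat.minFac_prime hp1
    have ha0 : a ≠ 0 := by
      rintro rfl
      omega
    have hlt : p.minFac < p := by
      refine lt_of_le_of_ne (Nat.minFac_le (Nat.pos_of_ne_zero hp0)) fun h => hnp ?_
      rw [← h]
      exact hq
    have hap : a < p := by
      have h2 := hq.two_le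
      calc a < 2 * a := by omega
        _ ≤ p.minFac * a := Nat.mul_le_mul_right _ h2
        _ = p := ha.symm
    have hmem : ((p.minFac : 𝓞 k)) * (a : 𝓞 k) ∈ v.asIdeal := by
      have : ((p.minFac : 𝓞 k)) * (a : 𝓞 k) = ((p : ℕ) : 𝓞 k) := by
        conv_rhs => rw [ha]
        push_cast
        rfl
      rw [this]
      exact hpv
    rcases v.isPrime.mem_or_mem hmem with h | h
    · exact hmin _ hlt hq.ne_zero h
    · exact hmin _ hap ha0 h
  refine ⟨p, hp, ?_, ?_⟩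
  · have h1 : ((p : ℕ) : k) = algebraMap (𝓞 k) k (p : 𝓞 k) := by rw [map_natCast]
    have h2 := (le_adv_iff k v (p : 𝓞 k) (by exact_mod_cast hp0) 1).2 (by rw [pow_one]; exact hpv)
    rw [h1]
    exact_mod_cast h2
  · intro N hN hpN
    have hN0 : (N : 𝓞 k) ≠ 0 := by exact_mod_cast (by omega : N ≠ 0)
    have h1 : ((N : ℕ) : k) = algebraMap (𝓞 k) k (N : 𝓞 k) := by rw [map_natCast]
    have h2 : (N : 𝓞 k) ∉ v.asIdeal := by
      intro hNv
      have hcop : IsCoprime (p : ℤ) (N : ℤ) :=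
        Nat.isCoprime_iff_coprime.2 ((Nat.Prime.coprime_iff_not_dvd hp).2 hpN)
      obtain ⟨a, b, hab⟩ := hcop
      apply v.isPrime.ne_top
      rw [Ideal.eq_top_iff_one]
      have : (1 : 𝓞 k) = (a : 𝓞 k) * (p : 𝓞 k) + (b : 𝓞 k) * (N : 𝓞 k) := by
        have := congrArg (Int.cast : ℤ → 𝓞 k) hab
        push_cast at this
        exact this.symm
      rw [this]
      exact Ideal.add_mem _ (Ideal.mul_mem_left _ _ hpv) (Ideal.mul_mem_left _ _ hNv)
    have h3 := (le_adv_iff k v (N : 𝓞 k) hN0 1).not.2 (by rw [pow_one]; exact h2)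
    have h4 : (0 : ℤ) ≤ (adv k v).v (algebraMap (𝓞 k) k (N : 𝓞 k)) := adv_nonneg k v _ hN0
    rw [h1]
    rw [not_le] at h3
    have h5 : (adv k v).v (algebraMap (𝓞 k) k (N : 𝓞 k)) < 1 := by exact_mod_cast h3
    omega

/-- **the invariants of `Q19.SU` have the property** -/
theorem ljk_of (hS : S_SERRE) {t : ℝ} {j : k} (h0 : j ≠ 0) (h1 : j ≠ 1728) (h : AllSLn t j)
    (hsp : 0 < Pool.Agent.Y733.LS.sp j) : LJk j := by
  obtain ⟨v, hv⟩ := exists_sp hsp
  obtain ⟨k1, k2, k3⟩ := adv_sp h0 hv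
  obtain ⟨p, hp, hp1, hpN⟩ := res_char v
  have h5 : 5 ≤ p := by
    by_contra hlt
    have h2 := hp.two_le
    interval_cases p
    · have : (adv k v).v ((2 : ℕ) : k) = 0 := by exact_mod_cast k1
      omega
    · have : (adv k v).v ((3 : ℕ) : k) = 0 := by exact_mod_cast k2
      omega
    · exact absurd hp (by norm_num)
  refine ⟨h0, h1, fun A B hD hj => ⟨p, hp, ?_, ?_⟩⟩
  · intro N hN hpd
    exact h A B hD hj N hN (Or.inr (Or.inr ⟨v, hv, hpN N hN hpd⟩))
  · exact serre hS hD hp h5 (h A B hD hj p hp.one_le (Or.inl hp))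

end

end Pool.Agent.N495.TS
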