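import Pool.Agent.N495.TS.LineN
import Pool.Agent.Q19.SU.Ser2

/-!
Large images for all large primes, for rational invariants which are bounded and are not nearly powers of
two and three in the denominator (helper495).
-/

set_option autoImplicit false
set_option linter.unusedSectionVars false

namespace Pool.Agent.N495.TS

open NumberField IsDedekindDomain Finset Pool.Agent.H691R3 Pool.Agent.W223.AK
open Pool.Agent.Y733.LS
open Pool.Agent.Y673.Loc
open Pool.Agent.Y673.SL (HasSL has_or)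
open Pool.Agent.Q19.SU (C5)
open Pool.Agent.TH942

theorem fv_natAbs (w : Pr ℚ) (z : ℤ) : fv w (z : ℚ) = fv w ((z.natAbs : ℕ) : ℚ) := by
  rcases Int.natAbs_eq z with h | h
  · conv_lhs => rw [h]
    rw [Int.cast_natCast]
  · conv_lhs => rw [h]
    rw [Int.cast_neg, map_neg_eq_map, Int.cast_natCast]

/-- a natural number prime to `q` is a unit where `q` is not -/
theorem fv_coprime (w : Pr ℚ) {q m : ℕ} (hq : fv w (q : ℚ) < 1) (h : Nat.Coprime m q) :
    fv w (m : ℚ) = 1 := by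
  have hna := fv_Na w
  have hm := hna.nat m
  by_contra hne
  have hlt : fv w (m : ℚ) < 1 := lt_of_le_of_ne hm hne
  have h1 : IsCoprime (m : ℤ) (q : ℤ) := Nat.isCoprime_iff_coprime.2 h
  obtain ⟨s, t, hst⟩ := h1
  have h2 : (s : ℚ) * m + t * q = 1 := by exact_mod_cast hst
  have hs : fv w (s : ℚ) ≤ 1 := by rw [fv_natAbs]; exact hna.nat _
  have ht : fv w (t : ℚ) ≤ 1 := by rw [fv_natAbs]; exact hna.nat _
  have h3 : fv w ((s : ℚ) * m + t * q) < 1 := by
    apply hna.lt_add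
    · rw [map_mul]
      have := apply_nonneg (fv w) (m : ℚ)
      nlinarith [apply_nonneg (fv w) (s : ℚ)]
    · rw [map_mul]
      have := apply_nonneg (fv w) (q : ℚ)
      nlinarith [apply_nonneg (fv w) (t : ℚ)]
  rw [h2, map_one] at h3
  exact lt_irrefl _ h3

theorem pole_sum {u v : ℤ} (hu : u ≠ 0) (hv : v ≠ 0) {M : ℝ} (hM : 1 ≤ M)
    (huv : |(u : ℝ)| ≤ M * |(v : ℝ)|) {a b m T : ℕ} (hvm : v.natAbs = 2 ^ a * 3 ^ b * m)
    (h2 : ¬ 2 ∣ m) (h3 : ¬ 3 ∣ m) (ha : a ≤ T) (hb : b ≤ T) :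
    ∃ V : Finset (Pr ℚ), (∀ w ∈ V, fv w 2 = 1 ∧ fv w 3 = 1 ∧ 1 < fv w ((u : ℚ) / v)) ∧
      ht ((u : ℚ) / v) ≤ ∑ w ∈ V, Real.log (fv w ((u : ℚ) / v)) + Real.log M + T * Real.log 6 := by
  classical
  set j : ℚ := (u : ℚ) / v with hj
  have huq : (u : ℚ) ≠ 0 := by exact_mod_cast hu
  have hvq : (v : ℚ) ≠ 0 := by exact_mod_cast hv
  have hj0 : j ≠ 0 := div_ne_zero huq hvq
  have hfin : {w : Pr ℚ | fv w 2 = 1 ∧ fv w 3 = 1 ∧ 1 < fv w j}.Finite := by
    refine (fv_support_finite hj0).subset fun w hw => ?_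
    exact hw.2.2.ne'
  refine ⟨hfin.toFinset, fun w hw => (Set.Finite.mem_toFinset hfin).1 hw, ?_⟩
  set V := hfin.toFinset with hV
  have hmem : ∀ w, w ∈ V ↔ fv w 2 = 1 ∧ fv w 3 = 1 ∧ 1 < fv w j := fun w =>
    Set.Finite.mem_toFinset hfin
  have hs2 := Fs_ht j
  have hs3 := Pool.Agent.Q19.SU.Fs_W V j
  have hs4 : (Function.support fun w : Pr ℚ => Real.log (fv w ((6 : ℕ) : ℚ))).Finite :=
    Fs_log (K := ℚ) (z := ((6 : ℕ) : ℚ)) (by norm_num)
  have hfr : (Module.finrank ℚ ℚ : ℝ) = 1 := by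
    rw [Module.finrank_self]
    norm_num
  have e1 : ∑ w ∈ V, Real.log (fv w j) + Real.log M + T * Real.log 6 =
      Sm (fun _ => 0 + (Real.log M + 0))
        (fun w => (if w ∈ V then Real.log (fv w j) else 0) +
          (0 + -(T : ℝ) * Real.log (fv w ((6 : ℕ) : ℚ)))) := by
    rw [Sm_add hs3 (supp_add (by simp) (supp_mul _ hs4)), Sm_add (by simp) (supp_mul _ hs4)]
    have e2 : Sm (fun _ : InfinitePlace ℚ => (0 : ℝ)) (fun w : Pr ℚ =>
        if w ∈ V then Real.log (fv w j) else 0) = ∑ w ∈ V, Real.log (fv w j) :=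
      Pool.Agent.Q19.SU.Sm_W V j
    have e3 : Sm (fun _ : InfinitePlace ℚ => Real.log M) (fun _ : Pr ℚ => (0 : ℝ)) =
        Real.log M := by
      rw [Sm_const, hfr, one_mul]
    have e4 : Sm (fun _ : InfinitePlace ℚ => (0 : ℝ)) (fun w : Pr ℚ =>
        -(T : ℝ) * Real.log (fv w ((6 : ℕ) : ℚ))) = T * Real.log 6 := by
      unfold Sm
      simp only [mul_zero, Finset.sum_const_zero, zero_add]
      have h5 := fin_nat (K := ℚ) (n := 6) (by norm_num)
      have h6 : ∑ᶠ w : Pr ℚ, -(T : ℝ) * Real.log (fv w ((6 : ℕ) : ℚ)) =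
          -(T : ℝ) * ∑ᶠ w : Pr ℚ, Real.log (fv w ((6 : ℕ) : ℚ)) := by
        rw [← smul_eq_mul, smul_finsum]
        rfl
      rw [h6, h5, hfr]
      push_cast
      ring
    rw [e2, e3, e4]
    ring
  rw [e1, ht_eq_Sa]
  unfold Sa
  apply Sm_mono hs2 (supp_add hs3 (supp_add (by simp) (supp_mul _ hs4)))
  · intro w
    rw [zero_add, add_zero]
    apply Real.log_le_log (lt_max_of_lt_right one_pos)
    apply max_le _ hM
    have hwn : ∀ z : ℤ, w.1 (z : ℚ) = |(z : ℝ)| := by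
      intro z
      have h5 : w.1 (z : ℚ) = w.1 ((z.natAbs : ℕ) : ℚ) := by
        rcases Int.natAbs_eq z with h | h
        · conv_lhs => rw [h]
          rw [Int.cast_natCast]
        · conv_lhs => rw [h]
          rw [Int.cast_neg, map_neg_eq_map, Int.cast_natCast]
      rw [h5, inf_nat, Nat.cast_natAbs, Int.cast_abs]
    have hvr : 0 < |(v : ℝ)| := abs_pos.2 (by exact_mod_cast hv)
    rw [hj, map_div₀, hwn, hwn, div_le_iff₀ hvr]
    exact huv
  · intro w
    have hna := fv_Na w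
    have n2 : fv w (2 : ℚ) ≤ 1 := hna.ofNat 2
    have n3 : fv w (3 : ℚ) ≤ 1 := hna.ofNat 3
    have p2 : 0 < fv w (2 : ℚ) := (fv w).pos (by norm_num)
    have p3 : 0 < fv w (3 : ℚ) := (fv w).pos (by norm_num)
    have e6 : fv w ((6 : ℕ) : ℚ) = fv w 2 * fv w 3 := by
      rw [← map_mul]
      norm_num
    have h6le : fv w ((6 : ℕ) : ℚ) ≤ 1 := hna.nat 6
    have h6pos : 0 < fv w ((6 : ℕ) : ℚ) := by rw [e6]; positivity
    have hlog6 : Real.log (fv w ((6 : ℕ) : ℚ)) ≤ 0 := Real.log_nonpos h6pos.le h6le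
    have hT0 : (0 : ℝ) ≤ T := Nat.cast_nonneg T
    have hterm : 0 ≤ -(T : ℝ) * Real.log (fv w ((6 : ℕ) : ℚ)) := by nlinarith
    show Real.log (max (fv w j) 1) ≤ (if w ∈ V then Real.log (fv w j) else 0) +
      (0 + -(T : ℝ) * Real.log (fv w ((6 : ℕ) : ℚ)))
    rw [zero_add]
    by_cases hle : fv w j ≤ 1
    · rw [max_eq_right hle, Real.log_one]
      split_ifs with hw
      · exact absurd hle (not_le.2 ((hmem w).1 hw).2.2)
      · linarith
    · rw [not_le] at hle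
      rw [max_eq_left hle.le]
      split_ifs with hw
      · linarith
      · rw [zero_add]
        have hm1 : fv w (m : ℚ) = 1 := by
          by_cases c2 : fv w (2 : ℚ) < 1
          · have c2' : fv w ((2 : ℕ) : ℚ) < 1 := by exact_mod_cast c2
            exact fv_coprime w c2' (((Nat.Prime.coprime_iff_not_dvd Nat.prime_two).2 h2).symm)
          · by_cases c3 : fv w (3 : ℚ) < 1
            · have c3' : fv w ((3 : ℕ) : ℚ) < 1 := by exact_mod_cast c3
              exact fv_coprime w c3' (((Nat.Prime.coprime_iff_not_dvd Nat.prime_three).2 h3).symm)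
            · exfalso
              exact hw ((hmem w).2 ⟨le_antisymm n2 (not_lt.1 c2), le_antisymm n3 (not_lt.1 c3), hle⟩)
        have hvw : fv w (v : ℚ) = fv w 2 ^ a * fv w 3 ^ b := by
          rw [fv_natAbs, hvm]
          push_cast
          rw [map_mul, map_mul, map_pow, map_pow, hm1, mul_one]
        have hlow : fv w ((6 : ℕ) : ℚ) ^ T ≤ fv w (v : ℚ) := by
          rw [hvw, e6, mul_pow]
          exact mul_le_mul (pow_le_pow_of_le_one p2.le n2 ha) (pow_le_pow_of_le_one p3.le n3 hb)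
            (by positivity) (by positivity)
        have hu1 : fv w (u : ℚ) ≤ 1 := by rw [fv_natAbs]; exact hna.nat _
        have h6T : 0 < fv w ((6 : ℕ) : ℚ) ^ T := by positivity
        have h7 : fv w j ≤ (fv w ((6 : ℕ) : ℚ) ^ T)⁻¹ := by
          rw [hj, map_div₀, div_le_iff₀ (lt_of_lt_of_le h6T hlow)]
          have h8 : (1 : ℝ) ≤ (fv w ((6 : ℕ) : ℚ) ^ T)⁻¹ * fv w (v : ℚ) := by
            rw [inv_mul_eq_div, one_le_div h6T]
            exact hlow
          linarith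
        have h8 := Real.log_le_log (by linarith) h7
        rw [Real.log_inv, Real.log_pow] at h8
        linarith

/-- **all large primes** -/
theorem all_large {A B : ℚ} (hD : 4 * A ^ 3 + 27 * B ^ 2 ≠ 0) {u v : ℤ} (hu : u ≠ 0) (hv : v ≠ 0)
    (hj : jv A B = (u : ℚ) / v) (h1728 : (u : ℚ) / v ≠ 1728) {M : ℝ} (hM : 1 ≤ M)
    (huv : |(u : ℝ)| ≤ M * |(v : ℝ)|) {a b m T : ℕ} (hvm : v.natAbs = 2 ^ a * 3 ^ b * m)
    (h2 : ¬ 2 ∣ m) (h3 : ¬ 3 ∣ m) (ha : a ≤ T) (hb : b ≤ T)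
    (hht : 2 * (C5 + Real.log M + T * Real.log 6) < ht ((u : ℚ) / v)) {p : ℕ} (hp : p.Prime)
    (h5 : 5 ≤ p) (hpj : ht ((u : ℚ) / v) < p * Real.log 2) : HasSL A B p := by
  classical
  obtain ⟨V, hV, hsum⟩ := pole_sum hu hv hM huv hvm h2 h3 ha hb
  set j : ℚ := (u : ℚ) / v with hjdef
  have huq : (u : ℚ) ≠ 0 := by exact_mod_cast hu
  have hvq : (v : ℚ) ≠ 0 := by exact_mod_cast hv
  have hj0 : j ≠ 0 := div_ne_zero huq hvq
  have e : jj A B = j := hj
  have hA0 : A ≠ 0 := by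
    rintro rfl
    apply hj0
    rw [← e]
    unfold jj
    simp
  have hB0 : B ≠ 0 := by
    rintro rfl
    apply h1728
    rw [← e]
    unfold jj
    have hA3 : A ^ 3 ≠ 0 := pow_ne_zero 3 hA0
    rw [zero_pow two_ne_zero, mul_zero, add_zero,
      div_eq_iff (mul_ne_zero (by norm_num : (4 : ℚ) ≠ 0) hA3)]
    ring
  have hfr : (Module.finrank ℚ ℚ : ℝ) = 1 := by
    rw [Module.finrank_self]
    norm_num
  have hlog2 : 0 < Real.log 2 := Real.log_pos (by norm_num)
  have hV' : ∀ w ∈ V, fv w 2 = 1 ∧ fv w 3 = 1 ∧ ∃ n : ℕ, 0 < n ∧ ¬ p ∣ n ∧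
      (adv ℚ w).v (jj A B) = -n := by
    intro w hw
    obtain ⟨w2, w3, wj⟩ := hV w hw
    refine ⟨w2, w3, ?_⟩
    have hfa := Pool.Agent.Y673.Cnt.fv_adv w hj0
    have hN := Nv_one_lt w
    have hneg : (adv ℚ w).v j < 0 := by
      by_contra hcon
      rw [not_lt] at hcon
      rw [hfa] at wj
      have : (Nv w) ^ (-(adv ℚ w).v j) ≤ 1 := zpow_le_one_of_nonpos₀ hN.le (by omega)
      linarith
    obtain ⟨n, hn⟩ : ∃ n : ℕ, (adv ℚ w).v j = -n := ⟨((adv ℚ w).v j).natAbs, by omega⟩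
    refine ⟨n, by omega, ?_, by rw [e]; exact hn⟩
    intro hdvd
    have hle := Nat.le_of_dvd (by omega) hdvd
    have h6 : fv w j = (Nv w) ^ n := by
      rw [hfa, hn, neg_neg, zpow_natCast]
    have h7 : (2 : ℝ) ≤ Nv w := by
      have h8 : (1 : ℝ) < Nv w := hN
      unfold Nv at h8 ⊢
      have h9 : 1 < Ideal.absNorm w.asIdeal := by exact_mod_cast h8
      exact_mod_cast h9
    have h8 : Real.log (fv w j) ≤ ht j := by
      rw [ht_eq_Sa]
      unfold Sa Sm
      have h9 : 0 ≤ ∑ w : InfinitePlace ℚ, (w.mult : ℝ) * Real.log (max (w.1 j) 1) :=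
        Finset.sum_nonneg fun w _ => mul_nonneg (Nat.cast_nonneg _)
          (Real.log_nonneg (le_max_right _ _))
      have h10 : Real.log (fv w j) ≤ ∑ᶠ v : Pr ℚ, Real.log (max (fv v j) 1) := by
        have h11 : Real.log (max (fv w j) 1) ≤ ∑ᶠ v : Pr ℚ, Real.log (max (fv v j) 1) :=
          single_le_finsum w (Fs_ht j) (fun v => Real.log_nonneg (le_max_right (fv v j) 1))
        rwa [max_eq_left wj.le] at h11
      linarith
    rw [h6, Real.log_pow] at h8
    have h9 : Real.log 2 ≤ Real.log (Nv w) := Real.log_le_log (by norm_num) h7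
    have h10 : (p : ℝ) ≤ n := by exact_mod_cast hle
    have h11 : (p : ℝ) * Real.log 2 ≤ n * Real.log (Nv w) := by
      have : (0 : ℝ) ≤ p := Nat.cast_nonneg p
      nlinarith
    linarith
  have hC5 : 0 ≤ C5 := by
    unfold C5
    have a1 : 0 ≤ Real.log 6912 := Real.log_nonneg (by norm_num)
    have a2 : 0 ≤ Real.log 250 := Real.log_nonneg (by norm_num)
    have a3 : 0 ≤ Real.log ((4 * 6912 * 46656 : ℕ) : ℝ) := Real.log_nonneg (by norm_num)
    positivity
  have hlM : 0 ≤ Real.log M := Real.log_nonneg hM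
  have hl6 : 0 ≤ (T : ℝ) * Real.log 6 := mul_nonneg (Nat.cast_nonneg _) (Real.log_nonneg (by norm_num))
  have hsum0 : 0 < ∑ w ∈ V, Real.log (fv w j) := by linarith
  obtain ⟨w, hw⟩ : V.Nonempty := by
    by_contra hcon
    rw [Finset.not_nonempty_iff_eq_empty] at hcon
    rw [hcon, Finset.sum_empty] at hsum0
    exact lt_irrefl _ hsum0
  have hO : OrdP A B p := by
    by_contra hno
    obtain ⟨-, -, n, hn, hpn, hnj⟩ := hV' w hw
    have h6 := v_prime_le w hp
    rw [Module.finrank_self] at h6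
    have h7 : (25 : ℤ) ≤ (p : ℤ) ^ 2 := by
      have : (5 : ℤ) ≤ p := by exact_mod_cast h5
      nlinarith
    have h8 := core A B hD hp h5 hno w (by push_cast at h6; linarith) (by
      show (adv ℚ w).v (jj A B) < 0
      rw [hnj]
      omega)
    have h9 : (p : ℤ) ∣ (adv ℚ w).v (jj A B) := h8
    rw [hnj, dvd_neg] at h9
    exact hpn (by exact_mod_cast h9)
  by_contra hno
  obtain ⟨v₀, hv₀, hv₀0, hst⟩ := has_or hD hp hno hO
  have hfinal := no_line_n hD hp h5 hA0 hB0 V hV' hv₀ hv₀0 hst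
  rw [e, hfr, one_mul] at hfinal
  linarith

end Pool.Agent.N495.TS
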