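import Pool.Agent.Q19.SU.NoL

/-!
Stable lines and the poles of the invariant whose order is not divisible by `p`: the argument of
`Pool.Agent.Q19.SU` (helper19, helper304) for simple poles extends to them (helper495).
-/

set_option autoImplicit false

namespace Pool.Agent.N495.TS

open WeierstrassCurve NumberField IsDedekindDomain Pool.Agent.H901R3.MS Pool.Agent.Y673.Loc
open Pool.Agent.Y673.Loc.ZV Pool.Agent.W275.FM Pool.Agent.W275.FMK Pool.Agent.Y673.FM
open Pool.Agent.H691R3 Pool.Agent.W223.AK Pool.Agent.Y733.LS Pool.Agent.TH942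
open Pool.Agent.Q19.SU

section
variable {K : Type} [Field K] [NumberField K] {L : Type} [Field L] [NumberField L] [Algebra K L]
  [DecidableEq L]

/-- **the points of a stable line have level zero** -/
theorem line_level_n [IsGalois K L] (w : HeightOneSpectrum (𝓞 L)) {H : ℤ} {e η : L}
    (D : Dt (adv L w) 0 H e η) {A B : K} (hA : algebraMap K L A = cA e η)
    (hB : algebraMap K L B = cB e η)
    {n : ℕ}
    (hH : 2 * H = n * Nat.card (w.asIdeal.inertia (L ≃ₐ[K] L))) {p : ℕ} (hp : p.Prime) (h5 : 5 ≤ p)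
    (hpn : ¬ p ∣ n)
    {P : Pt (cA e η) (cB e η)} (hP : p • P = 0) (hP0 : P ≠ 0)
    (hst : ∀ (σ : L ≃ₐ[K] L) (ha : rh σ (cA e η) = cA e η) (hb : rh σ (cB e η) = cB e η),
      ∃ m : ℤ, ac two_ne_zero (rh σ) ha hb P = m • P) :
    LV (adv L w) 0 H e η P 0 := by
  obtain ⟨α, hα⟩ := LV.total D P
  have hα0 := hα.nonneg D
  rcases eq_or_lt_of_le hα0 with h | h
  · rwa [← h] at hα
  exfalso
  have hodd : Odd p := hp.odd_of_ne_two (by omega)
  have htor := LV.tors D hα h hP
  have hαH := hα.le D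
  have hH1 := D.dat.hH
  have hαlt : α < H := by
    rcases hαH.lt_or_eq with h1 | h1
    · exact h1
    · exfalso
      subst h1
      obtain ⟨t, ht⟩ := htor
      have h2 : (p : ℤ) = 2 * t := by
        have h3 : α * ((p : ℤ) - 2 * t) = 0 := by linear_combination ht
        rcases mul_eq_zero.1 h3 with h4 | h4
        · omega
        · omega
      obtain ⟨s, hs⟩ := hodd
      omega
  rcases P with _ | ⟨x, y, hn⟩
  · exact hP0 rfl
  have hval : (adv L w).E α ((x - e) / (3 * e)) :=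
    (NN.E (w := adv L w) (c := 0) (H := H) hα h hαlt).cast (by ring)
  obtain ⟨I, hI⟩ : ∃ I, I = w.asIdeal.inertia (L ≃ₐ[K] L) := ⟨_, rfl⟩
  rw [← hI] at hH
  haveI : Finite (L ≃ₐ[K] L) := inferInstance
  obtain ⟨s, m, hm, hIm⟩ := Nat.exists_eq_pow_mul_and_not_dvd (Nat.card_pos (α := I)).ne' p
    hp.ne_one
  haveI : Fact p.Prime := ⟨hp⟩
  obtain ⟨S, hS⟩ := Sylow.exists_subgroup_card_pow_prime (G := I) p (n := s)
    (by rw [hIm]; exact Dvd.intro _ rfl)
  obtain ⟨J, hJ⟩ : ∃ J : Subgroup (L ≃ₐ[K] L), J = S.map I.subtype := ⟨_, rfl⟩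
  have hJI : J ≤ I := by
    rw [hJ]
    exact Subgroup.map_subtype_le S
  have hJc : Nat.card J = p ^ s := by
    rw [hJ, ← hS]
    exact (Nat.card_congr (S.equivMapOfInjective I.subtype I.subtype_injective).toEquiv).symm
  have hJk : ∀ σ ∈ J, ∀ z, (fun z => rh σ z)^[p ^ s] z = z := by
    intro σ hσ z
    rw [iter_pow']
    have h1 : (⟨σ, hσ⟩ : J) ^ (p ^ s) = 1 := by rw [← hJc]; exact pow_card_eq_one'
    have h2 : σ ^ (p ^ s) = 1 := by
      have := congrArg (fun x : J => (x : L ≃ₐ[K] L)) h1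
      simpa using this
    rw [h2]; rfl
  -- the root
  set g : Polynomial K := Polynomial.X ^ 3 + Polynomial.C A * Polynomial.X + Polynomial.C B with hg
  have gdeg : g.natDegree = 3 := by rw [hg]; compute_degree!
  have g0 : g ≠ 0 := by intro h; rw [h, Polynomial.natDegree_zero] at gdeg; omega
  have groot : Polynomial.aeval (-2 * e) g = 0 := by
    rw [hg]
    simp only [map_add, map_mul, map_pow, Polynomial.aeval_X, Polynomial.aeval_C]
    rw [hA, hB]
    unfold cA cB
    ring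
  have hzfix : ∀ σ ∈ J, σ ((x - e) / (3 * e)) = (x - e) / (3 * e) := by
    intro σ hσ
    have h1 := fixroot hp g g0 (by omega) σ (hJk σ hσ) groot
    have he : rh σ e = e := by
      rw [map_mul, map_neg, map_ofNat] at h1
      have h2 : (2 : L) * (rh σ e - e) = 0 := by linear_combination -h1
      rcases mul_eq_zero.1 h2 with h3 | h3
      · exact absurd h3 two_ne_zero
      · exact sub_eq_zero.1 h3
    have ha : rh σ (cA e η) = cA e η := by rw [← hA]; exact σ.commutes A
    have hb : rh σ (cB e η) = cB e η := by rw [← hB]; exact σ.commutes B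
    have hin : In (adv L w) (rh σ) := inertia_In K L w (by rw [← hI]; exact hJI hσ)
    have h3 := fix_of_stable D hp hodd hP hP0 h hα hin ha hb he (hJk σ hσ) (hst σ ha hb)
    rw [ac_some, Affine.Point.some.injEq] at h3
    have h4 : σ x = x := h3.1
    have h5 : σ e = e := he
    rw [map_div₀, map_sub, map_mul, map_ofNat, h4, h5]
  have hdvd := fix_dvd K L w J (by rw [← hI]; exact hJI) _ hzfix
  rw [hJc, hval.2] at hdvd
  have hmn : ¬ p ∣ m * n := fun h => (hp.dvd_mul.1 h).elim hm hpn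
  have hIm' : (2 * H : ℤ) = (p : ℤ) ^ s * ((m * n : ℕ) : ℤ) := by
    rw [hH, hIm]
    push_cast
    ring
  have hmα : ((m * n : ℕ) : ℤ) ∣ α := by
    have h1 : ((m * n : ℕ) : ℤ) ∣ p * α := (Dvd.intro_left _ hIm'.symm).trans htor
    have hcop : IsCoprime ((m * n : ℕ) : ℤ) (p : ℤ) := by
      rw [Int.isCoprime_iff_gcd_eq_one]
      exact ((Nat.Prime.coprime_iff_not_dvd hp).2 hmn).symm
    exact hcop.dvd_of_dvd_mul_left h1
  have hcop2 : IsCoprime ((p : ℤ) ^ s) ((m * n : ℕ) : ℤ) := by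
    apply IsCoprime.pow_left
    rw [Int.isCoprime_iff_gcd_eq_one]
    exact (Nat.Prime.coprime_iff_not_dvd hp).2 hmn
  have hall : (p : ℤ) ^ s * ((m * n : ℕ) : ℤ) ∣ α := hcop2.mul_dvd (by exact_mod_cast hdvd) hmα
  rw [← hIm'] at hall
  have := Int.le_of_dvd h hall
  omega

end

/-- the reduction at a pole of the invariant -/
theorem mult_facts {K : Type} [Field K] [NumberField K] {a b : K} (hD : dl a b ≠ 0)
    (hj0 : jj a b ≠ 0) {v : Pr K} (h2 : fv v 2 = 1) (h3 : fv v 3 = 1) {n : ℕ} (hn : 0 < n)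
    (hj : (adv K v).v (jj a b) = -n) :
    fv v a ^ 3 = fv v b ^ 2 ∧ fv v (dl a b) < fv v b ^ 2 := by
  have hN := Nv_one_lt v
  have hna := fv_Na v
  have h6912 : fv v (6912 : K) = 1 := by
    have : (6912 : K) = 2 ^ 8 * 3 ^ 3 := by norm_num
    rw [this, map_mul, map_pow, map_pow, h2, h3]
    norm_num
  have h27 : fv v (27 : K) = 1 := by
    have : (27 : K) = 3 ^ 3 := by norm_num
    rw [this, map_pow, h3]
    norm_num
  have h4 : fv v (4 : K) = 1 := by
    have : (4 : K) = 2 ^ 2 := by norm_num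
    rw [this, map_pow, h2]
    norm_num
  have hd0 : 0 < fv v (dl a b) := (fv v).pos hD
  have hj1 : 1 < fv v (jj a b) := by
    rw [Pool.Agent.Y673.Cnt.fv_adv v hj0, hj, neg_neg]
    exact one_lt_zpow₀ hN (by exact_mod_cast hn)
  rw [w_jj, h6912, one_mul, one_lt_div hd0] at hj1
  have e : 27 * b ^ 2 = -(4 * a ^ 3) + dl a b := by unfold dl; ring
  have e1 : fv v (27 * b ^ 2) = fv v b ^ 2 := by rw [map_mul, h27, one_mul, map_pow]
  have e2 : fv v (-(4 * a ^ 3)) = fv v a ^ 3 := by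
    rw [map_neg_eq_map, map_mul, h4, one_mul, map_pow]
  have e3 : fv v b ^ 2 = fv v a ^ 3 := by
    rw [← e1, e, hna.eq, e2]
    rw [e2]
    exact hj1
  exact ⟨e3.symm, by rw [e3]; exact hj1⟩

section good
variable {L : Type} [Field L] [NumberField L] [DecidableEq L]

theorem line_level2_n {K : Type} [Field K] [NumberField K] [Algebra K L] [IsGalois K L] (w : Pr L)
    {H : ℤ} {e η : L} (D : Dt (adv L w) 0 H e η) {A B : K} {a b : L} (hA : algebraMap K L A = a)
    (hB : algebraMap K L B = b) (ha : a = cA e η) (hb : b = cB e η)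
    {n : ℕ}
    (hH : 2 * H = n * Nat.card (w.asIdeal.inertia (L ≃ₐ[K] L))) {p : ℕ} (hp : p.Prime) (h5 : 5 ≤ p)
    (hpn : ¬ p ∣ n)
    {x y : L} {hn : (CV a b).toAffine.Nonsingular x y}
    (hP : p • (Affine.Point.some x y hn : Pt a b) = 0)
    (hst : ∀ (σ : L ≃ₐ[K] L) (ha : rh σ a = a) (hb : rh σ b = b),
      ∃ m : ℤ, ac two_ne_zero (rh σ) ha hb (Affine.Point.some x y hn : Pt a b) =
        m • (Affine.Point.some x y hn : Pt a b))
    (h2 : fv w 2 = 1) (h3 : fv w 3 = 1) : Good (fv w) a b x := by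
  subst ha hb
  have h := line_level_n w D hA hB hH hp h5 hpn hP (Affine.Point.some_ne_zero hn) hst
  exact good_of_NN D h2 h3 h

end good

section main
variable {K : Type} [Field K] [NumberField K]

open scoped Classical in
/-- a stable line bounds the sum over the poles of `j` of order prime to `p` -/
theorem no_line_n {A B : K} (hD : 4 * A ^ 3 + 27 * B ^ 2 ≠ 0) {p : ℕ} (hp : p.Prime) (h5 : 5 ≤ p)
    (hA0 : A ≠ 0) (hB0 : B ≠ 0) (V : Finset (Pr K))
    (hV : ∀ v ∈ V, fv v 2 = 1 ∧ fv v 3 = 1 ∧ ∃ n : ℕ, 0 < n ∧ ¬ p ∣ n ∧ (adv K v).v (jj A B) = -n)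
    {v₀ : Pt (ca (AlgebraicClosure K) A) (ca (AlgebraicClosure K) B)} (hv : p • v₀ = 0)
    (hv0 : v₀ ≠ 0)
    (hst : ∀ τ : AlgebraicClosure K ≃ₐ[K] AlgebraicClosure K,
      mp A B (τ : AlgebraicClosure K →ₐ[K] AlgebraicClosure K) v₀ ∈ AddSubgroup.zmultiples v₀) :
    ∑ v ∈ V, Real.log (fv v (jj A B)) ≤ 1 / 2 * ht (jj A B) + Module.finrank ℚ K * C5 := by
  set Kb := AlgebraicClosure K with hKb
  haveI : CharZero Kb := charZero_of_injective_algebraMap (algebraMap K Kb).injective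
  have hodd : Odd p := hp.odd_of_ne_two (by omega)
  have disc_of : Disc (ca Kb A) (ca Kb B) := by
    unfold Disc ca
    refine mul_ne_zero two_ne_zero ?_
    have e : (4 : Kb) * (algebraMap K Kb A) ^ 3 + 27 * (algebraMap K Kb B) ^ 2 =
        algebraMap K Kb (4 * A ^ 3 + 27 * B ^ 2) := by
      simp only [map_mul, map_add, map_pow, map_ofNat]
    rw [e]
    exact (map_ne_zero _).2 hD
  obtain ⟨fin1, -⟩ := Mul.tor Kb (ca Kb A) (ca Kb B) disc_of p (by omega)
  set g₃ : Polynomial K := Polynomial.X ^ 3 + Polynomial.C A * Polynomial.X +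
    Polynomial.C B with hg₃
  have d₃ : g₃.natDegree = 3 := by rw [hg₃]; compute_degree!
  have n₃ : g₃ ≠ 0 := by intro h; rw [h, Polynomial.natDegree_zero] at d₃; omega
  have finz : {z : Kb | Polynomial.aeval z g₃ = 0}.Finite := by
    have hg' : g₃.map (algebraMap K Kb) ≠ 0 :=
      (Polynomial.map_ne_zero_iff (algebraMap K Kb).injective).2 n₃
    refine Set.Finite.subset (g₃.map (algebraMap K Kb)).roots.toFinset.finite_toSet ?_
    intro z hz
    rw [Finset.mem_coe, Multiset.mem_toFinset, Polynomial.mem_roots hg', Polynomial.IsRoot.def,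
      Polynomial.eval_map_algebraMap]
    exact hz
  have stab : ∀ (σ : Kb ≃ₐ[K] Kb) (z : Kb), Polynomial.aeval z g₃ = 0 →
      Polynomial.aeval (σ z) g₃ = 0 := by
    intro σ z hz
    have e : Polynomial.aeval (σ z) g₃ = σ (Polynomial.aeval z g₃) :=
      Polynomial.aeval_algHom_apply (σ : Kb →ₐ[K] Kb) z g₃
    rw [e, hz, map_zero]
  obtain ⟨L, iF, iN, iA, iG, ι, hι, hτσ⟩ := Pool.Agent.W150.FMK.Fld.main K
    ((crd A B p : Set Kb) ∪ {z : Kb | Polynomial.aeval z g₃ = 0})
    ((crd_finite A B p fin1).union finz) (by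
      rintro σ z (hz | hz)
      · exact Or.inl (crd_map A B p (σ : Kb →ₐ[K] Kb) hz)
      · exact Or.inr (stab σ z hz))
  have ev₃ : ∀ z : Kb, Polynomial.aeval z g₃ = z ^ 3 + ca Kb A * z + ca Kb B := by
    intro z; rw [hg₃]; simp [ca]
  obtain ⟨e₁, e₂, e₃, hsumL, l12, l23, l13, hAL, hBL⟩ := cubic_data A B hD ι (by
    intro z hz
    exact hι z (Or.inr (by
      show Polynomial.aeval z g₃ = 0
      rw [ev₃]; exact hz)))
  -- the point over `L`
  rcases v₀ with _ | ⟨X, Y, hXY⟩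
  · exact absurd rfl hv0
  obtain ⟨x', rfl⟩ := hι X (Or.inl ⟨X, Y, hXY, hv, Or.inl rfl⟩)
  obtain ⟨y', rfl⟩ := hι Y (Or.inl ⟨_, Y, hXY, hv, Or.inr rfl⟩)
  have hn : (CV (ca L A) (ca L B)).toAffine.Nonsingular x' y' := ns_desc A B ι hXY
  have hpP : p • (Affine.Point.some x' y' hn : Pt (ca L A) (ca L B)) = 0 :=
    (tors_map A B ι p hn hXY).1 hv
  have hstL : ∀ (σ : L ≃ₐ[K] L) (ha : rh σ (ca L A) = ca L A) (hb : rh σ (ca L B) = ca L B),
      ∃ m : ℤ, ac two_ne_zero (rh σ) ha hb (Affine.Point.some x' y' hn : Pt (ca L A) (ca L B)) =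
        m • (Affine.Point.some x' y' hn : Pt (ca L A) (ca L B)) := by
    intro σ ha hb
    obtain ⟨τ, hτ, -⟩ := hτσ σ
    obtain ⟨m, hm⟩ := AddSubgroup.mem_zmultiples_iff.1 (hst τ)
    refine ⟨m, ?_⟩
    apply mp_injective A B ι
    rw [map_zsmul, mp_some A B ι hn, ac_some, mp_some A B ι]
    refine Eq.trans ?_ hm.symm
    rw [mp_some, Affine.Point.some.injEq]
    exact ⟨hτ x', hτ y'⟩
  -- the places
  have hj0 : jj A B ≠ 0 := by
    unfold jj
    exact div_ne_zero (mul_ne_zero (by norm_num) (pow_ne_zero 3 hA0)) hD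
  have hjL : jr e₁ e₂ e₃ = algebraMap K L (jj A B) := by
    unfold jr jj
    have hDL : algebraMap K L (4 * A ^ 3 + 27 * B ^ 2) =
        -((e₁ - e₂) * (e₂ - e₃) * (e₃ - e₁)) ^ 2 := by
      simp only [map_mul, map_add, map_pow, map_ofNat]
      rw [hAL, hBL]
      have : e₃ = -e₁ - e₂ := by linear_combination hsumL
      rw [this]; ring
    have hdL : ((e₁ - e₂) * (e₂ - e₃) * (e₃ - e₁)) ≠ 0 :=
      mul_ne_zero (mul_ne_zero (sub_ne_zero.2 l12) (sub_ne_zero.2 l23)) (sub_ne_zero.2 l13.symm)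
    rw [map_div₀, hDL]
    simp only [map_mul, map_pow, map_ofNat]
    rw [hAL]
    have : e₃ = -e₁ - e₂ := by linear_combination hsumL
    subst this
    rw [div_eq_div_iff (pow_ne_zero 2 hdL) (neg_ne_zero.2 (pow_ne_zero 2 hdL))]
    ring
  obtain ⟨W, hW1, hW2⟩ := above_sum L V
  have hlocal : ∀ w ∈ W, Gw (ca L A) (ca L B) w ∧ Good (fv w) (ca L A) (ca L B) x' := by
    intro w hw
    obtain ⟨v, hvV, hwv⟩ := hW1 w hw
    obtain ⟨hS2, hS3, nn, hnn, hpnn, hvj⟩ := hV v hvV
    obtain ⟨f1, f2⟩ := mult_facts (a := A) (b := B) hD hj0 hS2 hS3 hnn hvj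
    have hdeg := ldeg_pos v w hwv
    have ext := fv_ext v w hwv
    have g2 : fv w (2 : L) = 1 := by
      have := ext 2
      rwa [map_ofNat, hS2, one_pow] at this
    have g3 : fv w (3 : L) = 1 := by
      have := ext 3
      rwa [map_ofNat, hS3, one_pow] at this
    have gA : fv w (ca L A) = fv v A ^ ldeg v w := ext A
    have gB : fv w (ca L B) = fv v B ^ ldeg v w := ext B
    have gD : fv w (dl (ca L A) (ca L B)) = fv v (dl A B) ^ ldeg v w := by
      have e : dl (ca L A) (ca L B) = algebraMap K L (dl A B) := by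
        unfold dl ca
        simp only [map_mul, map_add, map_pow, map_ofNat]
      rw [e]
      exact ext _
    refine ⟨⟨g2, g3, ?_, ?_⟩, ?_⟩
    · rw [gA, gB, ← pow_mul, ← pow_mul, mul_comm _ 3, mul_comm _ 2, pow_mul, pow_mul, f1]
    · rw [gD, gB, ← pow_mul, mul_comm _ 2, pow_mul]
      exact pow_lt_pow_left₀ f2 (apply_nonneg _ _) hdeg.ne'
    · obtain ⟨v', hv', hadv⟩ := adv_w K L w
      have hvv : v' = v := by
        apply HeightOneSpectrum.ext
        rw [hv']
        exact hwv.over.symm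
      subst hvv
      have a2 : (adv K v').v 2 = 0 := (Pool.Agent.Y673.Cnt.fv_eq_one_iff v' two_ne_zero).1 hS2
      have aj : (adv K v').v (jj A B) = -nn := hvj
      set c : ℤ := (Nat.card (w.asIdeal.inertia (L ≃ₐ[K] L)) : ℤ) with hc
      have hc1 : 1 ≤ c := by
        rw [hc]
        haveI : Finite (L ≃ₐ[K] L) := inferInstance
        exact_mod_cast Nat.card_pos (α := w.asIdeal.inertia (L ≃ₐ[K] L))
      have h2L : (adv L w).E 0 (2 : L) := by
        refine ⟨two_ne_zero, ?_⟩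
        have := hadv 2
        rwa [map_ofNat, a2, mul_zero] at this
      have hEj : (adv L w).E (-(nn * c)) (jr e₁ e₂ e₃) := by
        rw [hjL]
        refine ⟨(map_ne_zero _).2 hj0, ?_⟩
        rw [hadv, aj]
        ring
      have hnc : 0 < (nn : ℤ) * c := by
        have : (0 : ℤ) < nn := by exact_mod_cast hnn
        positivity
      obtain ⟨e, t, H, D, hH, hcA, hcB⟩ := root_data le_rfl h2L (by norm_num) hsumL l12 l23 l13
        (by omega) hEj
      refine line_level2_n w D (A := A) (B := B) rfl rfl (hAL.trans hcA) (hBL.trans hcB)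
        (by rw [hH, neg_neg]) hp h5 hpnn hpP hstL g2 g3
  -- the multiples
  have hDL0 : dl (ca L A) (ca L B) ≠ 0 := by
    have e : dl (ca L A) (ca L B) = algebraMap K L (dl A B) := by
      unfold dl ca
      simp only [map_mul, map_add, map_pow, map_ofNat]
    rw [e]
    exact (map_ne_zero _).2 hD
  have hAL0 : ca L A ≠ 0 := (map_ne_zero (algebraMap K L)).2 hA0
  have hBL0 : ca L B ≠ 0 := (map_ne_zero (algebraMap K L)).2 hB0
  obtain ⟨P, hP⟩ : ∃ P : SPt (ca L A) (ca L B), P = Affine.Point.some x' y' hn := ⟨_, rfl⟩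
  have hpP' : p • P = 0 := by rw [hP]; exact hpP
  have hP0 : P ≠ 0 := by rw [hP]; exact Affine.Point.some_ne_zero hn
  have hcop : ∀ k : ℕ, (2 ^ k : ℕ) • P ≠ 0 := by
    intro k h
    apply hP0
    have hc : Nat.Coprime (2 ^ k) p := by
      apply Nat.Coprime.pow_left
      rw [Nat.coprime_two_left]
      exact hodd
    have h1 : IsOfFinAddOrder P := isOfFinAddOrder_iff_nsmul_eq_zero.2 ⟨p, hp.pos, hpP'⟩
    have h2 : addOrderOf P ∣ p := addOrderOf_dvd_of_nsmul_eq_zero hpP'
    have h3 : addOrderOf P ∣ 2 ^ k := addOrderOf_dvd_of_nsmul_eq_zero h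
    have h4 : addOrderOf P ∣ 1 := by
      rw [← hc]
      exact Nat.dvd_gcd h3 h2
    exact AddMonoid.addOrderOf_eq_one_iff.1 (Nat.dvd_one.1 h4)
  have hex : ∀ k : ℕ, ∃ (x y : L) (h : (sw (ca L A) (ca L B)).toAffine.Nonsingular x y),
      (2 ^ k : ℕ) • P = Affine.Point.some x y h := fun k => exists_coord _ (hcop k)
  choose x y h hxy using hex
  have hy : ∀ k, y k ≠ 0 := by
    intro k h0
    apply hcop (k + 1)
    rw [pow_succ, mul_comm, mul_smul, hxy k]
    exact dup_zero (h k) h0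
  have hG : ∀ k, pG (ca L A) (ca L B) (x k) ≠ 0 := fun k => (dup_some (h k) (hy k)).1
  have hx : ∀ k, x (k + 1) = pF (ca L A) (ca L B) (x k) / pG (ca L A) (ca L B) (x k) := by
    intro k
    obtain ⟨_, y', h', e⟩ := dup_some (h k) (hy k)
    have e1 : (2 ^ (k + 1) : ℕ) • P = Affine.Point.some _ y' h' := by
      rw [pow_succ, mul_comm, mul_smul, hxy k, e]
    rw [hxy (k + 1)] at e1
    injection e1
  have hx0 : x 0 = x' := by
    have h1 := hxy 0
    rw [pow_zero, one_smul, hP] at h1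
    injection h1 with h2 h3
    exact h2.symm
  have hper : ∀ k, x (k + (p - 1)) = x k := by
    intro k
    have h1 : (2 ^ (k + (p - 1)) : ℕ) • P = (2 ^ k : ℕ) • P := by
      have h2 : 2 ^ (p - 1) ≡ 1 [MOD p] := by
        have h3 : Nat.Coprime 2 p := by rw [Nat.coprime_two_left]; exact hodd
        have h4 := Nat.ModEq.pow_totient h3
        rwa [Nat.totient_prime hp] at h4
      have h3 : 2 ^ (k + (p - 1)) ≡ 2 ^ k [MOD p] := by
        rw [pow_add]
        simpa using h2.mul_left (2 ^ k)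
      have h4 : addOrderOf P ∣ p := addOrderOf_dvd_of_nsmul_eq_zero hpP'
      exact (nsmul_eq_nsmul_iff_modEq).2 (h3.of_dvd h4)
    rw [hxy, hxy] at h1
    injection h1
  have hfinal := periodic hAL0 hBL0 hDL0 (fun w hw => (hlocal w hw).1) hG hx
    (m := p - 1) (by omega) hper (fun w hw => by rw [hx0]; exact (hlocal w hw).2)
  have hjj : jj (ca L A) (ca L B) = algebraMap K L (jj A B) := by
    unfold jj ca
    simp only [map_div₀, map_mul, map_add, map_pow, map_ofNat]
  rw [hjj, hW2] at hfinal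
  have hhtL : ht (algebraMap K L (jj A B)) = Module.finrank K L * ht (jj A B) := by
    have h1 := Pool.Agent.Y673.DK.ht_ext K L (jj A B)
    rw [logHeight_eq, ← ht_eq_Sa, logHeight_eq, ← ht_eq_Sa] at h1
    exact h1
  have hfr : (Module.finrank ℚ L : ℝ) = Module.finrank ℚ K * Module.finrank K L := by
    exact_mod_cast (Module.finrank_mul_finrank ℚ K L).symm
  have hm0 : (0 : ℝ) < Module.finrank K L := by
    haveI : FiniteDimensional K L := Module.Finite.of_restrictScalars_finite ℚ K L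
    exact_mod_cast Module.finrank_pos
  rw [hhtL, hfr] at hfinal
  have h7 : (Module.finrank K L : ℝ) * ∑ v ∈ V, Real.log (fv v (jj A B)) ≤
      Module.finrank K L * (1 / 2 * ht (jj A B) + Module.finrank ℚ K * C5) := by linarith
  exact le_of_mul_le_mul_left h7 hm0

end main

end Pool.Agent.N495.TS
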