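import Pool.Agent.N666.TM.Zer
import Pool.Agent.N603.TH.Sieve

/-!
Multiplicities of the values of a quotient of polynomials along a well distributed sequence (helper495).
-/

set_option autoImplicit false
set_option linter.unusedSectionVars false

namespace Pool.Agent.N495.TS

open Finset Filter MvPolynomial Pool.Agent.N666.TM Pool.Agent.Y722.HS

section
variable {ι : Type} [Fintype ι] [DecidableEq ι]

/-- the fibres of `U / V` over almost all residue classes are large for all large primes -/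
def Rich (U V : MvPolynomial ι ℤ) : Prop :=
  ∃ (δ : ℝ) (g : Polynomial ℤ) (p₀ : ℕ), 0 < δ ∧ g ≠ 0 ∧ ∀ p : ℕ, p.Prime → p₀ < p →
    ∀ t : ℤ, ¬ (p : ℤ) ∣ g.eval t →
      δ * (p : ℝ) ^ Fintype.card ι ≤ p * ({ρ : ι → ZMod p |
        aeval ρ U = (t : ZMod p) * aeval ρ V ∧ aeval ρ V ≠ 0}.ncard : ℝ)

/-- `U` and `V` are not proportional -/
def Nonprop (U V : MvPolynomial ι ℤ) : Prop :=
  ∃ d e, U.coeff d * V.coeff e - U.coeff e * V.coeff d ≠ 0

theorem aeval_mp (p : ℕ) (ρ : ι → ZMod p) (R : MvPolynomial ι ℤ) : aeval ρ R = eval ρ (mp p R) := by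
  rw [MvPolynomial.eval_map, aeval_def]
  rfl

theorem aeval_red (p : ℕ) (R : MvPolynomial ι ℤ) (c : ι → ℤ) :
    aeval (red p c) R = ((eval c R : ℤ) : ZMod p) := by
  rw [aeval_mp, eval_red]

theorem Rich.nonprop {U V : MvPolynomial ι ℤ} (h : Rich U V) : Nonprop U V := by
  classical
  obtain ⟨δ, g, p₀, hδ, hg, h⟩ := h
  by_contra hcon
  unfold Nonprop at hcon
  push Not at hcon
  -- a point where `V` does not vanish
  have hfib : ∀ p : ℕ, p.Prime → p₀ < p → ∀ t : ℤ, ¬ (p : ℤ) ∣ g.eval t →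
      ∃ ρ : ι → ZMod p, aeval ρ U = (t : ZMod p) * aeval ρ V ∧ aeval ρ V ≠ 0 := by
    intro p hp hlt t ht
    have h1 := h p hp hlt t ht
    have hp0 : (0 : ℝ) < p := by exact_mod_cast hp.pos
    have h2 : 0 < δ * (p : ℝ) ^ Fintype.card ι := by positivity
    have h3 : ({ρ : ι → ZMod p | aeval ρ U = (t : ZMod p) * aeval ρ V ∧ aeval ρ V ≠ 0}).ncard ≠ 0 := by
      intro h0
      rw [h0] at h1
      simp at h1
      linarith
    obtain ⟨ρ, hρ⟩ := Set.nonempty_of_ncard_ne_zero h3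
    exact ⟨ρ, hρ⟩
  -- two parameters
  have htwo : ∀ T : ℕ, ∃ p : ℕ, p.Prime ∧ T < p ∧ ∃ t₁ t₂ : ℤ, ¬ (p : ℤ) ∣ g.eval t₁ ∧
      ¬ (p : ℤ) ∣ g.eval t₂ ∧ ¬ (p : ℤ) ∣ t₁ - t₂ := by
    intro T
    have hr : (g.roots.toFinset : Set ℤ).Finite := Finset.finite_toSet _
    obtain ⟨t₁, ht₁⟩ : ∃ t₁ : ℤ, t₁ ∉ g.roots.toFinset := Infinite.exists_notMem_finset _
    obtain ⟨t₂, ht₂⟩ : ∃ t₂ : ℤ, t₂ ∉ insert t₁ g.roots.toFinset := Infinite.exists_notMem_finset _
    rw [Finset.mem_insert, not_or] at ht₂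
    have e1 : g.eval t₁ ≠ 0 := by
      intro h0
      exact ht₁ (Multiset.mem_toFinset.2 ((Polynomial.mem_roots hg).2 h0))
    have e2 : g.eval t₂ ≠ 0 := by
      intro h0
      exact ht₂.2 (Multiset.mem_toFinset.2 ((Polynomial.mem_roots hg).2 h0))
    have e3 : t₁ - t₂ ≠ 0 := sub_ne_zero.2 (Ne.symm ht₂.1)
    obtain ⟨p, hpT, hp⟩ := Nat.exists_infinite_primes
      (T + 1 + (g.eval t₁).natAbs + (g.eval t₂).natAbs + (t₁ - t₂).natAbs)
    have key : ∀ z : ℤ, z ≠ 0 → z.natAbs < p → ¬ (p : ℤ) ∣ z := by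
      intro z hz hlt hd
      have := Nat.le_of_dvd (Int.natAbs_pos.2 hz) (Int.natCast_dvd.1 hd)
      omega
    exact ⟨p, hp, by omega, t₁, t₂, key _ e1 (by omega), key _ e2 (by omega), key _ e3 (by omega)⟩
  have hV : V ≠ 0 := by
    rintro rfl
    obtain ⟨p, hp, hlt, t₁, -, h1, -, -⟩ := htwo p₀
    obtain ⟨ρ, -, h2⟩ := hfib p hp hlt t₁ h1
    exact h2 (map_zero _)
  obtain ⟨e, he⟩ := MvPolynomial.ne_zero_iff.1 hV
  have hprop : C (coeff e V) * U = C (coeff e U) * V := by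
    ext d
    rw [coeff_C_mul, coeff_C_mul]
    have := hcon d e
    linear_combination this
  obtain ⟨p, hp, hlt, t₁, t₂, h1, h2, h3⟩ := htwo (p₀ + (coeff e V).natAbs)
  have : Fact p.Prime := ⟨hp⟩
  have hve : ((coeff e V : ℤ) : ZMod p) ≠ 0 := by
    intro h0
    rw [ZMod.intCast_zmod_eq_zero_iff_dvd] at h0
    have := Nat.le_of_dvd (Int.natAbs_pos.2 he) (Int.natCast_dvd.1 h0)
    omega
  have key : ∀ t : ℤ, ¬ (p : ℤ) ∣ g.eval t →
      ((coeff e V : ℤ) : ZMod p) * (t : ZMod p) = ((coeff e U : ℤ) : ZMod p) := by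
    intro t ht
    obtain ⟨ρ, hρ1, hρ2⟩ := hfib p hp (by omega) t ht
    have h4 := congrArg (aeval ρ) hprop
    rw [map_mul, map_mul, aeval_C, aeval_C, hρ1] at h4
    have h5 : ∀ z : ℤ, (algebraMap ℤ (ZMod p)) z = (z : ZMod p) := fun z => rfl
    rw [h5, h5] at h4
    apply mul_right_cancel₀ hρ2
    rw [← h4]
    ring
  have h4 : ((coeff e V : ℤ) : ZMod p) * (t₁ : ZMod p) = ((coeff e V : ℤ) : ZMod p) * (t₂ : ZMod p) := by
    rw [key t₁ h1, key t₂ h2]
  have h5 := mul_left_cancel₀ hve h4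
  apply h3
  rw [← ZMod.intCast_zmod_eq_zero_iff_dvd]
  push_cast
  rw [h5, sub_self]

theorem Nonprop.ne {U V : MvPolynomial ι ℤ} (h : Nonprop U V) (s t : ℤ) (hst : s ≠ 0 ∨ t ≠ 0) :
    C t * U - C s * V ≠ 0 := by
  obtain ⟨d, e, hde⟩ := h
  intro h0
  have h1 : ∀ m, t * coeff m U - s * coeff m V = 0 := by
    intro m
    have := congrArg (coeff m) h0
    rw [coeff_sub, coeff_C_mul, coeff_C_mul, coeff_zero] at this
    exact this
  have hd := h1 d
  have he := h1 e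
  have ht : t * (coeff d U * coeff e V - coeff e U * coeff d V) = 0 := by
    linear_combination coeff e V * hd - coeff d V * he
  have hs : s * (coeff d U * coeff e V - coeff e U * coeff d V) = 0 := by
    linear_combination coeff e U * hd - coeff d U * he
  rcases hst with h | h
  · rcases mul_eq_zero.1 hs with h2 | h2
    · exact h h2
    · exact hde h2
  · rcases mul_eq_zero.1 ht with h2 | h2
    · exact h h2
    · exact hde h2

/-- modulo a large prime `t U - s V` is not zero for coprime `s`, `t` -/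
theorem Nonprop.ne_mod {U V : MvPolynomial ι ℤ} (h : Nonprop U V) : ∃ T : ℕ, ∀ p : ℕ, p.Prime → T < p →
    ∀ s t : ℤ, (¬ (p : ℤ) ∣ s ∨ ¬ (p : ℤ) ∣ t) → mp p (C t * U - C s * V) ≠ 0 := by
  obtain ⟨d, e, hde⟩ := h
  refine ⟨(coeff d U * coeff e V - coeff e U * coeff d V).natAbs, fun p hp hlt s t hst h0 => ?_⟩
  have : Fact p.Prime := ⟨hp⟩
  have h1 : ∀ m, ((t * coeff m U - s * coeff m V : ℤ) : ZMod p) = 0 := by
    intro m
    have := congrArg (coeff m) h0
    rw [coeff_map, coeff_sub, coeff_C_mul, coeff_C_mul, coeff_zero] at this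
    exact this
  have hd := h1 d
  have he := h1 e
  have hne : ((coeff d U * coeff e V - coeff e U * coeff d V : ℤ) : ZMod p) ≠ 0 := by
    intro h2
    rw [ZMod.intCast_zmod_eq_zero_iff_dvd] at h2
    have := Nat.le_of_dvd (Int.natAbs_pos.2 hde) (Int.natCast_dvd.1 h2)
    omega
  push_cast at hd he hne
  have ht : (t : ZMod p) * (((coeff d U : ℤ) : ZMod p) * ((coeff e V : ℤ) : ZMod p) -
      ((coeff e U : ℤ) : ZMod p) * ((coeff d V : ℤ) : ZMod p)) = 0 := by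
    linear_combination ((coeff e V : ℤ) : ZMod p) * hd - ((coeff d V : ℤ) : ZMod p) * he
  have hs : (s : ZMod p) * (((coeff d U : ℤ) : ZMod p) * ((coeff e V : ℤ) : ZMod p) -
      ((coeff e U : ℤ) : ZMod p) * ((coeff d V : ℤ) : ZMod p)) = 0 := by
    linear_combination ((coeff e U : ℤ) : ZMod p) * hd - ((coeff d U : ℤ) : ZMod p) * he
  rcases hst with h | h
  · rcases mul_eq_zero.1 hs with h2 | h2
    · exact h ((ZMod.intCast_zmod_eq_zero_iff_dvd _ _).1 h2)
    · exact hne h2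
  · rcases mul_eq_zero.1 ht with h2 | h2
    · exact h ((ZMod.intCast_zmod_eq_zero_iff_dvd _ _).1 h2)
    · exact hne h2

open Classical in
/-- A value is taken rarely, uniformly in the value. -/
theorem mult {U V : MvPolynomial ι ℤ} (h : Nonprop U V) {κ : ℝ} (hκ : 0 < κ) :
    ∃ C : ℝ, 0 < C ∧ ∀ (S : ℕ → Finset ℕ) (x : ℕ → ι → ℤ),
      (∃ N₀ : ℕ, ∀ N : ℕ, N₀ ≤ N → ∀ H : ℕ, (H : ℝ) ≤ (N : ℝ) ^ κ → Well (S N) x H) →
      ∃ N₀ : ℕ, ∀ N : ℕ, N₀ ≤ N → ∀ j : ℚ,
        (((S N).filter fun n => eval (x n) V ≠ 0 ∧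
          ((eval (x n) U : ℤ) : ℚ) / ((eval (x n) V : ℤ) : ℚ) = j).card : ℝ) ≤
          C * (N : ℝ) ^ (-κ) * (S N).card := by
  obtain ⟨T, hT⟩ := h.ne_mod
  set D : ℝ := (U.totalDegree : ℝ) + V.totalDegree with hD
  have hD0 : 0 ≤ D := by positivity
  refine ⟨4 * D + 1, by positivity, fun S x hw => ?_⟩
  obtain ⟨N₁, hN₁⟩ := hw
  have hev : ∀ᶠ N : ℕ in atTop, ((T : ℝ) + 2) ≤ (N : ℝ) ^ κ := by
    have h1 : Tendsto (fun N : ℕ => (N : ℝ) ^ κ) atTop atTop :=
      (tendsto_rpow_atTop hκ).comp tendsto_natCast_atTop_atTop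
    exact h1.eventually_ge_atTop _
  obtain ⟨N₂, hN₂⟩ := eventually_atTop.mp hev
  refine ⟨max (max N₁ N₂) 1, fun N hN j => ?_⟩
  have hN1' : N₁ ≤ N := by omega
  have hN2' : N₂ ≤ N := by omega
  have hN3 : 1 ≤ N := by omega
  have hNpos : (0 : ℝ) < N := by exact_mod_cast hN3
  have hb := hN₂ N hN2'
  set H : ℕ := ⌊(N : ℝ) ^ κ⌋₊ with hH
  have hHle : (H : ℝ) ≤ (N : ℝ) ^ κ := Nat.floor_le (by positivity)
  have hHlt : (N : ℝ) ^ κ < H + 1 := Nat.lt_floor_add_one _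
  have hHT : T + 1 ≤ H := by
    have : (T : ℝ) + 1 < (H : ℝ) + 0 + 1 := by linarith
    have h2 : (T : ℝ) < H := by linarith
    have h3 : T < H := by exact_mod_cast h2
    omega
  have hws := hN₁ N hN1' H hHle
  obtain ⟨p, hp, hHp, hp2⟩ := Nat.exists_prime_lt_and_le_two_mul H (by omega)
  have : Fact p.Prime := ⟨hp⟩
  have hst : ¬ (p : ℤ) ∣ j.num ∨ ¬ (p : ℤ) ∣ (j.den : ℤ) := by
    by_contra hcon
    push Not at hcon
    obtain ⟨h1, h2⟩ := hcon
    have h3 : p ∣ j.num.natAbs := Int.natCast_dvd.1 h1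
    have h4 : p ∣ j.den := by exact_mod_cast h2
    have h5 := Nat.dvd_gcd h3 h4
    rw [j.reduced] at h5
    exact hp.one_lt.ne' (Nat.dvd_one.1 h5)
  set R : MvPolynomial ι ℤ := C (j.den : ℤ) * U - C j.num * V with hR
  have hRp := hT p hp (by omega) j.num (j.den : ℤ) hst
  have hdz := dens_zeros R p hRp
  have h1 := SA_ind hws p hp.one_lt.le (by omega) {ρ : ι → ZMod p | eval ρ (mp p R) = 0}
  have hd0 := dens_nonneg {ρ : ι → ZMod p | eval ρ (mp p R) = 0}
  have hη : (1 : ℝ) / (2 * H + 1) ≤ 1 := by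
    rw [div_le_one (by positivity)]
    have : (0 : ℝ) ≤ H := by positivity
    linarith
  have hdeg : (R.totalDegree : ℝ) ≤ D := by
    have h2 : R.totalDegree ≤ U.totalDegree + V.totalDegree := by
      rw [hR]
      refine (totalDegree_sub _ _).trans ?_
      refine max_le ?_ ?_
      · refine (totalDegree_mul _ _).trans ?_
        rw [totalDegree_C]
        omega
      · refine (totalDegree_mul _ _).trans ?_
        rw [totalDegree_C]
        omega
    rw [hD]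
    exact_mod_cast h2
  have hp0 : (0 : ℝ) < p := by exact_mod_cast hp.pos
  have hHpR : (H : ℝ) + 1 ≤ p := by exact_mod_cast hHp
  have hpN : (N : ℝ) ^ κ ≤ p := by linarith
  have hNκ : 0 < (N : ℝ) ^ κ := Real.rpow_pos_of_pos hNpos κ
  have h2 : SA (S N) x (fun c => ind {ρ : ι → ZMod p | eval ρ (mp p R) = 0} (red p c)) ≤
      (4 * D + 1) * (N : ℝ) ^ (-κ) := by
    have h3 := (abs_le.1 h1).2
    have h4 : SA (S N) x (fun c => ind {ρ : ι → ZMod p | eval ρ (mp p R) = 0} (red p c)) ≤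
        2 * Pool.Agent.N666.TM.dens {ρ : ι → ZMod p | eval ρ (mp p R) = 0} := by
      nlinarith [mul_le_mul_of_nonneg_right hη hd0]
    refine h4.trans ?_
    have h5 : Pool.Agent.N666.TM.dens {ρ : ι → ZMod p | eval ρ (mp p R) = 0} ≤ D * (N : ℝ) ^ (-κ) := by
      refine hdz.trans ?_
      rw [Real.rpow_neg hNpos.le, ← div_eq_mul_inv]
      gcongr
    have h6 : 0 ≤ D * (N : ℝ) ^ (-κ) := by positivity
    have h7 : 0 < (N : ℝ) ^ (-κ) := Real.rpow_pos_of_pos hNpos _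
    nlinarith
  have hs : (0 : ℝ) < (S N).card := by exact_mod_cast hws.pos
  have h3 : SA (S N) x (fun c => ind {ρ : ι → ZMod p | eval ρ (mp p R) = 0} (red p c)) =
      (((S N).filter fun n => red p (x n) ∈ {ρ : ι → ZMod p | eval ρ (mp p R) = 0}).card : ℝ) /
        (S N).card := by
    unfold SA ind
    rw [Finset.natCast_card_filter]
    congr 1
    refine Finset.sum_congr rfl fun n _ => ?_
    by_cases hh : red p (x n) ∈ {ρ : ι → ZMod p | eval ρ (mp p R) = 0} <;> simp [hh]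
  rw [h3, div_le_iff₀ hs] at h2
  refine le_trans ?_ h2
  refine Nat.cast_le.2 (Finset.card_le_card fun n hn => ?_)
  rw [Finset.mem_filter] at hn ⊢
  obtain ⟨hn1, hn2, hn3⟩ := hn
  refine ⟨hn1, ?_⟩
  show eval (red p (x n)) (mp p R) = 0
  have h4 : eval (x n) R = 0 := by
    rw [hR, map_sub, map_mul, map_mul, eval_C, eval_C]
    have hVq : ((eval (x n) V : ℤ) : ℚ) ≠ 0 := by exact_mod_cast hn2
    have hdq : (j.den : ℚ) ≠ 0 := by exact_mod_cast j.den_nz
    have hj : j = (j.num : ℚ) / (j.den : ℚ) := (Rat.num_div_den j).symm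
    rw [hj] at hn3
    rw [div_eq_div_iff hVq hdq] at hn3
    have h5 : (((j.den : ℤ) * eval (x n) U - j.num * eval (x n) V : ℤ) : ℚ) = 0 := by
      push_cast
      linarith
    exact_mod_cast h5
  rw [eval_red, h4, Int.cast_zero]

end

end Pool.Agent.N495.TS
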