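import Pool.Agent.Y932.HB.Base
import Pool.Agent.Y155.HB.Spec
import Pool.Agent.Y972.HB.NR

/-!
Many primes obstruct an irreducible polynomial in one parameter, at parameters outside the zeros of a
given polynomial (helper495).
-/

set_option autoImplicit false

namespace Pool.Agent.N495.TS

open Polynomial Pool.Agent.Y214.HB

theorem base : S_BASE :=
  Pool.Agent.Y932.HB.t_BASE Pool.Agent.Y155.HB.t_SPEC Pool.Agent.Y972.HB.t_NR

instance : Unique (Fin (0 + 1)) := inferInstanceAs (Unique (Fin 1))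

/-- the polynomials in one variable -/
noncomputable def psi : ℤ[X] ≃ₐ[ℤ] MvPolynomial (Fin (0 + 1)) ℤ :=
  (MvPolynomial.uniqueAlgEquiv ℤ (Fin (0 + 1))).symm

theorem psi_X : psi X = MvPolynomial.X 0 := by
  unfold psi
  rw [AlgEquiv.symm_apply_eq]
  have h := MvPolynomial.uniqueAlgEquiv_monomial (R := ℤ) (σ := Fin (0 + 1))
    (d := Finsupp.single 0 1) (r := 1)
  rw [MvPolynomial.X, h]
  simp [Polynomial.X]

theorem eval_psi (a : Fin (0 + 1) → ℤ) (f : ℤ[X]) : MvPolynomial.eval a (psi f) = f.eval (a 0) := by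
  have h : (MvPolynomial.eval a).comp (psi : ℤ[X] →+* MvPolynomial (Fin (0 + 1)) ℤ) =
      evalRingHom (a 0) := by
    refine Polynomial.ringHom_ext' (Subsingleton.elim _ _) ?_
    simp [psi_X]
  exact congrArg (fun φ => φ f) h

theorem obstruct (F : ℤ[X][X]) (hF : F.Monic) (hd : 2 ≤ F.natDegree)
    (hirr : Irreducible (F.map (algebraMap ℤ[X] (FractionRing ℤ[X])))) (g : ℤ[X]) (hg : g ≠ 0) :
    Dv {p : ℕ | p.Prime ∧ ∃ t : ℤ, ¬ (p : ℤ) ∣ g.eval t ∧
      ∀ w : ℤ, ¬ (p : ℤ) ∣ (F.map (evalRingHom t)).eval w} := by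
  set A := MvPolynomial (Fin (0 + 1)) ℤ with hA
  set ψ : ℤ[X] →+* A := (psi : ℤ[X] →+* A) with hψ
  have hirr' : Irreducible F := (hF.irreducible_iff_irreducible_map_fraction_map
    (K := FractionRing ℤ[X])).2 hirr
  have h1 : Irreducible (F.map ψ) := by
    have h2 : F.map ψ = (Polynomial.mapEquiv (psi : ℤ[X] ≃+* A)) F := rfl
    rw [h2]
    exact (MulEquiv.irreducible_iff (Polynomial.mapEquiv (psi : ℤ[X] ≃+* A))).2 hirr'
  have h2 : Irreducible ((F.map ψ).map (algebraMap A (FractionRing A))) :=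
    ((hF.map ψ).irreducible_iff_irreducible_map_fraction_map (K := FractionRing A)).1 h1
  have hψg : ψ g ≠ 0 := by
    intro h
    exact hg ((psi : ℤ[X] ≃+* A).injective (by rw [map_zero]; exact h))
  have hK : Kind (C (ψ g) * F.map ψ : A[X]) := by
    right
    refine ⟨?_, ?_⟩
    · rw [natDegree_C_mul hψg, hF.natDegree_map]
      exact hd
    · unfold toK
      rw [Polynomial.map_mul, map_C]
      have hu : IsUnit (C ((algebraMap A (FractionRing A)) (ψ g)) : (FractionRing A)[X]) := by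
        rw [isUnit_C, isUnit_iff_ne_zero]
        intro h
        exact hψg ((map_eq_zero_iff _ (IsFractionRing.injective A (FractionRing A))).1 h)
      exact (irreducible_isUnit_mul hu).2 h2
  refine Pool.Agent.Y932.HB.dv_of (R := _) (T := ∅) Set.finite_empty (base 0 _ hK) ?_
  rintro p ⟨hp, a, -, ho1, ho2⟩ -
  refine ⟨hp, a 0, ?_, fun w hw => ho2 w ?_⟩
  · rw [leadingCoeff_mul, leadingCoeff_C, (hF.map ψ).leadingCoeff, mul_one] at ho1
    rw [← eval_psi a g]
    exact ho1
  · have h3 : ((C (ψ g) * F.map ψ : A[X]).map (MvPolynomial.eval a)).eval w =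
        g.eval (a 0) * (F.map (evalRingHom (a 0))).eval w := by
      rw [Polynomial.map_mul, map_C, eval_mul, eval_C, Polynomial.map_map]
      have h4 : (MvPolynomial.eval a).comp ψ = evalRingHom (a 0) := RingHom.ext fun x => eval_psi a x
      have h5 : MvPolynomial.eval a (ψ g) = g.eval (a 0) := eval_psi a g
      rw [h4, h5]
    rw [h3]
    exact Dvd.dvd.mul_left hw _

end Pool.Agent.N495.TS
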