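import Mathlib
import Pool.Agent.Y673.PP.It

/-!
A rational root of a monic polynomial with a parameter which is integral at `p` gives a root modulo `p`
(helper495).
-/

set_option autoImplicit false

namespace Pool.Agent.N495.TS

open Polynomial
open Pool.Agent.Y673.PP (E2 E2_map)

theorem E2_eq_eval {S : Type} [CommRing S] (c z : S) (F : ℤ[X][X]) :
    E2 c z F = (F.map (eval₂RingHom (Int.castRingHom S) c)).eval z := by
  unfold E2
  rw [coe_eval₂RingHom, eval₂_eq_eval_map]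

theorem E2_int (t w : ℤ) (F : ℤ[X][X]) : E2 t w F = (F.map (evalRingHom t)).eval w := by
  rw [E2_eq_eval]
  congr 2

/-- If `F(t, w)` has no root modulo `p`, then `F(u / v, y)` has no rational root for `u / v` integral at
`p` and congruent to `t`. -/
theorem no_root (F : ℤ[X][X]) (hF : F.Monic) (p : ℕ) [hp : Fact p.Prime] {u v t : ℤ}
    (hv : ¬ (p : ℤ) ∣ v) (hut : (p : ℤ) ∣ u - t * v)
    (hno : ∀ w : ℤ, ¬ (p : ℤ) ∣ (F.map (evalRingHom t)).eval w) (y : ℚ) :
    E2 ((u : ℚ) / v) y F ≠ 0 := by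
  intro h0
  have hv0 : v ≠ 0 := by
    rintro rfl
    exact hv (dvd_zero _)
  -- the parameter in the `p`-adic integers
  have hvu : IsUnit ((v : ℤ_[p])) := by
    rw [PadicInt.isUnit_iff]
    rcases lt_or_eq_of_le (PadicInt.norm_le_one ((v : ℤ_[p]))) with h | h
    · exact absurd ((PadicInt.norm_int_lt_one_iff_dvd _).1 h) hv
    · exact h
  obtain ⟨w, hw⟩ := hvu
  set j : ℤ_[p] := (u : ℤ_[p]) * (↑w⁻¹ : ℤ_[p]) with hj
  have hjv : j * (v : ℤ_[p]) = (u : ℤ_[p]) := by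
    rw [hj, ← hw, mul_assoc, Units.inv_mul, mul_one]
  have hvq : ((v : ℤ_[p]) : ℚ_[p]) = (v : ℚ_[p]) := by push_cast; rfl
  have hv0q : (v : ℚ_[p]) ≠ 0 := by exact_mod_cast hv0
  have hjq : (j : ℚ_[p]) = ((u : ℚ_[p]) / v) := by
    rw [eq_div_iff hv0q]
    have := congrArg (fun z : ℤ_[p] => (z : ℚ_[p])) hjv
    simpa using this
  -- the root
  have h1 : E2 (j : ℚ_[p]) (y : ℚ_[p]) F = 0 := by
    have h2 := E2_map (Rat.castHom ℚ_[p]) ((u : ℚ) / v) y F
    rw [h0, map_zero] at h2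
    rw [hjq]
    have h3 : (Rat.castHom ℚ_[p]) ((u : ℚ) / v) = (u : ℚ_[p]) / v := by
      simp
    rw [h3] at h2
    exact h2.symm
  have hint : IsIntegral ℤ_[p] (y : ℚ_[p]) := by
    refine ⟨F.map (eval₂RingHom (Int.castRingHom ℤ_[p]) j), hF.map _, ?_⟩
    rw [eval₂_map]
    have h2 : (algebraMap ℤ_[p] ℚ_[p]).comp (eval₂RingHom (Int.castRingHom ℤ_[p]) j) =
        eval₂RingHom (Int.castRingHom ℚ_[p]) (j : ℚ_[p]) := by
      refine Polynomial.ringHom_ext' (Subsingleton.elim _ _) ?_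
      simp
    rw [h2]
    rw [E2, coe_eval₂RingHom] at h1
    exact h1
  obtain ⟨y', hy'⟩ := IsIntegrallyClosed.isIntegral_iff.1 hint
  have h3 : E2 j y' F = 0 := by
    have h4 := E2_map (algebraMap ℤ_[p] ℚ_[p]) j y' F
    have h5 : (algebraMap ℤ_[p] ℚ_[p]) j = (j : ℚ_[p]) := rfl
    rw [hy', h5, h1] at h4
    exact (map_eq_zero_iff _ (IsFractionRing.injective ℤ_[p] ℚ_[p])).1 h4
  have h4 := E2_map (PadicInt.toZMod (p := p)) j y' F
  rw [h3, map_zero] at h4
  have hjt : PadicInt.toZMod (p := p) j = (t : ZMod p) := by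
    have h5 := congrArg (PadicInt.toZMod (p := p)) hjv
    rw [map_mul, map_intCast, map_intCast] at h5
    have h6 : ((u - t * v : ℤ) : ZMod p) = 0 := (ZMod.intCast_zmod_eq_zero_iff_dvd _ _).2 hut
    push_cast at h6
    have h7 : (v : ZMod p) ≠ 0 := by
      intro h
      exact hv ((ZMod.intCast_zmod_eq_zero_iff_dvd _ _).1 h)
    apply mul_right_cancel₀ h7
    rw [h5]
    linear_combination h6
  obtain ⟨w', hw'⟩ := ZMod.intCast_surjective (PadicInt.toZMod (p := p) y')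
  rw [hjt, ← hw'] at h4
  have h5 := E2_map (Int.castRingHom (ZMod p)) t w' F
  rw [eq_intCast, eq_intCast, eq_intCast] at h5
  rw [← h5, E2_int] at h4
  exact hno w' ((ZMod.intCast_zmod_eq_zero_iff_dvd _ _).1 h4.symm)

end Pool.Agent.N495.TS
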