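import Mathlib

/-!
# Statement of a part (helper495): Serre's lifting lemma
-/

set_option autoImplicit false

namespace Pool.Agent.N495.TS

/-- **Serre's lemma**: a multiplicatively closed set of invertible matrices modulo `p ^ (k + 1)`, `p ≥ 5`,
whose reductions modulo `p` include all matrices of determinant one contains all matrices of determinant
one. -/
def S_SERRE : Prop :=
  ∀ (p k : ℕ), p.Prime → 5 ≤ p →
    ∀ I : Submonoid (Matrix (Fin 2) (Fin 2) (ZMod (p ^ (k + 1)))), (∀ M ∈ I, IsUnit M.det) →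
    (∀ s : Matrix (Fin 2) (Fin 2) (ZMod p), s.det = 1 → ∃ M ∈ I,
      M.map (ZMod.castHom (dvd_pow_self p (Nat.succ_ne_zero k)) (ZMod p)) = s) →
    ∀ M : Matrix (Fin 2) (Fin 2) (ZMod (p ^ (k + 1))), M.det = 1 → M ∈ I

end Pool.Agent.N495.TS
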