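import Pool.Agent.Q19.SU.Tor
import Pool.Agent.N495.TS.StmR

/-!
From the level `p` to all powers of `p ≥ 5` (helper495).
-/

set_option autoImplicit false

namespace Pool.Agent.N495.TS

open WeierstrassCurve NumberField
open Pool.Agent.Y673.Loc Pool.Agent.Y673.SL
open Pool.Agent.Q19.SU

section
variable {K : Type} [Field K] [NumberField K]

open scoped Classical in
theorem hasSLn_one (A B : K) : HasSLn A B 1 := by
  refine ⟨0, 0, Gen.bas_one, fun a b c d _ => ⟨1, ?_, ?_⟩⟩ <;>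
    rw [map_zero, zsmul_zero, zsmul_zero, add_zero]

open scoped Classical in
/-- **all powers of a prime `p ≥ 5`** -/
theorem serre (hS : S_SERRE) {A B : K} (hD : 4 * A ^ 3 + 27 * B ^ 2 ≠ 0) {p : ℕ} (hp : p.Prime)
    (h5 : 5 ≤ p) (h : HasSLn A B p) (m : ℕ) : HasSLn A B (p ^ m) := by
  rcases m with _ | k
  · rw [pow_zero]
    exact hasSLn_one A B
  obtain ⟨P₁, Q₁, hB₁, hall⟩ := h
  obtain ⟨P, hP⟩ := div_ep hD hp k hB₁.hP
  obtain ⟨Q, hQ⟩ := div_ep hD hp k hB₁.hQ
  have hPk : ((p : ℤ) ^ (k + 1)) • P = 0 := by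
    rw [pow_succ', mul_zsmul, hP, hB₁.hP]
  have hQk : ((p : ℤ) ^ (k + 1)) • Q = 0 := by
    rw [pow_succ', mul_zsmul, hQ, hB₁.hQ]
  have hB : Gen.Bas (p ^ (k + 1)) P Q := Gen.Bas.lift k hPk hQk (by rw [hP, hQ]; exact hB₁)
  have hpn : ((p ^ (k + 1) : ℕ) : ℤ) = (p : ℤ) ^ (k + 1) := by push_cast; rfl
  haveI : Fact p.Prime := ⟨hp⟩
  -- the coordinates
  have hco : ∀ σ : AlgebraicClosure K ≃ₐ[K] AlgebraicClosure K, ∃ a b c d : ℤ,
      act A B σ P = a • P + c • Q ∧ act A B σ Q = b • P + d • Q := by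
    intro σ
    obtain ⟨a, c, h1⟩ := hB.span (act A B σ P) (by rw [← map_zsmul, hB.hP, map_zero])
    obtain ⟨b, d, h2⟩ := hB.span (act A B σ Q) (by rw [← map_zsmul, hB.hQ, map_zero])
    exact ⟨a, b, c, d, h1, h2⟩
  -- the monoid
  let I : Submonoid (Matrix (Fin 2) (Fin 2) (ZMod (p ^ (k + 1)))) :=
    { carrier := {M | ∃ (σ : AlgebraicClosure K ≃ₐ[K] AlgebraicClosure K) (a b c d : ℤ),
        M = !![(a : ZMod (p ^ (k + 1))), b; c, d] ∧
          act A B σ P = a • P + c • Q ∧ act A B σ Q = b • P + d • Q}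
      mul_mem' := by
        rintro M M' ⟨σ, a, b, c, d, rfl, h1, h2⟩ ⟨σ', a', b', c', d', rfl, h1', h2'⟩
        refine ⟨σ * σ', a * a' + b * c', a * b' + b * d', c * a' + d * c', c * b' + d * d', ?_, ?_, ?_⟩
        · rw [Matrix.mul_fin_two]
          push_cast
          rfl
        · rw [act_mul, h1', map_add, map_zsmul, map_zsmul, h1, h2]
          module
        · rw [act_mul, h2', map_add, map_zsmul, map_zsmul, h1, h2]
          module
      one_mem' := by
        refine ⟨1, 1, 0, 0, 1, ?_, ?_, ?_⟩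
        · rw [Matrix.one_fin_two]
          push_cast
          rfl
        · rw [act_one]; module
        · rw [act_one]; module }
  have hI : ∀ M, M ∈ I ↔ ∃ (σ : AlgebraicClosure K ≃ₐ[K] AlgebraicClosure K) (a b c d : ℤ),
        M = !![(a : ZMod (p ^ (k + 1))), b; c, d] ∧
          act A B σ P = a • P + c • Q ∧ act A B σ Q = b • P + d • Q := fun M => Iff.rfl
  have hdet : ∀ M ∈ I, IsUnit M.det := by
    rintro M ⟨σ, a, b, c, d, rfl, h1, h2⟩
    obtain ⟨a', b', c', d', h1', h2'⟩ := hco σ⁻¹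
    have e1 : act A B (σ * σ⁻¹) P = (a * a' + b * c') • P + (c * a' + d * c') • Q := by
      rw [act_mul, h1', map_add, map_zsmul, map_zsmul, h1, h2]
      module
    have e2 : act A B (σ * σ⁻¹) Q = (a * b' + b * d') • P + (c * b' + d * d') • Q := by
      rw [act_mul, h2', map_add, map_zsmul, map_zsmul, h1, h2]
      module
    rw [mul_inv_cancel, act_one] at e1 e2
    have f1 := hB.ind (a * a' + b * c' - 1) (c * a' + d * c') (by
      have : (a * a' + b * c' - 1) • P + (c * a' + d * c') • Q =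
          ((a * a' + b * c') • P + (c * a' + d * c') • Q) - P := by module
      rw [this, ← e1, sub_self])
    have f2 := hB.ind (a * b' + b * d') (c * b' + d * d' - 1) (by
      have : (a * b' + b * d') • P + (c * b' + d * d' - 1) • Q =
          ((a * b' + b * d') • P + (c * b' + d * d') • Q) - Q := by module
      rw [this, ← e2, sub_self])
    have g : ∀ x : ℤ, ((p ^ (k + 1) : ℕ) : ℤ) ∣ x → (x : ZMod (p ^ (k + 1))) = 0 := fun x hx =>
      (ZMod.intCast_zmod_eq_zero_iff_dvd _ _).2 hx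
    have g1 := g _ f1.1
    have g2 := g _ f1.2
    have g3 := g _ f2.1
    have g4 := g _ f2.2
    push_cast at g1 g2 g3 g4
    have hprod : !![(a : ZMod (p ^ (k + 1))), b; c, d] * !![(a' : ZMod (p ^ (k + 1))), b'; c', d'] = 1 := by
      rw [Matrix.mul_fin_two, Matrix.one_fin_two]
      congr 1
      have q1 : (a : ZMod (p ^ (k + 1))) * a' + b * c' = 1 := by linear_combination g1
      have q4 : (c : ZMod (p ^ (k + 1))) * b' + d * d' = 1 := by linear_combination g4
      rw [q1, q4, g2, g3]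
    have := congrArg Matrix.det hprod
    rw [Matrix.det_mul, Matrix.det_one] at this
    exact IsUnit.of_mul_eq_one _ this
  have hred : ∀ s : Matrix (Fin 2) (Fin 2) (ZMod p), s.det = 1 → ∃ M ∈ I,
      M.map (ZMod.castHom (dvd_pow_self p (Nat.succ_ne_zero k)) (ZMod p)) = s := by
    intro s hs
    obtain ⟨a, ha⟩ := ZMod.intCast_surjective (s 0 0)
    obtain ⟨b, hb⟩ := ZMod.intCast_surjective (s 0 1)
    obtain ⟨c, hc⟩ := ZMod.intCast_surjective (s 1 0)
    obtain ⟨d, hd⟩ := ZMod.intCast_surjective (s 1 1)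
    have hdvd : (p : ℤ) ∣ a * d - b * c - 1 := by
      rw [← ZMod.intCast_zmod_eq_zero_iff_dvd]
      push_cast
      rw [ha, hb, hc, hd]
      rw [Matrix.det_fin_two] at hs
      rw [hs, sub_self]
    obtain ⟨σ, h1, h2⟩ := hall a b c d hdvd
    obtain ⟨a', b', c', d', h1', h2'⟩ := hco σ
    have e1 : act A B σ P₁ = a' • P₁ + c' • Q₁ := by
      rw [← hP, map_zsmul, h1', zsmul_add, hP, ← mul_zsmul, ← mul_zsmul, mul_comm, mul_zsmul, hP,
        mul_comm, mul_zsmul, hQ]
    have e2 : act A B σ Q₁ = b' • P₁ + d' • Q₁ := by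
      rw [← hQ, map_zsmul, h2', zsmul_add, hQ, ← mul_zsmul, ← mul_zsmul, mul_comm, mul_zsmul, hP,
        mul_comm, mul_zsmul, hQ]
    rw [h1] at e1
    rw [h2] at e2
    have f1 := hB₁.ind (a - a') (c - c') (by
      have : (a - a') • P₁ + (c - c') • Q₁ = (a • P₁ + c • Q₁) - (a' • P₁ + c' • Q₁) := by module
      rw [this, e1, sub_self])
    have f2 := hB₁.ind (b - b') (d - d') (by
      have : (b - b') • P₁ + (d - d') • Q₁ = (b • P₁ + d • Q₁) - (b' • P₁ + d' • Q₁) := by module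
      rw [this, e2, sub_self])
    refine ⟨!![(a' : ZMod (p ^ (k + 1))), b'; c', d'], ⟨σ, a', b', c', d', rfl, h1', h2'⟩, ?_⟩
    have g : ∀ x y : ℤ, (p : ℤ) ∣ x - y → ((y : ℤ) : ZMod p) = x := by
      intro x y hxy
      have := (ZMod.intCast_zmod_eq_zero_iff_dvd _ _).2 hxy
      push_cast at this
      exact (sub_eq_zero.1 this).symm
    ext i j
    fin_cases i <;> fin_cases j
    · simp [g _ _ f1.1, ha]
    · simp [g _ _ f2.1, hb]
    · simp [g _ _ f1.2, hc]
    · simp [g _ _ f2.2, hd]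
  refine ⟨P, Q, hB, fun a b c d hdet1 => ?_⟩
  obtain ⟨σ, a', b', c', d', h0, h1, h2⟩ := (hI _).1 (hS p k hp h5 I hdet hred
    !![(a : ZMod (p ^ (k + 1))), b; c, d] (by
      rw [Matrix.det_fin_two_of]
      have := (ZMod.intCast_zmod_eq_zero_iff_dvd _ _).2 hdet1
      push_cast at this
      linear_combination this))
  have k1 := congrFun (congrFun h0 0) 0
  have k2 := congrFun (congrFun h0 0) 1
  have k3 := congrFun (congrFun h0 1) 0
  have k4 := congrFun (congrFun h0 1) 1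
  simp only [Matrix.of_apply, Matrix.cons_val', Matrix.cons_val_zero, Matrix.cons_val_one,
    Matrix.cons_val_fin_one] at k1 k2 k3 k4
  have g : ∀ x y : ℤ, (x : ZMod (p ^ (k + 1))) = y → ((p ^ (k + 1) : ℕ) : ℤ) ∣ y - x := by
    intro x y hxy
    rw [← ZMod.intCast_zmod_eq_zero_iff_dvd]
    push_cast
    rw [hxy, sub_self]
  refine ⟨σ, ?_, ?_⟩
  · rw [h1, Gen.smul_congr hB.hP (g _ _ k1), Gen.smul_congr hB.hQ (g _ _ k3)]
  · rw [h2, Gen.smul_congr hB.hP (g _ _ k2), Gen.smul_congr hB.hQ (g _ _ k4)]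

end

end Pool.Agent.N495.TS
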