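import Mathlib

/-!
# Statement of a part (helper495): the size of a torsion group of a quotient of a product
-/

set_option autoImplicit false

namespace Pool.Agent.N495.TS

/-- A group of torsion classes in a quotient of a product of `g` groups, whose `q`-torsion is spanned by
two elements for all primes `q`, by a finite subgroup: if all orders are at most `B` then the group has at
most `B ^ (2 g)` elements. -/
def S_SIZE : Prop :=
  ∀ (g : ℕ) (V : Fin g → Type) [∀ i, AddCommGroup (V i)],
    (∀ i, ∀ q : ℕ, q.Prime → ∃ P Q : V i, q • P = 0 ∧ q • Q = 0 ∧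
      ∀ R : V i, q • R = 0 → ∃ m n : ℤ, R = m • P + n • Q) →
    ∀ (Γ : AddSubgroup (∀ i, V i)), (Γ : Set (∀ i, V i)).Finite →
    ∀ (T : AddSubgroup ((∀ i, V i) ⧸ Γ)) (B : ℕ),
      (∀ t ∈ T, IsOfFinAddOrder t ∧ addOrderOf t ≤ B) →
      Finite T ∧ Nat.card T ≤ B ^ (2 * g)

end Pool.Agent.N495.TS
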