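import Pool.Agent.N495.TS.TK
import Pool.Agent.N495.TS.StmS

/-!
The number of torsion points over number fields (helper495).
-/

set_option autoImplicit false

namespace Pool.Agent.N495.TS

open WeierstrassCurve NumberField
open Pool.Agent.Y673.Loc Pool.Agent.Y673.SL

open scoped Classical in
theorem size_K (hT : S_TORSM) (hS : S_SIZE) {z g : ℕ} (K : Type) [Field K] [NumberField K]
    {A B : Fin g → K} (hD : ∀ i, 4 * A i ^ 3 + 27 * B i ^ 2 ≠ 0)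
    (hj : ∀ i, ∃ j : ℚ, LJ z j ∧ jv (A i) (B i) = algebraMap ℚ K j)
    (Γ : AddSubgroup (∀ i, EP (A i) (B i))) (hfin : (Γ : Set (∀ i, EP (A i) (B i))).Finite)
    (hst : ∀ σ : AlgebraicClosure K ≃ₐ[K] AlgebraicClosure K, ∀ x ∈ Γ,
      (fun i => act (A i) (B i) σ (x i)) ∈ Γ)
    (T : AddSubgroup ((∀ i, EP (A i) (B i)) ⧸ Γ))
    (hTt : ∀ t ∈ T, IsOfFinAddOrder t ∧ ∃ x : ∀ i, EP (A i) (B i),
      (∀ σ : AlgebraicClosure K ≃ₐ[K] AlgebraicClosure K,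
        (fun i => act (A i) (B i) σ (x i) - x i) ∈ Γ) ∧
      (x : (∀ i, EP (A i) (B i)) ⧸ Γ) = t) :
    Finite T ∧ Nat.card T ≤ Module.finrank ℚ K ^ (8 * g ^ 2) := by
  have h := hS g (fun i => EP (A i) (B i)) (fun i q hq => span2 (hD i) hq) Γ hfin T
    (Module.finrank ℚ K ^ (4 * g)) (by
      intro t ht
      obtain ⟨hf, x, hx, rfl⟩ := hTt t ht
      exact ⟨hf, (tq_K hT K hD hj Γ hfin hst hx hf).2.1⟩)
  refine ⟨h.1, h.2.trans (le_of_eq ?_)⟩
  rw [← pow_mul]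
  congr 1
  ring

end Pool.Agent.N495.TS
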