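import Pool.Agent.N495.TS.Mul
import Pool.Agent.N495.TS.Red
import Pool.Agent.N495.TS.Obs
import Pool.Agent.Y673.SL.Fm
import Pool.Agent.Y673.SN.Pn

/-!
For a fixed prime `l ≥ 5` the image contains all automorphisms of determinant one for almost all members
of a thin family of elliptic curves (helper495).
-/

set_option autoImplicit false
set_option linter.unusedSectionVars false

namespace Pool.Agent.N495.TS

open Finset Filter MvPolynomial Pool.Agent.N666.TM Pool.Agent.Y722.HS Pool.Agent.N603.TH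
open Pool.Agent.Y673.Loc (jv)
open Pool.Agent.Y673.SL (HasSL)
open Pool.Agent.Y673.PP (E2)
open Pool.Agent.Y214.HB (Dv)

theorem null_biUnion {α : Type} {S : ℕ → Finset ℕ} (s : Finset α) (B : α → Set ℕ)
    (h : ∀ i ∈ s, NullIn S (B i)) : NullIn S (⋃ i ∈ s, B i) := by
  classical
  induction s using Finset.induction_on with
  | empty => simpa using null_empty
  | insert i s hi ih =>
    rw [Finset.set_biUnion_insert]
    exact null_union (h i (Finset.mem_insert_self _ _))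
      (ih fun j hj => h j (Finset.mem_insert_of_mem hj))

section
variable {ι : Type} [Fintype ι] [DecidableEq ι]

theorem null_zero {S : ℕ → Finset ℕ} {x : ℕ → ι → ℤ} {κ : ℝ} (hκ : 0 < κ)
    (hw : ∃ N₀ : ℕ, ∀ N : ℕ, N₀ ≤ N → ∀ H : ℕ, (H : ℝ) ≤ (N : ℝ) ^ κ → Well (S N) x H)
    {R : MvPolynomial ι ℤ} (hR : R ≠ 0) : NullIn S {n | eval (x n) R = 0} := by
  intro ε hε
  obtain ⟨N₀, hN₀⟩ := poly_rare hκ hw hR ε hε
  refine ⟨N₀, fun N hN => le_trans (le_of_eq ?_) (hN₀ N hN)⟩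
  rw [← Set.ncard_coe_finset]
  congr 2
  ext t
  simp

/-- the local criterion -/
theorem null_root {U V : MvPolynomial ι ℤ} (h : Rich U V) {S : ℕ → Finset ℕ} {x : ℕ → ι → ℤ} {κ : ℝ}
    (hκ : 0 < κ)
    (hw : ∃ N₀ : ℕ, ∀ N : ℕ, N₀ ≤ N → ∀ H : ℕ, (H : ℝ) ≤ (N : ℝ) ^ κ → Well (S N) x H)
    (F : Polynomial (Polynomial ℤ)) (hF : F.Monic) (hd : 2 ≤ F.natDegree)
    (hirr : Irreducible (F.map (algebraMap (Polynomial ℤ) (FractionRing (Polynomial ℤ))))) :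
    NullIn S {n | ¬ (eval (x n) V ≠ 0 ∧
      ∀ y : ℚ, E2 (((eval (x n) U : ℤ) : ℚ) / ((eval (x n) V : ℤ) : ℚ)) y F ≠ 0)} := by
  classical
  obtain ⟨δ, g, p₀, hδ, hg, hr⟩ := h
  have hdv := obstruct F hF hd hirr g hg
  have hdv' := Pool.Agent.Y932.HB.dv_of (T := {p : ℕ | p ≤ p₀}) (Set.finite_le_nat p₀) hdv
    (S := {p : ℕ | (p.Prime ∧ ∃ t : ℤ, ¬ (p : ℤ) ∣ g.eval t ∧
      ∀ w : ℤ, ¬ (p : ℤ) ∣ (F.map (Polynomial.evalRingHom t)).eval w) ∧ p₀ < p})
    (fun p hp hpT => ⟨hp, not_le.1 hpT⟩)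
  set Ω : ∀ p : ℕ, Set (ι → ZMod p) := fun p => {ρ | ∃ t : ℤ,
    (∀ w : ℤ, ¬ (p : ℤ) ∣ (F.map (Polynomial.evalRingHom t)).eval w) ∧
      aeval ρ U = (t : ZMod p) * aeval ρ V ∧ aeval ρ V ≠ 0} with hΩdef
  have hΩ : ¬ Summable fun p : ℕ => if p.Prime then Pool.Agent.N666.TM.dens (Ω p) else 0 := by
    intro hs
    apply hdv'
    refine Summable.of_nonneg_of_le (fun k => ?_) (fun k => ?_) (hs.mul_left δ⁻¹)
    · exact Set.indicator_nonneg (fun _ _ => by positivity) k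
    · by_cases hk : k ∈ {p : ℕ | (p.Prime ∧ ∃ t : ℤ, ¬ (p : ℤ) ∣ g.eval t ∧
        ∀ w : ℤ, ¬ (p : ℤ) ∣ (F.map (Polynomial.evalRingHom t)).eval w) ∧ p₀ < p}
      · rw [Set.indicator_of_mem hk]
        obtain ⟨⟨hp, t, ht1, ht2⟩, hlt⟩ := hk
        rw [if_pos hp]
        have : NeZero k := ⟨hp.ne_zero⟩
        have h1 := hr k hp hlt t ht1
        have hk0 : (0 : ℝ) < k := by exact_mod_cast hp.pos
        have h2 : ({ρ : ι → ZMod k | aeval ρ U = (t : ZMod k) * aeval ρ V ∧ aeval ρ V ≠ 0}.ncard : ℝ) ≤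
            ((Ω k).ncard : ℝ) := by
          refine Nat.cast_le.2 (Set.ncard_le_ncard ?_ (Set.toFinite _))
          rintro ρ ⟨e1, e2⟩
          exact ⟨t, ht2, e1, e2⟩
        have h3 : δ * (k : ℝ) ^ Fintype.card ι ≤ k * ((Ω k).ncard : ℝ) := by
          refine h1.trans ?_
          exact mul_le_mul_of_nonneg_left h2 hk0.le
        unfold Pool.Agent.N666.TM.dens
        rw [inv_mul_eq_div, div_div, div_le_div_iff₀ hk0 (by positivity)]
        linarith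
      · rw [Set.indicator_of_notMem hk]
        have h0 : 0 ≤ (if k.Prime then Pool.Agent.N666.TM.dens (Ω k) else 0) := by
          split_ifs
          · exact dens_nonneg _
          · exact le_rfl
        positivity
  refine null_mono (null_of_dens hκ hw Ω hΩ 0) ?_
  intro n hn p hp _ hmem
  apply hn
  have : Fact p.Prime := ⟨hp⟩
  obtain ⟨t, ht, e1, e2⟩ := hmem
  rw [aeval_red, aeval_red] at e1
  rw [aeval_red] at e2
  have hv : ¬ (p : ℤ) ∣ eval (x n) V := by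
    intro hd
    exact e2 ((ZMod.intCast_zmod_eq_zero_iff_dvd _ _).2 hd)
  refine ⟨?_, fun y => no_root F hF p hv (t := t) ?_ ht y⟩
  · intro h0
    exact hv (h0 ▸ dvd_zero _)
  · rw [← ZMod.intCast_zmod_eq_zero_iff_dvd]
    push_cast
    rw [e1, sub_self]

theorem null_small {U V : MvPolynomial ι ℤ} (h : Rich U V) {S : ℕ → Finset ℕ} {x : ℕ → ι → ℤ} {κ : ℝ}
    (hκ : 0 < κ)
    (hw : ∃ N₀ : ℕ, ∀ N : ℕ, N₀ ≤ N → ∀ H : ℕ, (H : ℝ) ≤ (N : ℝ) ^ κ → Well (S N) x H)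
    {l : ℕ} (hl : l.Prime) (h5 : 5 ≤ l) :
    NullIn S {n | ¬ (eval (x n) V ≠ 0 ∧ ∀ A B : ℚ, 4 * A ^ 3 + 27 * B ^ 2 ≠ 0 →
      jv A B = ((eval (x n) U : ℤ) : ℚ) / ((eval (x n) V : ℤ) : ℚ) → HasSL A B l)} := by
  classical
  have hnp := h.nonprop
  obtain ⟨L', hL'⟩ : ∃ L' : ℕ, l ^ 4 < 2 ^ L' := ⟨l ^ 4, Nat.lt_two_pow_self⟩
  obtain ⟨I, _, F, -, hF, hbad⟩ := Pool.Agent.Y673.SL.familyS hl h5 hL'
  have z1 := null_zero hκ hw (hnp.ne 1 0 (Or.inl one_ne_zero))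
  have z2 := null_zero hκ hw (hnp.ne 0 1 (Or.inr one_ne_zero))
  have z3 := null_zero hκ hw (hnp.ne 1728 1 (Or.inr one_ne_zero))
  have z4 : NullIn S (⋃ i ∈ (Finset.univ : Finset I), {n | l ≤ (F i).natDegree ∧
      ¬ (eval (x n) V ≠ 0 ∧
        ∀ y : ℚ, E2 (((eval (x n) U : ℤ) : ℚ) / ((eval (x n) V : ℤ) : ℚ)) y (F i) ≠ 0)}) := by
    apply null_biUnion
    intro i _
    by_cases hi : l ≤ (F i).natDegree
    · refine null_mono (null_root h hκ hw (F i) (hF i).1 (by omega) (hF i).2.1) ?_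
      intro n hn
      exact hn.2
    · refine null_mono null_empty ?_
      intro n hn
      exact absurd hn.1 hi
  refine null_mono (null_union (null_union z1 z2) (null_union z3 z4)) ?_
  intro n hn
  by_contra hcon
  apply hn
  simp only [Set.mem_union, Set.mem_ofPred_eq, not_or, Set.mem_iUnion, not_exists, map_sub, map_mul,
    eval_C, Finset.mem_univ, forall_true_left] at hcon
  obtain ⟨⟨c1, c2⟩, c3, c4⟩ := hcon
  have hV : eval (x n) V ≠ 0 := by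
    intro h0
    apply c1
    rw [h0]
    ring
  have hU : eval (x n) U ≠ 0 := by
    intro h0
    apply c2
    rw [h0]
    ring
  refine ⟨hV, fun A B hD hj => ?_⟩
  by_contra hno
  have hVq : ((eval (x n) V : ℤ) : ℚ) ≠ 0 := by exact_mod_cast hV
  have hj0 : ((eval (x n) U : ℤ) : ℚ) / ((eval (x n) V : ℤ) : ℚ) ≠ 0 :=
    div_ne_zero (by exact_mod_cast hU) hVq
  have hj1 : ((eval (x n) U : ℤ) : ℚ) / ((eval (x n) V : ℤ) : ℚ) ≠ 1728 := by
    intro h1
    rw [div_eq_iff hVq] at h1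
    apply c3
    have h2 : eval (x n) U = 1728 * eval (x n) V := by exact_mod_cast h1
    rw [h2]
    ring
  obtain ⟨r, hr0, hr1, hr2⟩ := Pool.Agent.Y673.SN.twist_of hD hj hj0 hj1
  obtain ⟨i, hi, y, hy, -⟩ := hbad ℚ _ A B r hj0 hj1 hD hr0 hr1 hr2 hno
  apply c4 i
  exact ⟨hi, fun hh => hh.2 y hy⟩

end

end Pool.Agent.N495.TS
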