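import Pool.Agent.Q19.SU.Iso

/-!
# Statement of a part (helper495): torsion orders of quotients of products
-/

set_option autoImplicit false

namespace Pool.Agent.N495.TS

/-- A quotient of a product of `g` groups `V i` with operators, such that all matrices of determinant one
occur on the `q`-torsion of every `V i` for all primes `q`, by a finite stable subgroup `Γ`: the order of
a torsion class invariant under the operators in `H` divides the product of the orders of invariant
torsion elements of the `V i`. -/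
def S_TORSN : Prop :=
  ∀ (G : Type) (g : ℕ) (V : Fin g → Type) [∀ i, AddCommGroup (V i)]
    (act : ∀ i, G → V i →+ V i),
    (∀ i, ∀ q : ℕ, q.Prime → Pool.Agent.Q19.SU.Iso.Full (act i) q) →
    ∀ (Γ : AddSubgroup (∀ i, V i)), (Γ : Set (∀ i, V i)).Finite →
    (∀ σ : G, ∀ x ∈ Γ, (fun i => act i σ (x i)) ∈ Γ) →
    ∀ (H : Set G) (x : ∀ i, V i), (∀ σ ∈ H, (fun i => act i σ (x i) - x i) ∈ Γ) →
    IsOfFinAddOrder (x : (∀ i, V i) ⧸ Γ) →
    ∃ z : ∀ i, V i, (∀ i, IsOfFinAddOrder (z i)) ∧ (∀ i, ∀ σ ∈ H, act i σ (z i) = z i) ∧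
      addOrderOf (x : (∀ i, V i) ⧸ Γ) ∣ ∏ i, addOrderOf (z i)

end Pool.Agent.N495.TS
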