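import Pool.Agent.N495.TS.Fin
import Pool.Agent.N495.TS.StmN

/-!
Torsion points of abelian varieties isogenous to products of elliptic curves with large images
(helper495).
-/

set_option autoImplicit false

namespace Pool.Agent.N495.TS

open WeierstrassCurve NumberField
open Pool.Agent.Y673.Loc Pool.Agent.Y673.SL
open Pool.Agent.Q19.SU

open scoped Classical in
/-- the prime factors of the order of a torsion point -/
theorem tp_prime {z : ℕ} {A B : ℚ} (h : Lrg z A B) (M : IntermediateField ℚ (AlgebraicClosure ℚ))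
    [FiniteDimensional ℚ M] {y : EP A B} (hy : ∀ σ ∈ M.fixingSubgroup, act A B σ y = y)
    (hf : IsOfFinAddOrder y) {l : ℕ} (hl : l.Prime) (hd : l ∣ addOrderOf y) :
    l ^ 2 ≤ 2 * Module.finrank ℚ M := by
  obtain ⟨p, q, hp, hq, hzp, hpq, hall⟩ := h
  obtain ⟨m, hm⟩ := hd
  have hpos : 0 < addOrderOf y := hf.addOrderOf_pos
  have hm1 : m ≠ 0 := by
    rintro rfl
    omega
  refine orb hl.one_le (hall l hl.one_le ?_) M (z := m • y) (fun σ hσ => by
    rw [map_nsmul, hy σ hσ]) ?_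
  · by_contra hcon
    push Not at hcon
    have h1 := (Nat.prime_dvd_prime_iff_eq hp hl).1 hcon.1
    have h2 := (Nat.prime_dvd_prime_iff_eq hq hl).1 hcon.2
    omega
  · rw [addOrderOf_nsmul' y hm1, hm, Nat.gcd_mul_left_left,
      Nat.mul_div_cancel _ (Nat.pos_of_ne_zero hm1)]

open scoped Classical in
/-- the order of a torsion point, small degrees -/
theorem tp_small {z : ℕ} {A B : ℚ} (h : Lrg z A B) (M : IntermediateField ℚ (AlgebraicClosure ℚ))
    [FiniteDimensional ℚ M] {y : EP A B} (hy : ∀ σ ∈ M.fixingSubgroup, act A B σ y = y)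
    (hf : IsOfFinAddOrder y) (hz : 2 * Module.finrank ℚ M < z ^ 2) :
    addOrderOf y ^ 2 ≤ 2 * Module.finrank ℚ M := by
  have hpr := fun (l : ℕ) (hl : l.Prime) => tp_prime h M hy hf (l := l) hl
  obtain ⟨p, q, hp, hq, hzp, hpq, hall⟩ := h
  have hpos : 0 < addOrderOf y := hf.addOrderOf_pos
  refine orb hpos (hall _ hpos (Or.inl fun hd => ?_)) M hy rfl
  have h1 := hpr p hp hd
  have h2 : z ^ 2 ≤ p ^ 2 := Nat.pow_le_pow_left hzp.le 2
  omega

open scoped Classical in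
/-- the order of a torsion point -/
theorem tp_all {z : ℕ} {A B : ℚ} (h : Lrg z A B) (M : IntermediateField ℚ (AlgebraicClosure ℚ))
    [FiniteDimensional ℚ M] {y : EP A B} (hy : ∀ σ ∈ M.fixingSubgroup, act A B σ y = y)
    (hf : IsOfFinAddOrder y) : addOrderOf y ≤ 2 * Module.finrank ℚ M := by
  obtain ⟨p, q, hp, hq, hzp, hpq, hall⟩ := h
  have hpos : 0 < addOrderOf y := hf.addOrderOf_pos
  have hMpos : 0 < Module.finrank ℚ M := Module.finrank_pos
  obtain ⟨k, m, hm, hk⟩ := Nat.exists_eq_pow_mul_and_not_dvd hpos.ne' p hp.ne_one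
  have hm0 : m ≠ 0 := by
    rintro rfl
    exact hm (dvd_zero _)
  have hpk : 0 < p ^ k := pow_pos hp.pos k
  have e1 : m ^ 2 ≤ 2 * Module.finrank ℚ M := by
    refine orb (Nat.pos_of_ne_zero hm0) (hall m (Nat.pos_of_ne_zero hm0) (Or.inl hm)) M
      (z := (p ^ k) • y) (fun σ hσ => by rw [map_nsmul, hy σ hσ]) ?_
    rw [addOrderOf_nsmul' y hpk.ne', hk, Nat.gcd_mul_right_left, Nat.mul_div_cancel_left _ hpk]
  have e2 : (p ^ k) ^ 2 ≤ 2 * Module.finrank ℚ M := by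
    refine orb hpk (hall (p ^ k) hpk (Or.inr fun hd => ?_)) M
      (z := m • y) (fun σ hσ => by rw [map_nsmul, hy σ hσ]) ?_
    · have := (Nat.prime_dvd_prime_iff_eq hq hp).1 (hq.dvd_of_dvd_pow hd)
      omega
    · rw [addOrderOf_nsmul' y hm0, hk, Nat.gcd_mul_left_left,
        Nat.mul_div_cancel _ (Nat.pos_of_ne_zero hm0)]
  rw [hk]
  have e3 : (p ^ k * m) ^ 2 ≤ (2 * Module.finrank ℚ M) ^ 2 := by
    rw [mul_pow]
    calc (p ^ k) ^ 2 * m ^ 2 ≤ (2 * Module.finrank ℚ M) * (2 * Module.finrank ℚ M) :=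
          Nat.mul_le_mul e2 e1
      _ = _ := by ring
  exact (Nat.pow_le_pow_iff_left two_ne_zero).1 e3

open scoped Classical in
theorem full_l {z : ℕ} {A B : ℚ} (h : Lrg z A B) {l : ℕ} (hl : l.Prime) :
    Iso.Full (fun σ : AlgebraicClosure ℚ ≃ₐ[ℚ] AlgebraicClosure ℚ => act A B σ) l := by
  obtain ⟨p, q, hp, hq, hzp, hpq, hall⟩ := h
  obtain ⟨P, Q, ⟨h1, h2, h3, -⟩, h5⟩ := hasSLn_nat (hall l hl.one_le (by
    by_contra hcon
    push Not at hcon
    have h1 := (Nat.prime_dvd_prime_iff_eq hp hl).1 hcon.1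
    have h2 := (Nat.prime_dvd_prime_iff_eq hq hl).1 hcon.2
    omega))
  exact ⟨P, Q, h1, h2, h3, h5⟩

open scoped Classical in
/-- **quotients of products** -/
theorem tq_prod (hN : S_TORSN) {z g : ℕ} {A B : Fin g → ℚ} (h : ∀ i, Lrg z (A i) (B i))
    (Γ : AddSubgroup (∀ i, EP (A i) (B i))) (hfin : (Γ : Set (∀ i, EP (A i) (B i))).Finite)
    (hst : ∀ σ : AlgebraicClosure ℚ ≃ₐ[ℚ] AlgebraicClosure ℚ, ∀ x ∈ Γ,
      (fun i => act (A i) (B i) σ (x i)) ∈ Γ)
    (M : IntermediateField ℚ (AlgebraicClosure ℚ)) [FiniteDimensional ℚ M]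
    {x : ∀ i, EP (A i) (B i)}
    (hx : ∀ σ ∈ M.fixingSubgroup, (fun i => act (A i) (B i) σ (x i) - x i) ∈ Γ)
    (hf : IsOfFinAddOrder (x : (∀ i, EP (A i) (B i)) ⧸ Γ)) :
    (∀ l : ℕ, l.Prime → l ∣ addOrderOf (x : (∀ i, EP (A i) (B i)) ⧸ Γ) →
      l ^ 2 ≤ 2 * Module.finrank ℚ M) ∧
    addOrderOf (x : (∀ i, EP (A i) (B i)) ⧸ Γ) ≤ (2 * Module.finrank ℚ M) ^ g ∧
    (2 * Module.finrank ℚ M < z ^ 2 →
      addOrderOf (x : (∀ i, EP (A i) (B i)) ⧸ Γ) ^ 2 ≤ (2 * Module.finrank ℚ M) ^ g) := by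
  obtain ⟨y, hy1, hy2, hy3⟩ := hN (AlgebraicClosure ℚ ≃ₐ[ℚ] AlgebraicClosure ℚ) g
    (fun i => EP (A i) (B i)) (fun i σ => act (A i) (B i) σ)
    (fun i q hq => full_l (h i) hq) Γ hfin hst (M.fixingSubgroup : Set _) x
    (fun σ hσ => hx σ hσ) hf
  have hpos : 0 < ∏ i, addOrderOf (y i) :=
    Finset.prod_pos fun i _ => (hy1 i).addOrderOf_pos
  refine ⟨?_, ?_, ?_⟩
  · intro l hl hd
    obtain ⟨i, -, hi⟩ := (Prime.dvd_finsetProd_iff hl.prime _).1 (hd.trans hy3)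
    exact tp_prime (h i) M (fun σ hσ => hy2 i σ hσ) (hy1 i) hl hi
  · refine (Nat.le_of_dvd hpos hy3).trans ?_
    refine (Finset.prod_le_prod' fun i _ => tp_all (h i) M (fun σ hσ => hy2 i σ hσ)
      (hy1 i)).trans ?_
    rw [Finset.prod_const, Finset.card_univ, Fintype.card_fin]
  · intro hz
    refine (Nat.pow_le_pow_left (Nat.le_of_dvd hpos hy3) 2).trans ?_
    rw [← Finset.prod_pow]
    refine (Finset.prod_le_prod' fun i _ => tp_small (h i) M (fun σ hσ => hy2 i σ hσ)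
      (hy1 i) hz).trans ?_
    rw [Finset.prod_const, Finset.card_univ, Fintype.card_fin]

open scoped Classical in
/-- a point of a power of `E` and a point of `E` of the same order -/
theorem one_coord {A B : ℚ} (M : IntermediateField ℚ (AlgebraicClosure ℚ)) {g : ℕ}
    {y : Fin g → EP A B} (hy : ∀ σ ∈ M.fixingSubgroup, ∀ i, act A B σ (y i) = y i)
    (hf : IsOfFinAddOrder y) : ∃ w : EP A B, (∀ σ ∈ M.fixingSubgroup, act A B σ w = w) ∧
      IsOfFinAddOrder w ∧ addOrderOf w = addOrderOf y := by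
  obtain ⟨N, hN⟩ : ∃ N, N = addOrderOf y := ⟨_, rfl⟩
  have hNpos : 0 < N := hN ▸ hf.addOrderOf_pos
  have hNy : ∀ i, N • y i = 0 := by
    intro i
    have := addOrderOf_nsmul_eq_zero y
    rw [← hN] at this
    exact congrFun this i
  obtain ⟨T, hT⟩ : ∃ T : AddSubgroup (EP A B), ∀ z, z ∈ T ↔
      (N • z = 0 ∧ ∀ σ ∈ M.fixingSubgroup, act A B σ z = z) :=
    ⟨{ carrier := {z | N • z = 0 ∧ ∀ σ ∈ M.fixingSubgroup, act A B σ z = z}
       zero_mem' := ⟨smul_zero _, fun σ _ => map_zero _⟩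
       add_mem' := by
        rintro a b ⟨h1, h2⟩ ⟨h3, h4⟩
        exact ⟨by rw [nsmul_add, h1, h3, add_zero], fun σ hσ => by
          rw [map_add, h2 σ hσ, h4 σ hσ]⟩
       neg_mem' := by
        rintro a ⟨h1, h2⟩
        exact ⟨by rw [neg_nsmul, h1, neg_zero], fun σ hσ => by rw [map_neg, h2 σ hσ]⟩ },
      fun z => Iff.rfl⟩
  have hTe : AddMonoid.ExponentExists T := ⟨N, hNpos, fun z => by
    apply Subtype.ext
    exact ((hT z).1 z.2).1⟩
  obtain ⟨z, hz⟩ := AddMonoid.exists_addOrderOf_eq_exponent hTe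
  have h1 : AddMonoid.exponent T = N := by
    apply Nat.dvd_antisymm
    · refine AddMonoid.exponent_dvd_of_forall_nsmul_eq_zero fun z => ?_
      apply Subtype.ext
      exact ((hT z).1 z.2).1
    · rw [hN]
      apply addOrderOf_dvd_of_nsmul_eq_zero
      funext i
      have h2 := AddMonoid.exponent_nsmul_eq_zero (⟨y i, (hT _).2 ⟨hNy i, fun σ hσ => hy σ hσ i⟩⟩ : T)
      exact congrArg Subtype.val h2
  have h3 : addOrderOf (z : EP A B) = N := by
    rw [AddSubgroup.addOrderOf_coe, hz, h1]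
  refine ⟨z, ((hT z).1 z.2).2, ?_, by rw [h3, hN]⟩
  rw [← addOrderOf_pos_iff, h3]
  exact hNpos

open scoped Classical in
/-- **quotients of powers** -/
theorem tq_power {z g : ℕ} {A B : ℚ} (h : Lrg z A B)
    (Γ : AddSubgroup (Fin g → EP A B)) (hfin : (Γ : Set (Fin g → EP A B)).Finite)
    (hst : ∀ σ : AlgebraicClosure ℚ ≃ₐ[ℚ] AlgebraicClosure ℚ, ∀ x ∈ Γ,
      (fun i => act A B σ (x i)) ∈ Γ) :
    (∃ N : Matrix (Fin g) (Fin g) ℤ, N.det ≠ 0 ∧ ∀ x, x ∈ Γ ↔ Iso.mulV N x = 0) ∧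
    ∀ (M : IntermediateField ℚ (AlgebraicClosure ℚ)) [FiniteDimensional ℚ M]
      (x : Fin g → EP A B),
      (∀ σ ∈ M.fixingSubgroup, (fun i => act A B σ (x i) - x i) ∈ Γ) →
      IsOfFinAddOrder (x : (Fin g → EP A B) ⧸ Γ) →
      addOrderOf (x : (Fin g → EP A B) ⧸ Γ) ≤ 2 * Module.finrank ℚ M ∧
      (2 * Module.finrank ℚ M < z ^ 2 →
        addOrderOf (x : (Fin g → EP A B) ⧸ Γ) ^ 2 ≤ 2 * Module.finrank ℚ M) := by
  obtain ⟨N, hN0, hN⟩ := Iso.exists_matrix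
    (act := fun σ : AlgebraicClosure ℚ ≃ₐ[ℚ] AlgebraicClosure ℚ => act A B σ)
    _ Γ hfin.to_subtype rfl hst fun _ hp _ => full_l h hp
  refine ⟨⟨N, hN0, hN⟩, fun M _ x hx hf => ?_⟩
  have h1 : addOrderOf (x : (Fin g → EP A B) ⧸ Γ) = addOrderOf (Iso.mulV N x) := by
    apply Nat.dvd_antisymm
    · apply addOrderOf_dvd_of_nsmul_eq_zero
      rw [← QuotientAddGroup.mk_nsmul, QuotientAddGroup.eq_zero_iff, hN, map_nsmul]
      exact addOrderOf_nsmul_eq_zero _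
    · apply addOrderOf_dvd_of_nsmul_eq_zero
      rw [← map_nsmul, ← hN, ← QuotientAddGroup.eq_zero_iff, QuotientAddGroup.mk_nsmul]
      exact addOrderOf_nsmul_eq_zero _
  have hfix : ∀ σ ∈ M.fixingSubgroup, ∀ i, act A B σ (Iso.mulV N x i) = Iso.mulV N x i := by
    intro σ hσ i
    have h2 := (hN _).1 (hx σ hσ)
    have h3 : ∑ k, N i k • (act A B σ (x k) - x k) = 0 := congrFun h2 i
    have h4 : ∑ k, N i k • act A B σ (x k) - ∑ k, N i k • x k = 0 := by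
      rw [← Finset.sum_sub_distrib, ← h3]
      exact Finset.sum_congr rfl fun k _ => (zsmul_sub _ _ _).symm
    show act A B σ (∑ k, N i k • x k) = ∑ k, N i k • x k
    rw [map_sum, Finset.sum_congr rfl fun k _ => map_zsmul (act A B σ) (N i k) (x k)]
    exact sub_eq_zero.1 h4
  have hf' : IsOfFinAddOrder (Iso.mulV N x) := by
    rw [← addOrderOf_pos_iff, ← h1, addOrderOf_pos_iff]
    exact hf
  obtain ⟨w, w1, w2, w3⟩ := one_coord M hfix hf'
  rw [h1, ← w3]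
  exact ⟨tp_all h M w1 w2, fun hz => tp_small h M w1 w2 hz⟩

end Pool.Agent.N495.TS
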